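import Pool.Agent.MP217Peel.Defs
import Pool.Agent.MP217Area.Peel
import Pool.Agent.MP217Area.Labels

set_option autoImplicit false

/-!
# Existence of the tick lists
-/

namespace Pool.Agent.Q217

open Finset
open Pool.Agent.P217 (typ Lvl Ticks)
open Pool.Agent.A217 (exists_labels peel)

attribute [local instance 10] Classical.propDecidable

/-- The lists given by the labels `lb k r`, `k ≤ log (l + 5)`, `r < 2 ^ (I + 3 - k)`. -/
def tlist {n : ℕ} (I l : ℕ) (lb : ℕ → ℕ → Fin n → ℕ) (i : ℕ) (p : Fin n) : Finset (Fin n) :=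
  insert p ((range (Nat.log 2 (l + 5) + 1)).biUnion fun k =>
    (range (2 ^ (I + 3 - k))).biUnion fun r => univ.filter fun y =>
      lb k r y % 2 ^ (l + 14 - k + i) = lb k r p % 2 ^ (l + 14 - k + i))

/-- The number of ticks of type `i`. -/
private theorem tc_card {I i : ℕ} (hi : i ≤ I) :
    ((Icc 1 (2 ^ I)).filter fun t => typ I t = i).card ≤ 2 ^ i := by
  have hsub : ((Icc 1 (2 ^ I)).filter fun t => typ I t = i) ⊆
      (Icc 1 (2 ^ i)).image fun s => 2 ^ (I - i) * s := by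
    intro t ht
    rw [mem_filter, mem_Icc] at ht
    obtain ⟨⟨h1, h2⟩, h3⟩ := ht
    unfold typ at h3
    have h4 : 2 ^ (I - i) ∣ t :=
      (pow_dvd_pow 2 (by omega : I - i ≤ padicValNat 2 t)).trans pow_padicValNat_dvd
    obtain ⟨s, hs⟩ := h4
    rw [mem_image]
    refine ⟨s, ?_, hs.symm⟩
    rw [mem_Icc]
    have h5 : 2 ^ I = 2 ^ (I - i) * 2 ^ i := by rw [← pow_add]; congr 1; omega
    constructor
    · rcases Nat.eq_zero_or_pos s with h0 | h0
      · rw [h0, mul_zero] at hs; omega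
      · exact h0
    · rw [hs, h5] at h2
      exact Nat.le_of_mul_le_mul_left h2 (by positivity)
  refine (card_le_card hsub).trans (card_image_le.trans ?_)
  rw [Nat.card_Icc, Nat.add_sub_cancel]

/-- The size of a list. -/
private theorem tc_size {n L I l : ℕ} (hK : Nat.log 2 (l + 5) + 1 ≤ I) (lb : ℕ → ℕ → Fin n → ℕ)
    (hdeg : ∀ k ≤ Nat.log 2 (l + 5), ∀ i ≤ I, ∀ x, ∑ r ∈ range (2 ^ (I + 3 - k)),
      (univ.filter fun y => y ≠ x ∧
        lb k r y % 2 ^ (l + 14 - k + i) = lb k r x % 2 ^ (l + 14 - k + i)).card ≤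
      2 ^ (I + 4) * n / 2 ^ (l + 14 + i) + 8 * (L + 1)) (p : Fin n) {i : ℕ} (hi : i ≤ I) :
    (tlist I l lb i p).card ≤
      (1 + 8 * I * (L + 1)) + I * (2 ^ (I + 4) * n / 2 ^ (l + 14 + i)) := by
  have hsub : tlist I l lb i p ⊆
      insert p ((range (Nat.log 2 (l + 5) + 1)).biUnion fun k =>
        (range (2 ^ (I + 3 - k))).biUnion fun r => univ.filter fun y => y ≠ p ∧
          lb k r y % 2 ^ (l + 14 - k + i) = lb k r p % 2 ^ (l + 14 - k + i)) := by
    intro y hy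
    unfold tlist at hy
    rw [mem_insert] at hy ⊢
    by_cases hyp : y = p
    · exact Or.inl hyp
    · rcases hy with h | h
      · exact Or.inl h
      · right
        simp only [mem_biUnion, mem_filter, mem_univ, true_and] at h ⊢
        obtain ⟨k, hk, r, hr, h⟩ := h
        exact ⟨k, hk, r, hr, hyp, h⟩
  have h1 : (tlist I l lb i p).card ≤ 1 + ∑ _k ∈ range (Nat.log 2 (l + 5) + 1),
      (2 ^ (I + 4) * n / 2 ^ (l + 14 + i) + 8 * (L + 1)) := by
    refine (card_le_card hsub).trans ((card_insert_le _ _).trans ?_)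
    rw [add_comm]
    apply Nat.add_le_add_left
    refine card_biUnion_le.trans (sum_le_sum fun k hk => ?_)
    rw [mem_range] at hk
    exact card_biUnion_le.trans (hdeg k (by omega) i hi p)
  rw [sum_const, card_range, smul_eq_mul] at h1
  have h2 := Nat.mul_le_mul_right (2 ^ (I + 4) * n / 2 ^ (l + 14 + i) + 8 * (L + 1)) hK
  calc _ ≤ 1 + I * (2 ^ (I + 4) * n / 2 ^ (l + 14 + i) + 8 * (L + 1)) := by omega
    _ = _ := by ring

/-- The cost of the lists.  PROOF: `|tlist i p| ≤ 1 + ∑_k (2 ^ (I+4) n / 2 ^ (l+14+i) + 8 (L+1))`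
and there are at most `2 ^ i` ticks `t ∈ [1, 2 ^ I]` of type `i = I - padicValNat 2 t`, for
`i ≤ I`; `K + 1 ≤ I` because `2 ^ K ≤ l + 5 ≤ L + 5 ≤ 2 ^ (I - 2)`. -/
theorem tick_cost {n L I l : ℕ} (hl : l ≤ L) (hI : 4 * (L + 5) ≤ 2 ^ I)
    (hI' : 2 ^ I ≤ 8 * (L + 5)) (lb : ℕ → ℕ → Fin n → ℕ)
    (hdeg : ∀ k ≤ Nat.log 2 (l + 5), ∀ i ≤ I, ∀ x, ∑ r ∈ range (2 ^ (I + 3 - k)),
      (univ.filter fun y => y ≠ x ∧
        lb k r y % 2 ^ (l + 14 - k + i) = lb k r x % 2 ^ (l + 14 - k + i)).card ≤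
      2 ^ (I + 4) * n / 2 ^ (l + 14 + i) + 8 * (L + 1)) (p : Fin n) :
    2 ^ l * ∑ t ∈ Icc 1 (2 ^ I), (tlist I l lb (typ I t) p).card ≤
      2 ^ l * (16 * (L + 5) * (1 + 8 * I * (L + 1))) + I * (I + 1) * (L + 5) * n := by
  have hK : Nat.log 2 (l + 5) + 1 ≤ I := by
    have h1 : 2 ^ Nat.log 2 (l + 5) ≤ l + 5 := Nat.pow_log_le_self 2 (by omega)
    have h2 : 2 ^ (Nat.log 2 (l + 5) + 2) ≤ 2 ^ I := by
      rw [pow_add]
      omega
    have h3 := (Nat.pow_le_pow_iff_right (by norm_num : 1 < 2)).1 h2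
    omega
  set F : ℕ → ℕ := fun i => 2 ^ (I + 4) * n / 2 ^ (l + 14 + i) with hF
  have htyp : ∀ t, typ I t ≤ I := fun t => Nat.sub_le _ _
  have h1 : ∑ t ∈ Icc 1 (2 ^ I), (tlist I l lb (typ I t) p).card ≤
      2 ^ I * (1 + 8 * I * (L + 1)) + I * ∑ i ∈ range (I + 1), 2 ^ i * F i := by
    calc _ ≤ ∑ t ∈ Icc 1 (2 ^ I), ((1 + 8 * I * (L + 1)) + I * F (typ I t)) :=
          sum_le_sum fun t _ => tc_size hK lb hdeg p (htyp t)
      _ = 2 ^ I * (1 + 8 * I * (L + 1)) + I * ∑ t ∈ Icc 1 (2 ^ I), F (typ I t) := by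
          rw [sum_add_distrib, sum_const, Nat.card_Icc, smul_eq_mul, ← mul_sum,
            Nat.add_sub_cancel]
      _ ≤ _ := by
          apply Nat.add_le_add_left
          apply Nat.mul_le_mul_left
          rw [← sum_fiberwise_of_maps_to (t := range (I + 1)) (g := typ I)
            (fun t _ => by rw [mem_range]; have := htyp t; omega)]
          apply sum_le_sum
          intro i hi
          rw [mem_range] at hi
          calc ∑ t ∈ (Icc 1 (2 ^ I)).filter (fun t => typ I t = i), F (typ I t)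
              = ∑ _t ∈ (Icc 1 (2 ^ I)).filter (fun t => typ I t = i), F i :=
                sum_congr rfl fun t ht => by rw [(mem_filter.1 ht).2]
            _ = ((Icc 1 (2 ^ I)).filter fun t => typ I t = i).card * F i := by
                rw [sum_const, smul_eq_mul]
            _ ≤ 2 ^ i * F i := Nat.mul_le_mul_right _ (tc_card (by omega))
  have h2 : ∀ i ∈ range (I + 1), 2 ^ l * (2 ^ i * F i) ≤ (L + 5) * n := by
    intro i _
    have h3 : F i * 2 ^ (l + 14 + i) ≤ 2 ^ (I + 4) * n := Nat.div_mul_le_self _ _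
    have h4 : F i * 2 ^ (l + 14 + i) = (2 ^ l * (2 ^ i * F i)) * 2 ^ 14 := by
      rw [pow_add, pow_add]; ring
    have h5 : 2 ^ (I + 4) * n ≤ ((L + 5) * n) * 2 ^ 14 := by
      calc 2 ^ (I + 4) * n = (2 ^ I * 16) * n := by rw [pow_add]; norm_num
        _ ≤ (8 * (L + 5) * 16) * n := Nat.mul_le_mul_right _ (Nat.mul_le_mul_right _ hI')
        _ = ((L + 5) * n) * 128 := by ring
        _ ≤ ((L + 5) * n) * 2 ^ 14 := Nat.mul_le_mul_left _ (by norm_num)
    rw [h4] at h3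
    exact Nat.le_of_mul_le_mul_right (h3.trans h5) (by norm_num)
  calc 2 ^ l * ∑ t ∈ Icc 1 (2 ^ I), (tlist I l lb (typ I t) p).card
      ≤ 2 ^ l * (2 ^ I * (1 + 8 * I * (L + 1)) + I * ∑ i ∈ range (I + 1), 2 ^ i * F i) :=
        Nat.mul_le_mul_left _ h1
    _ = 2 ^ l * (2 ^ I * (1 + 8 * I * (L + 1))) +
          I * ∑ i ∈ range (I + 1), 2 ^ l * (2 ^ i * F i) := by
        rw [mul_add, ← mul_sum]; ring
    _ ≤ 2 ^ l * (16 * (L + 5) * (1 + 8 * I * (L + 1))) + I * ((I + 1) * ((L + 5) * n)) := by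
        apply Nat.add_le_add
        · apply Nat.mul_le_mul_left
          apply Nat.mul_le_mul_right
          omega
        · apply Nat.mul_le_mul_left
          calc _ ≤ ∑ _i ∈ range (I + 1), (L + 5) * n := sum_le_sum h2
            _ = _ := by rw [sum_const, card_range, smul_eq_mul]
    _ = _ := by ring

/-- The tick lists of a level.  PROOF: choose the labels of `exists_labels` for all
`k ≤ K = log (l + 5)`, `TL = tlist`.  `few`: `peel` with `la = l + 5`, `ρ = I + 3`, and the teams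
`fun p t => X.M p (min t (2 ^ I))`: `4 * I * (K + 1) * 2 ^ (l + 14) < |S|` would give a `p ∈ S` with
`2 ^ (l + 5) ≤ |M p (2 ^ I)|`; `K + 1 ≤ I`.  `cost`: `tick_cost`. -/
theorem exists_ticks (n L I l : ℕ) (hn : n < 2 ^ (L + 1)) (hl : l ≤ L)
    (hI : 4 * (L + 5) ≤ 2 ^ I) (hI' : 2 ^ I ≤ 8 * (L + 5)) :
    Nonempty (Ticks n l I (2 ^ 16 * I ^ 2)
      (2 ^ l * (16 * (L + 5) * (1 + 8 * I * (L + 1))) + I * (I + 1) * (L + 5) * n)) := by
  have hK : Nat.log 2 (l + 5) + 1 ≤ I := by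
    have h1 : 2 ^ Nat.log 2 (l + 5) ≤ l + 5 := Nat.pow_log_le_self 2 (by omega)
    have h2 : 2 ^ (Nat.log 2 (l + 5) + 2) ≤ 2 ^ I := by
      rw [pow_add]
      omega
    have h3 := (Nat.pow_le_pow_iff_right (by norm_num : 1 < 2)).1 h2
    omega
  have hex : ∀ k, ∃ lb : ℕ → Fin n → ℕ, k ≤ Nat.log 2 (l + 5) →
      (∀ U : Finset (Fin n), U.card ≤ 4 * 2 ^ (l + 5 - 2 ^ k) →
        15 * (2 ^ (I + 3 - k) * U.card) ≤
          16 * ∑ r ∈ range (2 ^ (I + 3 - k)), (U.image fun y => lb r y % 2 ^ (l + 14 - k)).card) ∧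
      (∀ i ≤ I, ∀ x, ∑ r ∈ range (2 ^ (I + 3 - k)), (univ.filter fun y =>
          y ≠ x ∧ lb r y % 2 ^ (l + 14 - k + i) = lb r x % 2 ^ (l + 14 - k + i)).card ≤
        2 ^ (I + 4) * n / 2 ^ (l + 14 + i) + 8 * (L + 1)) := by
    intro k
    by_cases hk : k ≤ Nat.log 2 (l + 5)
    · obtain ⟨lb, h1, h2⟩ := exists_labels n L I l k hn hl hk hI hI'
      exact ⟨lb, fun _ => ⟨fun U hU => by convert h1 U hU, fun i hi x => by convert h2 i hi x⟩⟩
    · exact ⟨fun _ _ => 0, fun h => absurd h hk⟩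
  choose lb hlb using hex
  refine ⟨⟨tlist I l lb, fun i p => mem_insert_self _ _, ?_, ?_, ?_, ?_⟩⟩
  · intro i p q hq
    unfold tlist at hq ⊢
    rw [mem_insert] at hq ⊢
    rcases hq with h | h
    · exact Or.inl h.symm
    · right
      simp only [mem_biUnion, mem_filter, mem_univ, true_and] at h ⊢
      obtain ⟨k, hk, r, hr, h⟩ := h
      exact ⟨k, hk, r, hr, h.symm⟩
  · intro i j p hij q hq
    unfold tlist at hq ⊢
    rw [mem_insert] at hq ⊢
    rcases hq with h | h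
    · exact Or.inl h
    · right
      simp only [mem_biUnion, mem_filter, mem_univ, true_and] at h ⊢
      obtain ⟨k, hk, r, hr, h⟩ := h
      refine ⟨k, hk, r, hr, ?_⟩
      have hd : 2 ^ (l + 14 - k + i) ∣ 2 ^ (l + 14 - k + j) := pow_dvd_pow 2 (by omega)
      exact (Nat.ModEq.of_dvd hd h : Nat.ModEq _ _ _)
  · intro p
    exact tick_cost hl hI hI' lb (fun k hk => (hlb k hk).2) p
  · intro X hXI hXTL hX
    subst hXI
    by_contra hc
    rw [not_le] at hc
    have hTL : X.TL = tlist X.I l lb := hXTL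
    have key := peel X.S (fun p t => X.M p (min t (2 ^ X.I))) X.TL X.I (l + 5)
      (X.I + 3) lb (by omega) (by omega) ?_ ?_ ?_ ?_ ?_ ?_
    · obtain ⟨p, hp, hpc⟩ := key
      have h := hX p hp
      rw [min_self] at hpc
      omega
    · intro p hp t
      rcases Nat.lt_or_ge t (2 ^ X.I) with h | h
      · have e1 : min t (2 ^ X.I) = t := min_eq_left h.le
        have e2 : min (t + 1) (2 ^ X.I) = t + 1 := min_eq_left h
        show X.M p (min t (2 ^ X.I)) ⊆ X.M p (min (t + 1) (2 ^ X.I))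
        rw [e1, e2]
        exact X.mono p hp t h
      · have e1 : min t (2 ^ X.I) = 2 ^ X.I := min_eq_right h
        have e2 : min (t + 1) (2 ^ X.I) = 2 ^ X.I := min_eq_right (by omega)
        show X.M p (min t (2 ^ X.I)) ⊆ X.M p (min (t + 1) (2 ^ X.I))
        rw [e1, e2]
    · intro p hp
      show p ∈ X.M p (min 0 (2 ^ X.I))
      rw [Nat.zero_min]
      exact X.self p hp
    · intro p hp q hq hpq t t' h1 h2 h1' h2' h3 h4
      have h := X.dekker p hp q hq hpq t t' h1 h2 h1' h2' h3 h4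
      show X.M p (min (t - 1) (2 ^ X.I)) ⊆ X.M q (min t' (2 ^ X.I)) ∨
        X.M q (min (t' - 1) (2 ^ X.I)) ⊆ X.M p (min t (2 ^ X.I))
      rw [min_eq_left (by omega : t - 1 ≤ 2 ^ X.I), min_eq_left h2', min_eq_left h2,
        min_eq_left (by omega : t' - 1 ≤ 2 ^ X.I)]
      exact h
    · intro k hk r hr i hi i' hi' p q h
      rw [hTL]
      unfold tlist
      rw [mem_insert]
      right
      simp only [mem_biUnion, mem_filter, mem_univ, true_and, mem_range]
      refine ⟨k, by omega, r, hr, ?_⟩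
      have hd : 2 ^ (l + 14 - k + i') ∣ 2 ^ (l + 5 + 9 - k + i) := pow_dvd_pow 2 (by omega)
      exact (Nat.ModEq.of_dvd hd h : Nat.ModEq _ _ _)
    · intro k hk U hU
      exact (hlb k hk).1 U hU
    · refine lt_of_le_of_lt ?_ hc
      calc 4 * X.I * (Nat.log 2 (l + 5) + 1) * 2 ^ (l + 5 + 9)
          ≤ 4 * X.I * X.I * 2 ^ (l + 5 + 9) :=
            Nat.mul_le_mul_right _ (Nat.mul_le_mul_left _ hK)
        _ = 2 ^ 16 * X.I ^ 2 * 2 ^ l := by
            have e : l + 5 + 9 = l + 14 := by omega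
            rw [e, pow_add]
            ring

end Pool.Agent.Q217
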