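import Pool.Agent.MP217Two.Numb
import Pool.Agent.MP217Two.Ticks
import Pool.Agent.MP217Area.Graph
import Pool.Agent.MP217Area.NestFull

set_option autoImplicit false

/-!
# The choice of the parameters
-/

namespace Pool.Agent.Q217

open Finset
open Pool.Agent.A217 (Nest exists_nest Nest.full)
open Pool.Agent.P217 (typ Lvl Ticks)

variable {n : ℕ}

/-- The logarithm of `n`. -/
def pL (n : ℕ) : ℕ := Nat.log 2 n

/-- The degree parameter. -/
def pν (n : ℕ) : ℕ := Nat.clog 2 (16 * (pL n + 1))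

/-- The logarithm of the number of ticks. -/
def pI (n : ℕ) : ℕ := Nat.clog 2 (4 * (pL n + 5))

/-- The cost of the ticks of level `l`. -/
def pC (n l : ℕ) : ℕ :=
  2 ^ l * (16 * (pL n + 5) * (1 + 8 * pI n * (pL n + 1))) + pI n * (pI n + 1) * (pL n + 5) * n

/-- The lists. -/
structure Tks (n : ℕ) where
  nest : Nest n (pL n) (pν n) (4 * n * 2 ^ pν n)
  full : ∀ ν ≤ pν n, ν ≤ pL n → ∀ x, nest.N ν x = univ
  tks : ∀ l, l ≤ pL n → Ticks n l (pI n) (2 ^ 16 * pI n ^ 2) (pC n l)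

/-- The static parameters for given lists. -/
def mkG (T : Tks n) : Geo n where
  L := pL n
  I := pI n
  ν0 := pν n
  g := Nat.clog 2 (pL n + 1)
  Q := 4 * n * 2 ^ pν n
  O := 3 * pI n + 20
  Nc := 2 ^ 16 * pI n ^ 2
  Ct := pC n
  nest := T.nest
  TL l i p := if h : l ≤ pL n then (T.tks l h).TL i p else univ
  TL_self l i p := by
    split_ifs with h
    · exact (T.tks l h).self i p
    · exact mem_univ p
  TL_symm l i p q := by
    split_ifs with h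
    · exact (T.tks l h).symm i p q
    · exact fun _ => mem_univ p
  TL_anti l i j p := by
    split_ifs with h
    · exact (T.tks l h).anti i j p
    · exact fun _ => Subset.refl _

private theorem w2_lt (n : ℕ) : n < 2 ^ (pL n + 1) := Nat.lt_pow_succ_log_self (by norm_num) n

private theorem w2_nu (n : ℕ) : 16 * (pL n + 1) ≤ 2 ^ pν n := Nat.le_pow_clog (by norm_num) _

private theorem w2_I (n : ℕ) : 4 * (pL n + 5) ≤ 2 ^ pI n := Nat.le_pow_clog (by norm_num) _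

private theorem w2_clog (x : ℕ) (hx : 1 < x) : 2 ^ Nat.clog 2 x ≤ 2 * x := by
  have h1 := Nat.pow_pred_clog_lt_self (b := 2) (by norm_num) hx
  have h2 : 0 < Nat.clog 2 x := Nat.clog_pos (by norm_num) hx
  obtain ⟨m, hm⟩ : ∃ m, Nat.clog 2 x = m + 1 := ⟨Nat.clog 2 x - 1, by omega⟩
  rw [hm] at h1 ⊢
  simp only [Nat.pred_succ, Nat.add_sub_cancel] at h1
  rw [pow_succ]
  omega

private theorem w2_I' (n : ℕ) : 2 ^ pI n ≤ 8 * (pL n + 5) := by
  have := w2_clog (4 * (pL n + 5)) (by omega)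
  unfold pI
  omega

private theorem w2_I5 (n : ℕ) : 5 ≤ pI n := by
  by_contra h
  have h1 : pI n ≤ 4 := by omega
  have h2 : 2 ^ pI n ≤ 2 ^ 4 := Nat.pow_le_pow_right (by norm_num) h1
  have h3 := w2_I n
  omega

private theorem w2_sq : ∀ m : ℕ, 4 ≤ m → m ^ 2 ≤ 2 ^ m := by
  intro m hm
  induction m, hm using Nat.le_induction with
  | base => norm_num
  | succ m hm ih =>
    have h1 : (m + 1) ^ 2 ≤ 2 * m ^ 2 := by nlinarith
    calc (m + 1) ^ 2 ≤ 2 * m ^ 2 := h1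
      _ ≤ 2 * 2 ^ m := Nat.mul_le_mul_left _ ih
      _ = 2 ^ (m + 1) := by ring

private theorem w2_g (n : ℕ) : 2 ^ Nat.clog 2 (pL n + 1) ≤ 2 * (pL n + 1) := by
  rcases Nat.eq_zero_or_pos (pL n) with h | h
  · rw [h]; norm_num
  · exact w2_clog _ (by omega)

private theorem w2_pL (n : ℕ) (hn : 4 ≤ n) : 2 ≤ pL n := by
  have h1 := w2_lt n
  by_contra h
  have h2 : pL n + 1 ≤ 2 := by omega
  have h3 : 2 ^ (pL n + 1) ≤ 2 ^ 2 := Nat.pow_le_pow_right (by norm_num) h2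
  omega

private theorem w2_O (n : ℕ) (hn : 4 ≤ n) : 3 * pI n + 20 ≤ 63 * (pL n + 1) := by
  have h1 : pI n < 2 ^ pI n := Nat.lt_two_pow_self
  have h2 := w2_I' n
  have h3 := w2_pL n hn
  omega

theorem exists_tks (hn : 1 ≤ n) : Nonempty (Tks n) := by
  obtain ⟨G0⟩ := exists_nest n hn (pν n) (w2_nu n)
  obtain ⟨G, hG⟩ := Nest.full G0
  have ht : ∀ l, l ≤ pL n → Nonempty (Ticks n l (pI n) (2 ^ 16 * pI n ^ 2) (pC n l)) :=
    fun l hl => exists_ticks n (pL n) (pI n) l (w2_lt n) hl (w2_I n) (w2_I' n)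
  choose f hf using fun l hl => (⟨Classical.choice (ht l hl), trivial⟩ :
    ∃ _ : Ticks n l (pI n) (2 ^ 16 * pI n ^ 2) (pC n l), True)
  exact ⟨⟨G, hG, f⟩⟩

theorem mk_good (hn : 1 ≤ n) (T : Tks n) : (mkG T).Good := by
  have hTL : ∀ l (h : l ≤ pL n), (mkG T).TL l = (T.tks l h).TL := by
    intro l h
    funext i p
    change (if h : l ≤ pL n then (T.tks l h).TL i p else univ) = _
    rw [dif_pos h]
  refine ⟨w2_lt n, Nat.pow_log_le_self 2 (by omega), w2_nu n, rfl,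
    Nat.le_pow_clog (by norm_num) _, ?_, ?_, ?_, T.full⟩
  · intro l hl p
    have h1 := (T.tks l hl).cost p
    rw [hTL l hl]
    exact h1
  · intro l hl X hX1 hX2 hX3
    have hXT : X.TL = (T.tks l hl).TL := by rw [hX2, hTL l hl]
    exact (T.tks l hl).few X hX1 hXT hX3
  · change 1 ≤ 2 ^ 16 * pI n ^ 2
    have h1 := w2_I5 n
    have h2 : 0 < pI n ^ 2 := by positivity
    omega

/-- PROOF of `hk`: `Nc = 2 ^ 16 * I ^ 2 ≤ 2 ^ (16 + I)`, `2 ^ g ≤ 2 * (L + 1)` and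
`4 * (L + 5) ≤ 2 ^ I` give `16 * (Nc * 2 ^ g * (L + 1)) ≤ 2 ^ (3 * I + 17)`. -/
theorem mk_numb (hn : 4 ≤ n) (T : Tks n) : Numb (mkG T) (3 * pI n + 17) (4 + 2 * (pL n + 1)) := by
  have hI5 := w2_I5 n
  have hI := w2_I n
  have hg := w2_g n
  have hlt := w2_lt n
  have hO := w2_O n hn
  have hL := w2_pL n hn
  have hx : pL n + 1 ≤ 2 ^ (pL n + 1) := Nat.lt_two_pow_self.le
  have hn2 : n * n ≤ 2 ^ (pL n + 1) * 2 ^ (pL n + 1) := Nat.mul_le_mul hlt.le hlt.le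
  have hNc : 1 ≤ 2 ^ 16 * pI n ^ 2 := by
    have h2 : 0 < pI n ^ 2 := by positivity
    omega
  refine ⟨rfl, ?_, ?_, ?_, ?_, ?_⟩
  · change 16 * (2 ^ 16 * pI n ^ 2 * 2 ^ Nat.clog 2 (pL n + 1) * (pL n + 1)) ≤
      2 ^ (3 * pI n + 17)
    have h1 : 16 * ((pL n + 1) * (pL n + 1)) ≤ 2 ^ pI n * 2 ^ pI n := by nlinarith
    have h2 := w2_sq (pI n) (by omega)
    calc 16 * (2 ^ 16 * pI n ^ 2 * 2 ^ Nat.clog 2 (pL n + 1) * (pL n + 1))
        ≤ 16 * (2 ^ 16 * 2 ^ pI n * (2 * (pL n + 1)) * (pL n + 1)) := by gcongr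
      _ = 2 ^ 17 * 2 ^ pI n * (16 * ((pL n + 1) * (pL n + 1))) := by ring
      _ ≤ 2 ^ 17 * 2 ^ pI n * (2 ^ pI n * 2 ^ pI n) := by gcongr
      _ = 2 ^ (3 * pI n + 17) := by ring
  · calc 16 * n ^ 2 = 16 * (n * n) := by ring
      _ ≤ 16 * (2 ^ (pL n + 1) * 2 ^ (pL n + 1)) := by gcongr
      _ = 2 ^ (4 + 2 * (pL n + 1)) := by ring
  · change 8 * (n * (3 * pI n + 20) * (pL n + 1)) ≤ 2 ^ (16 * (pL n + 1))
    calc 8 * (n * (3 * pI n + 20) * (pL n + 1))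
        ≤ 8 * (2 ^ (pL n + 1) * (64 * 2 ^ (pL n + 1)) * 2 ^ (pL n + 1)) := by
          gcongr
          omega
      _ = 2 ^ (9 + 3 * (pL n + 1)) := by ring
      _ ≤ 2 ^ (16 * (pL n + 1)) := Nat.pow_le_pow_right (by norm_num) (by omega)
  · change 8 * (n * (pL n + 1)) ≤ 2 ^ (16 * (pL n + 1))
    calc 8 * (n * (pL n + 1)) ≤ 8 * (2 ^ (pL n + 1) * 2 ^ (pL n + 1)) := by gcongr
      _ = 2 ^ (3 + 2 * (pL n + 1)) := by ring
      _ ≤ 2 ^ (16 * (pL n + 1)) := Nat.pow_le_pow_right (by norm_num) (by omega)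
  · have hWg : (mkG T).Wg = (3 * pI n + 20) * (2 * (2 ^ 16 * pI n ^ 2) * (mkG T).sc1) := by
      unfold Geo.Wg Geo.sc1
      change (3 * pI n + 20) * (∑ l ∈ range ((mkG T).L + 1),
        2 * (2 ^ 16 * pI n ^ 2) * (mkG T).cst l) = _
      rw [← Finset.mul_sum]
    rw [hWg]
    change n * (3 * pI n + 20) * (pL n + 1) * (n * ((3 * pI n + 20) * (mkG T).sc1)) ≤
      2 ^ (16 * (pL n + 1)) *
        ((3 * pI n + 20) * (2 * (2 ^ 16 * pI n ^ 2) * (mkG T).sc1))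
    have h1 : n * n * ((3 * pI n + 20) * (pL n + 1)) ≤ 2 ^ (16 * (pL n + 1)) := by
      calc n * n * ((3 * pI n + 20) * (pL n + 1))
          ≤ 2 ^ (pL n + 1) * 2 ^ (pL n + 1) * ((64 * 2 ^ (pL n + 1)) * 2 ^ (pL n + 1)) := by
            gcongr
            omega
        _ = 2 ^ (6 + 4 * (pL n + 1)) := by ring
        _ ≤ 2 ^ (16 * (pL n + 1)) := Nat.pow_le_pow_right (by norm_num) (by omega)
    calc n * (3 * pI n + 20) * (pL n + 1) * (n * ((3 * pI n + 20) * (mkG T).sc1))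
        = n * n * ((3 * pI n + 20) * (pL n + 1)) * ((3 * pI n + 20) * (1 * (mkG T).sc1)) := by
          ring
      _ ≤ 2 ^ (16 * (pL n + 1)) *
          ((3 * pI n + 20) * (2 * (2 ^ 16 * pI n ^ 2) * (mkG T).sc1)) := by
          gcongr
          omega

end Pool.Agent.Q217
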