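import Pool.Agent.MP217Two.Arith

set_option autoImplicit false

/-!
# The size of the bound
-/

namespace Pool.Agent.Q217

open Finset

private theorem w3_clog (x : ℕ) (hx : 1 < x) : 2 ^ Nat.clog 2 x ≤ 2 * x := by
  have h1 := Nat.pow_pred_clog_lt_self (b := 2) (by norm_num) hx
  have h2 : 0 < Nat.clog 2 x := Nat.clog_pos (by norm_num) hx
  obtain ⟨m, hm⟩ : ∃ m, Nat.clog 2 x = m + 1 := ⟨Nat.clog 2 x - 1, by omega⟩
  rw [hm] at h1 ⊢
  simp only [Nat.pred_succ, Nat.add_sub_cancel] at h1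
  rw [pow_succ]
  omega

private theorem w3_geo (m : ℕ) : (∑ l ∈ range m, 2 ^ l) + 1 = 2 ^ m := by
  induction m with
  | zero => simp
  | succ m ih =>
    rw [sum_range_succ, pow_succ]
    omega

private theorem w3_len {n : ℕ} (hn : 4 ≤ n) (T : Tks n) {l : ℕ} (hl : l ≤ pL n) :
    2 ^ l * (mkG T).len l ≤ 176 * (n * (pL n + 1)) := by
  have hL : 2 ^ pL n ≤ n := Nat.pow_log_le_self 2 (by omega)
  have hν : 2 ^ pν n ≤ 32 * (pL n + 1) := by
    have := w3_clog (16 * (pL n + 1)) (by omega)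
    unfold pν
    omega
  have hL1 : 1 ≤ pL n := by
    unfold pL
    exact Nat.log_pos (by norm_num) (by omega)
  have hg : 2 ^ Nat.clog 2 (pL n + 1) ≤ 2 * (pL n + 1) := w3_clog _ (by omega)
  unfold Geo.len
  split_ifs with h
  · change l ≤ pν n at h
    calc 2 ^ l * n ≤ 2 ^ pν n * n :=
          Nat.mul_le_mul_right _ (Nat.pow_le_pow_right (by norm_num) h)
      _ ≤ (32 * (pL n + 1)) * n := Nat.mul_le_mul_right _ hν
      _ ≤ 176 * (n * (pL n + 1)) := by nlinarith [Nat.zero_le (n * (pL n + 1))]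
  · change ¬ l ≤ pν n at h
    have e1 : (mkG T).Q = 4 * n * 2 ^ pν n := rfl
    have e2 : (mkG T).ns l = 2 ^ (pL n - l + Nat.clog 2 (pL n + 1) + 3) +
        (l - pν n - 1) * 2 ^ (pL n - l + 5) := rfl
    rw [e1, e2, mul_add, mul_add]
    have h1 : 2 ^ l * (4 * n * 2 ^ pν n / 2 ^ l) ≤ 128 * (n * (pL n + 1)) := by
      calc 2 ^ l * (4 * n * 2 ^ pν n / 2 ^ l) ≤ 4 * n * 2 ^ pν n := Nat.mul_div_le _ _
        _ ≤ 4 * n * (32 * (pL n + 1)) := Nat.mul_le_mul_left _ hν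
        _ = 128 * (n * (pL n + 1)) := by ring
    have h2 : 2 ^ l * 2 ^ (pL n - l + Nat.clog 2 (pL n + 1) + 3) ≤ 16 * (n * (pL n + 1)) := by
      have e3 : 2 ^ l * 2 ^ (pL n - l + Nat.clog 2 (pL n + 1) + 3) =
          2 ^ pL n * 2 ^ Nat.clog 2 (pL n + 1) * 8 := by
        rw [← pow_add, show l + (pL n - l + Nat.clog 2 (pL n + 1) + 3) =
          pL n + Nat.clog 2 (pL n + 1) + 3 by omega, pow_add, pow_add]
        norm_num
      rw [e3]
      calc 2 ^ pL n * 2 ^ Nat.clog 2 (pL n + 1) * 8 ≤ n * (2 * (pL n + 1)) * 8 :=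
            Nat.mul_le_mul_right _ (Nat.mul_le_mul hL hg)
        _ = 16 * (n * (pL n + 1)) := by ring
    have h3 : 2 ^ l * ((l - pν n - 1) * 2 ^ (pL n - l + 5)) ≤ 32 * (n * (pL n + 1)) := by
      have e3 : 2 ^ l * ((l - pν n - 1) * 2 ^ (pL n - l + 5)) =
          (l - pν n - 1) * (2 ^ pL n * 32) := by
        have : 2 ^ l * 2 ^ (pL n - l + 5) = 2 ^ pL n * 32 := by
          rw [← pow_add, show l + (pL n - l + 5) = pL n + 5 by omega, pow_add]
          norm_num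
        calc 2 ^ l * ((l - pν n - 1) * 2 ^ (pL n - l + 5)) =
            (l - pν n - 1) * (2 ^ l * 2 ^ (pL n - l + 5)) := by ring
          _ = (l - pν n - 1) * (2 ^ pL n * 32) := by rw [this]
      rw [e3]
      calc (l - pν n - 1) * (2 ^ pL n * 32) ≤ (pL n + 1) * (n * 32) :=
            Nat.mul_le_mul (by omega) (Nat.mul_le_mul_right _ hL)
        _ = 32 * (n * (pL n + 1)) := by ring
    omega

/-- PROOF: `L = log n`, `λ = log L ≥ 1`; `I ≤ c λ`, `2 ^ g ≤ 2 (L + 1)`, `2 ^ ν0 ≤ 32 (L + 1)`;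
`2 ^ l * len l ≤ 2 ^ l * n` for `l ≤ ν0`, and `≤ Q + 2 ^ (L + g + 3) + L * 2 ^ (L + 5)` for
`ν0 < l ≤ L`, so `∑_l 2 ^ l * len l ≤ c n L ^ 2`; `∑_l pC n l ≤ c n L ^ 2 λ ^ 2` (geometric sum for
the first part of `pC`); `Nc ≤ c λ ^ 2`, `O ≤ c λ`. -/
theorem mk_Wg : ∃ C : ℕ, ∀ n : ℕ, 4 ≤ n → ∀ T : Tks n,
    (mkG T).Wg ≤ C * n * (Nat.log 2 n) ^ 2 * (Nat.log 2 (Nat.log 2 n)) ^ 5 := by
  refine ⟨2 * 38 * (65536 * 36) * 168448, fun n hn T => ?_⟩
  have hL : 2 ^ pL n ≤ n := Nat.pow_log_le_self 2 (by omega)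
  have hL2 : 2 ≤ pL n := by
    unfold pL
    exact Nat.le_log_of_pow_le (by norm_num) (by omega)
  have e0 : Nat.log 2 n = pL n := rfl
  rw [e0]
  have hlam : 1 ≤ Nat.log 2 (pL n) := Nat.log_pos (by norm_num) hL2
  have hlam2 : pL n < 2 ^ (Nat.log 2 (pL n) + 1) := Nat.lt_pow_succ_log_self (by norm_num) _
  have hI : pI n ≤ 6 * Nat.log 2 (pL n) := by
    have h1 : 2 ^ pI n ≤ 2 * (4 * (pL n + 5)) := w3_clog _ (by omega)
    have h2 : 2 ^ pI n < 2 ^ (Nat.log 2 (pL n) + 6) := by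
      have e : 2 ^ (Nat.log 2 (pL n) + 6) = 32 * 2 ^ (Nat.log 2 (pL n) + 1) := by
        rw [show Nat.log 2 (pL n) + 6 = (Nat.log 2 (pL n) + 1) + 5 by omega, pow_add]
        norm_num [mul_comm]
      rw [e]
      omega
    have h3 : pI n < Nat.log 2 (pL n) + 6 := (Nat.pow_lt_pow_iff_right (by norm_num)).1 h2
    omega
  have hI1 : 1 ≤ pI n := Nat.clog_pos (by norm_num) (by omega)
  generalize hlamdef : Nat.log 2 (pL n) = lam at *
  have e1 : (mkG T).Wg = (3 * pI n + 20) * ∑ l ∈ range (pL n + 1),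
      2 * (2 ^ 16 * pI n ^ 2) * (2 * (2 ^ l * (mkG T).len l) + 2 * pC n l) := rfl
  have hC : ∑ l ∈ range (pL n + 1), pC n l ≤ 290 * (pI n ^ 2 * ((pL n + 1) * (pL n + 5)) * n) := by
    unfold pC
    rw [sum_add_distrib, ← sum_mul, sum_const, card_range, smul_eq_mul]
    have h1 := w3_geo (pL n + 1)
    have h2 : ∑ l ∈ range (pL n + 1), 2 ^ l ≤ 2 * n := by
      rw [pow_succ] at h1
      omega
    have h3 : (∑ l ∈ range (pL n + 1), 2 ^ l) * (16 * (pL n + 5) * (1 + 8 * pI n * (pL n + 1))) ≤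
        (2 * n) * (16 * (pL n + 5) * (9 * pI n ^ 2 * (pL n + 1))) := by
      refine Nat.mul_le_mul h2 (Nat.mul_le_mul_left _ ?_)
      have h4 : pI n ≤ pI n ^ 2 := by nlinarith
      have h5 : 1 ≤ pI n ^ 2 * (pL n + 1) := by
        have : 1 ≤ pI n ^ 2 := by nlinarith
        nlinarith
      have h6 : pI n * (pL n + 1) ≤ pI n ^ 2 * (pL n + 1) := Nat.mul_le_mul_right _ h4
      nlinarith
    have h7 : (pL n + 1) * (pI n * (pI n + 1) * (pL n + 5) * n) ≤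
        2 * (pI n ^ 2 * ((pL n + 1) * (pL n + 5)) * n) := by
      have h8 : pI n * (pI n + 1) ≤ 2 * pI n ^ 2 := by nlinarith
      calc (pL n + 1) * (pI n * (pI n + 1) * (pL n + 5) * n)
          = (pI n * (pI n + 1)) * ((pL n + 1) * (pL n + 5) * n) := by ring
        _ ≤ (2 * pI n ^ 2) * ((pL n + 1) * (pL n + 5) * n) := Nat.mul_le_mul_right _ h8
        _ = 2 * (pI n ^ 2 * ((pL n + 1) * (pL n + 5)) * n) := by ring
    have h9 : (2 * n) * (16 * (pL n + 5) * (9 * pI n ^ 2 * (pL n + 1))) =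
        288 * (pI n ^ 2 * ((pL n + 1) * (pL n + 5)) * n) := by ring
    omega
  have hlen : ∑ l ∈ range (pL n + 1), 2 ^ l * (mkG T).len l ≤
      (pL n + 1) * (176 * (n * (pL n + 1))) := by
    have := sum_le_card_nsmul (range (pL n + 1)) (fun l => 2 ^ l * (mkG T).len l)
      (176 * (n * (pL n + 1))) (fun l hl => w3_len hn T (by rw [mem_range] at hl; omega))
    rwa [card_range, smul_eq_mul] at this
  have h1 : pL n + 1 ≤ 2 * pL n := by omega
  have h5 : pL n + 5 ≤ 4 * pL n := by omega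
  have hlen2 : (pL n + 1) * (176 * (n * (pL n + 1))) ≤ 704 * (n * pL n ^ 2 * lam ^ 2) := by
    calc (pL n + 1) * (176 * (n * (pL n + 1))) ≤ (2 * pL n) * (176 * (n * (2 * pL n))) :=
          Nat.mul_le_mul h1 (Nat.mul_le_mul_left _ (Nat.mul_le_mul_left _ h1))
      _ = 704 * (n * pL n ^ 2 * 1) := by ring
      _ ≤ 704 * (n * pL n ^ 2 * lam ^ 2) :=
          Nat.mul_le_mul_left _ (Nat.mul_le_mul_left _ (Nat.one_le_pow _ _ (by omega)))
  have hI2 : pI n ^ 2 ≤ 36 * lam ^ 2 := by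
    calc pI n ^ 2 ≤ (6 * lam) ^ 2 := Nat.pow_le_pow_left hI 2
      _ = 36 * lam ^ 2 := by ring
  have hC2 : 290 * (pI n ^ 2 * ((pL n + 1) * (pL n + 5)) * n) ≤
      83520 * (n * pL n ^ 2 * lam ^ 2) := by
    calc 290 * (pI n ^ 2 * ((pL n + 1) * (pL n + 5)) * n) ≤
          290 * (36 * lam ^ 2 * ((2 * pL n) * (4 * pL n)) * n) := by
          refine Nat.mul_le_mul_left _ (Nat.mul_le_mul_right _ ?_)
          exact Nat.mul_le_mul hI2 (Nat.mul_le_mul h1 h5)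
      _ = 83520 * (n * pL n ^ 2 * lam ^ 2) := by ring
  have hsum : ∑ l ∈ range (pL n + 1), (2 * (2 ^ l * (mkG T).len l) + 2 * pC n l) ≤
      168448 * (n * pL n ^ 2 * lam ^ 2) := by
    rw [sum_add_distrib, ← mul_sum, ← mul_sum]
    omega
  have hO : 3 * pI n + 20 ≤ 38 * lam := by omega
  rw [e1, ← mul_sum]
  calc (3 * pI n + 20) * (2 * (2 ^ 16 * pI n ^ 2) *
        ∑ l ∈ range (pL n + 1), (2 * (2 ^ l * (mkG T).len l) + 2 * pC n l))
      ≤ (38 * lam) * (2 * (2 ^ 16 * (36 * lam ^ 2)) * (168448 * (n * pL n ^ 2 * lam ^ 2))) := by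
        refine Nat.mul_le_mul hO (Nat.mul_le_mul (Nat.mul_le_mul_left _
          (Nat.mul_le_mul_left _ hI2)) hsum)
    _ = 2 * 38 * (65536 * 36) * 168448 * n * pL n ^ 2 * lam ^ 5 := by ring

end Pool.Agent.Q217
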