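import Pool.Agent.MP217Two.GGood
import Pool.Agent.MP217Two.ArithW
import Pool.Agent.MP217Area.RPmain

set_option autoImplicit false

/-!
# The upper bound for the work of consensus
-/

namespace Pool.Agent.Q217

open Finset MeasureTheory
open scoped ENNReal
open Pool.Agent.MP217Upper.Model (W)
open Pool.Agent.A217 (RP RAct)

theorem W_bound : ∃ C : ℕ, ∀ n : ℕ, 4 ≤ n →
    W n ≤ ((C * n * (Nat.log 2 n) ^ 2 * (Nat.log 2 (Nat.log 2 n)) ^ 5 : ℕ) : ℝ≥0∞) := by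
  obtain ⟨C, hC⟩ := mk_Wg
  refine ⟨4 * C, fun n hn => ?_⟩
  obtain ⟨T⟩ := exists_tks (n := n) (by omega)
  have hO : 0 < (mkG T).O := by
    change 0 < 3 * pI n + 20
    omega
  have h1 := rp_good (mk_good (n := n) (by omega) T) (mk_numb (n := n) hn T) hO
  have h2 := RP.W_le h1
  refine h2.trans ?_
  have h3 := hC n hn T
  have h4 : (2 : ℝ≥0∞) * (2 * ((mkG T).Wg : ℝ≥0∞)) =
      ((4 * (mkG T).Wg : ℕ) : ℝ≥0∞) := by
    push_cast
    rw [← mul_assoc]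
    norm_num
  rw [h4]
  have h5 : 4 * (mkG T).Wg ≤
      4 * C * n * (Nat.log 2 n) ^ 2 * (Nat.log 2 (Nat.log 2 n)) ^ 5 := by
    calc 4 * (mkG T).Wg
        ≤ 4 * (C * n * (Nat.log 2 n) ^ 2 * (Nat.log 2 (Nat.log 2 n)) ^ 5) :=
          Nat.mul_le_mul_left _ h3
      _ = _ := by ring
  exact_mod_cast h5

end Pool.Agent.Q217
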