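import Pool.Agent.MP217Two.Defs

set_option autoImplicit false

/-!
# Elementary facts about the lists
-/

namespace Pool.Agent.Q217

open Finset

attribute [local instance 10] Classical.propDecidable

variable {n : ℕ}

namespace Geo

variable (G : Geo n)

theorem N_sub_ext {l : ℕ} {p x : Fin n} (s : ℕ → ℕ) (h : x ∈ G.nest.N l p) :
    x ∈ G.extList p l s := by
  unfold extList
  split_ifs with hl
  · rw [mem_toList]; exact mem_univ _
  · rw [List.mem_append, List.mem_append, mem_toList]
    exact Or.inl (Or.inl h)

theorem ext_low {l : ℕ} (hl : l ≤ G.ν0) (p x : Fin n) (s : ℕ → ℕ) : x ∈ G.extList p l s := by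
  unfold extList
  rw [if_pos hl, mem_toList]
  exact mem_univ _

theorem length_extList {l : ℕ} (hl : l ≤ G.L) (p : Fin n) (s : ℕ → ℕ) :
    (G.extList p l s).length = G.len l := by
  unfold extList len
  split_ifs with h
  · simp
  · have h1 : (G.nest.N l p).card ≤ G.Q / 2 ^ l := by
      rw [Nat.le_div_iff_mul_le (by positivity), mul_comm]
      exact G.nest.deg l p hl
    simp only [List.length_append, length_toList, List.length_replicate, List.length_map,
      List.length_range]
    omega

theorem lst_length_pos (p : Fin n) (i : ℕ) (s : ℕ → ℕ) : 0 < (G.lst p i s).length := by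
  unfold lst
  split_ifs with h
  · apply List.length_pos_of_mem
    exact G.N_sub_ext s (G.nest.self _ p)
  · apply List.length_pos_of_mem
    rw [mem_toList]
    exact G.TL_self _ _ p

theorem length_lst (p : Fin n) (i : ℕ) (s s' : ℕ → ℕ) :
    (G.lst p i s).length = (G.lst p i s').length := by
  unfold lst
  split_ifs with h
  · have hl : G.lvl i ≤ G.L := Nat.sub_le _ _
    rw [G.length_extList hl, G.length_extList hl]
  · rfl

end Geo

end Pool.Agent.Q217
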