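import Pool.Agent.MP217Two.RPid
import Pool.Agent.MP217Area.Num

set_option autoImplicit false

/-!
# The tables given by the coins
-/

namespace Pool.Agent.Q217

open Finset MeasureTheory
open scoped ENNReal
open Pool.Agent.MP217Upper.Model (coins)
open Pool.Agent.A217 (num)

attribute [local instance 10] Classical.propDecidable

variable {n : ℕ}

/-- Seeds. -/
def sdc (G : Geo n) (c : ℕ → Bool) (o l j : ℕ) : ℕ :=
  if o ≤ G.O ∧ l ≤ G.L ∧ j < G.ns l then
    (num c (Nat.pair 0 (Nat.pair (Nat.pair o l) j)) (G.L + 3)).val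
  else 0

/-- Flags. -/
def flc (G : Geo n) (c : ℕ → Bool) (l : ℕ) : Bool :=
  decide (l ≤ G.L) && decide ((num c (Nat.pair 1 l) (l - G.g)).val = 0)

/-- Ranks. -/
def rkc (k ρ : ℕ) (c : ℕ → Bool) : List ℕ :=
  (List.range (k + 1)).map fun j => (num c (Nat.pair 2 j) ρ).val

/-- The tables given by the coins. -/
def tab (G : Geo n) (k ρ : ℕ) (x : Fin n → Bool) (c : Fin n → ℕ → Bool) : Tab n where
  x := x
  fl p := flc G (c p)
  rk p := rkc k ρ (c p)
  sd p := sdc G (c p)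

private theorem num_congr {c c' : ℕ → Bool} {t m : ℕ}
    (h : ∀ j < m, c (Nat.pair t j) = c' (Nat.pair t j)) : num c t m = num c' t m := by
  unfold num
  congr 1
  funext j
  rw [h j.val j.isLt]

/-- The coordinates used by the seeds, by the flags, and by the ranks. -/
theorem sdc_congr (G : Geo n) {c c' : ℕ → Bool}
    (h : ∀ o ≤ G.O, ∀ l ≤ G.L, ∀ i < G.ns l, ∀ j < G.L + 3,
      c (Nat.pair (Nat.pair 0 (Nat.pair (Nat.pair o l) i)) j) =
        c' (Nat.pair (Nat.pair 0 (Nat.pair (Nat.pair o l) i)) j)) :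
    sdc G c = sdc G c' := by
  funext o l i
  unfold sdc
  by_cases hc : o ≤ G.O ∧ l ≤ G.L ∧ i < G.ns l
  · rw [if_pos hc, if_pos hc, num_congr (h o hc.1 l hc.2.1 i hc.2.2)]
  · rw [if_neg hc, if_neg hc]

theorem flc_congr (G : Geo n) {c c' : ℕ → Bool}
    (h : ∀ l ≤ G.L, ∀ j < l, c (Nat.pair (Nat.pair 1 l) j) = c' (Nat.pair (Nat.pair 1 l) j)) :
    flc G c = flc G c' := by
  funext l
  unfold flc
  by_cases hl : l ≤ G.L
  · rw [num_congr (fun j hj => h l hl j (by omega))]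
  · simp [hl]

theorem rkc_congr (k ρ : ℕ) {c c' : ℕ → Bool}
    (h : ∀ i ≤ k, ∀ j < ρ, c (Nat.pair (Nat.pair 2 i) j) = c' (Nat.pair (Nat.pair 2 i) j)) :
    rkc k ρ c = rkc k ρ c' := by
  unfold rkc
  refine List.map_congr_left fun i hi => ?_
  rw [List.mem_range] at hi
  rw [num_congr (h i (by omega))]

/-- Every team of the skeleton that completes object `0` at a level has a flagged member. -/
def GE2 (G : Geo n) (σ : ℕ → Option (Fin n)) (fl : Fin n → ℕ → Bool) : Prop :=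
  ∀ e p l X Y, 1 ≤ l → l ≤ G.L → (skel G).EndAt σ e p 0 (G.start l + G.tk) X Y →
    G.B l ≤ Y.card → ∃ a ∈ Y, fl a l = true

/-- The number of flagged processors, with multiplicity. -/
noncomputable def nfl (G : Geo n) (σ : ℕ → Option (Fin n)) (fl : Fin n → ℕ → Bool) : ℕ :=
  ∑ l ∈ range (G.L + 1),
    (univ.filter fun a => (skel G).Reach σ a 0 (G.start l) ∧ fl a l = true).card

private theorem lvl_start (G : Geo n) {l : ℕ} (hl : l ≤ G.L) : G.lvl (G.start l) = l := by
  unfold Geo.lvl Geo.start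
  rw [Nat.mul_div_cancel _ (Nat.succ_pos _)]
  omega

private theorem start_lvl_le (G : Geo n) {i : ℕ} (hi : i < (G.L + 1) * (G.tk + 1)) :
    G.start (G.lvl i) ≤ i := by
  unfold Geo.lvl Geo.start
  have h1 : i / (G.tk + 1) < G.L + 1 := Nat.div_lt_of_lt_mul (by rwa [mul_comm] at hi)
  have h2 : G.L - (G.L - i / (G.tk + 1)) = i / (G.tk + 1) :=
    Nat.sub_sub_self (Nat.lt_succ_iff.1 h1)
  rw [h2]
  exact Nat.div_mul_le_self _ _

private theorem start_lvl_tk (G : Geo n) {i : ℕ} (hi : i < (G.L + 1) * (G.tk + 1))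
    (ht : G.tick i = G.tk) : G.start (G.lvl i) + G.tk = i := by
  unfold Geo.lvl Geo.start
  unfold Geo.tick at ht
  have h1 : i / (G.tk + 1) < G.L + 1 := Nat.div_lt_of_lt_mul (by rwa [mul_comm] at hi)
  have h2 : G.L - (G.L - i / (G.tk + 1)) = i / (G.tk + 1) :=
    Nat.sub_sub_self (Nat.lt_succ_iff.1 h1)
  rw [h2]
  conv_rhs => rw [← Nat.div_add_mod i (G.tk + 1)]
  rw [ht, mul_comm]

/-- Somebody with a flag is known. -/
private theorem fset_nonempty {G : Geo n} (hG : G.Good) {σ : ℕ → Option (Fin n)} {A : Tab n}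
    (h0 : ∀ p, A.fl p 0 = true) (h1 : GE1 G σ A.sd) (h2 : GE2 G σ A.fl) {p : Fin n}
    (hp : p ∈ ent (noData G true A.sd) σ 1) :
    ∃ a, a ∈ fset (noData G true A.sd) σ A.fl p := by
  obtain ⟨t, ht⟩ := (mem_filter.1 hp).2
  obtain ⟨e, het, i, X, Y, hE, htk, hcert, hK, -⟩ := Sys.prev_obj ht
  have hi : i < (G.L + 1) * (G.tk + 1) := Sys.reach_i_lt ⟨e, hE.at⟩
  have hst : G.start (G.lvl i) + G.tk = i := start_lvl_tk G hi htk
  have hlL : G.lvl i ≤ G.L := Nat.sub_le _ _
  obtain ⟨a, haY, hfl⟩ : ∃ a ∈ Y, A.fl a (G.lvl i) = true := by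
    by_cases hl : G.lvl i = 0
    · exact ⟨p, hE.self_mem, by rw [hl]; exact h0 p⟩
    · obtain ⟨X', hX'⟩ := Sys.skel_end (S := noData G true A.sd) hG h1 hE
      have hB : G.B (G.lvl i) ≤ Y.card := by
        rcases hcert with hc | hc
        · exact absurd hc hl
        · exact hc.1
      refine h2 e p (G.lvl i) X' Y (by omega) hlL ?_ hB
      rw [hst]
      exact hX'
  have hdone := Sys.team_done hE haY
  have hdK : Fact.done a 0 ((noData G true A.sd).G.start ((noData G true A.sd).G.lvl i))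
      ((noData G true A.sd).lst a 0
        ((noData G true A.sd).G.start ((noData G true A.sd).G.lvl i))) ∈
      (((noData G true A.sd).run σ t).st p).K := by
    rw [hK]
    exact mem_insert_of_mem hdone
  obtain ⟨-, e', -, X', Y', hE', hsub⟩ := Sys.closed_K hdK
  have hlab := (Sys.run_inv (noData G true A.sd) σ e').lab a
  rw [hE'.ho, hE'.hi] at hlab
  have hlabK := hsub (hE'.K_le hlab)
  refine ⟨a, mem_filter.2 ⟨mem_univ _, t, G.start (G.lvl i), ht, hlabK, ?_⟩⟩
  change A.fl a (G.lvl (G.start (G.lvl i))) = true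
  rw [lvl_start G hlL]
  exact hfl

/-- The personas that survive the lottery. -/
theorem card_pid1 {G : Geo n} (hG : G.Good) {σ : ℕ → Option (Fin n)} {A : Tab n}
    (h0 : ∀ p, A.fl p 0 = true) (h1 : GE1 G σ A.sd) (h2 : GE2 G σ A.fl) :
    ((ent (noData G true A.sd) σ 1).image (pid1 (noData G true A.sd) σ A.fl)).card ≤
      nfl G σ A.fl := by
  unfold nfl
  refine le_trans (card_le_card ?_) card_biUnion_le
  intro b hb
  obtain ⟨p, hp, rfl⟩ := mem_image.1 hb
  have hmem : pid1 (noData G true A.sd) σ A.fl p ∈ fset (noData G true A.sd) σ A.fl p :=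
    (best_spec (key := fun y : Fin n => 0 * n + y.val) (d := p) (fset_nonempty hG h0 h1 h2 hp)).1
  generalize pid1 (noData G true A.sd) σ A.fl p = b at hmem
  obtain ⟨t, i, -, hlab, hfl⟩ := (mem_filter.1 hmem).2
  obtain ⟨t', -, hat, -, -⟩ := Sys.genuine_K hlab
  have hi : i < (G.L + 1) * (G.tk + 1) := Sys.reach_i_lt ⟨t', hat⟩
  have hlL : G.lvl i ≤ G.L := Nat.sub_le _ _
  obtain ⟨t'', ht''⟩ := Sys.reach_down (S := noData G true A.sd) ⟨t', hat⟩ (start_lvl_le G hi)
  have hsk := Sys.skel_st (S := noData G true A.sd) hG h1 t'' b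
  rw [mem_biUnion]
  refine ⟨G.lvl i, mem_range.2 (by omega), mem_filter.2 ⟨mem_univ _, ⟨t'', ?_, ?_⟩, hfl⟩⟩
  · exact hsk.1.symm.trans ht''.1
  · exact hsk.2.1.symm.trans ht''.2

end Pool.Agent.Q217
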