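import Pool.Agent.MP217Area.Nest
import Pool.Agent.MP217Peel.Defs

set_option autoImplicit false

/-!
# The protocol of one round: definitions
-/

namespace Pool.Agent.Q217

open Finset
open Pool.Agent.A217 (Nest)
open Pool.Agent.P217 (typ Lvl)

attribute [local instance 10] Classical.propDecidable

/-- Pieces of information: `done a o i T` says that processor `a` finished pass `i` of object `o`,
in which it communicated with the processors of the list `T`; `lab a o i d` says that processor
`a` started this pass with data `d`. -/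
inductive Fact (n : ℕ) (D : Type) : Type
  | done (a : Fin n) (o i : ℕ) (T : List (Fin n))
  | lab (a : Fin n) (o i : ℕ) (d : D)

/-- Static parameters. `TL l i p` is the set of targets of the ticks of type `i` of level `l`. -/
structure Geo (n : ℕ) where
  L : ℕ
  I : ℕ
  ν0 : ℕ
  g : ℕ
  Q : ℕ
  O : ℕ
  Nc : ℕ
  Ct : ℕ → ℕ
  nest : Nest n L ν0 Q
  TL : ℕ → ℕ → Fin n → Finset (Fin n)
  TL_self : ∀ l i p, p ∈ TL l i p
  TL_symm : ∀ l i p q, q ∈ TL l i p → p ∈ TL l i q
  TL_anti : ∀ l i j p, i ≤ j → TL l j p ⊆ TL l i p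

namespace Geo

variable {n : ℕ} (G : Geo n)

/-- Number of ticks of a level. -/
def tk : ℕ := 2 ^ G.I

/-- The size of a team at level `l`. -/
def B (_ : Geo n) (l : ℕ) : ℕ := 2 ^ (l + 5)

/-- Certificates require fewer than `cap ν` uncovered vertices at scale `ν` (no condition for
`0 < ν ≤ ν0`). -/
def cap (ν : ℕ) : ℕ := if ν = 0 then 1 else if ν ≤ G.ν0 then n + 1 else 2 ^ (ν + 5)

/-- The level of pass `i`. -/
def lvl (i : ℕ) : ℕ := G.L - i / (G.tk + 1)

/-- The tick number of pass `i` (`0` for the ext passes). -/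
def tick (i : ℕ) : ℕ := i % (G.tk + 1)

/-- The ext pass of level `l`. -/
def start (l : ℕ) : ℕ := (G.L - l) * (G.tk + 1)

/-- The channel of pass `i`. -/
def chan (i : ℕ) : ℕ := if G.tick i = 0 then 0 else G.lvl i + 1

/-- Number of picks at a scale above `ν0`, for level `l`. -/
def kap (l : ℕ) : ℕ := 2 ^ (G.L - l + 5)

/-- Number of picks at scale `0`, for level `l`. -/
def kap0 (l : ℕ) : ℕ := 2 ^ (G.L - l + G.g + 3)

/-- Number of picks of level `l`. -/
def ns (l : ℕ) : ℕ := G.kap0 l + (l - G.ν0 - 1) * G.kap l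

/-- The scale of the `j`-th pick of level `l`. -/
def sc (l j : ℕ) : ℕ := if j < G.kap0 l then 0 else G.ν0 + 1 + (j - G.kap0 l) / G.kap l

/-- The pick at scale `ν` with seed `s`. -/
noncomputable def pick (p : Fin n) (ν s : ℕ) : Fin n :=
  ((G.nest.N ν p).toList).getD (s % 2 ^ (G.L + 3 + G.ν0 - max ν G.ν0)) p

/-- The length of the lists of ext passes. -/
def len (l : ℕ) : ℕ := if l ≤ G.ν0 then n else G.Q / 2 ^ l + G.ns l

/-- The list of the ext pass of level `l` for the seeds `s`. -/
noncomputable def extList (p : Fin n) (l : ℕ) (s : ℕ → ℕ) : List (Fin n) :=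
  if l ≤ G.ν0 then (univ : Finset (Fin n)).toList
  else (G.nest.N l p).toList ++ List.replicate (G.Q / 2 ^ l - (G.nest.N l p).card) p ++
    (List.range (G.ns l)).map fun j => G.pick p (G.sc l j) (s j)

/-- The list of pass `i`, when the seeds of the level are `s`. -/
noncomputable def lst (p : Fin n) (i : ℕ) (s : ℕ → ℕ) : List (Fin n) :=
  if G.tick i = 0 then G.extList p (G.lvl i) s
  else (G.TL (G.lvl i) (typ G.I (G.tick i)) p).toList

/-- The seeds `sd a o l` of the processors in `M` cover level `l` of object `o`. -/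
def Cov (sd : Fin n → ℕ → ℕ → ℕ → ℕ) (o l : ℕ) (M : Finset (Fin n)) : Prop :=
  ∀ ν ≤ l, (univ.filter fun x => ¬ ∃ a ∈ M, x ∈ G.extList a l (sd a o l) ∧
    x ∈ G.nest.N ν a).card < G.cap ν

/-- The conditions on the static parameters. -/
structure Good : Prop where
  hn : n < 2 ^ (G.L + 1)
  hn' : 2 ^ G.L ≤ n
  hν0 : 16 * (G.L + 1) ≤ 2 ^ G.ν0
  hQ : G.Q = 4 * n * 2 ^ G.ν0
  hg : G.L + 1 ≤ 2 ^ G.g
  cost : ∀ l ≤ G.L, ∀ p,
    2 ^ l * ∑ t ∈ Icc 1 (2 ^ G.I), (G.TL l (typ G.I t) p).card ≤ G.Ct l
  few : ∀ l ≤ G.L, ∀ X : Lvl (Fin n), X.I = G.I → X.TL = G.TL l →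
    (∀ p ∈ X.S, (X.M p (2 ^ G.I)).card < 2 ^ (l + 5)) → X.S.card ≤ G.Nc * 2 ^ l
  hNc : 1 ≤ G.Nc
  full : ∀ ν ≤ G.ν0, ν ≤ G.L → ∀ x, G.nest.N ν x = univ

end Geo

/-- A protocol: the static parameters, whether certificates check the coverage, the seeds, and
the rules for the data. -/
structure Sys (n : ℕ) (D : Type) where
  G : Geo n
  b : Bool
  sd : Fin n → ℕ → ℕ → ℕ → ℕ
  d0 : Fin n → D
  nxt : Fin n → ℕ → ℕ → Bool → Finset (Fact n D) → D → D

/-- Local state of a processor. -/
structure LSt (n : ℕ) (D : Type) where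
  o : ℕ
  i : ℕ
  d : D
  K : Finset (Fact n D)
  M : Finset (Fin n)
  T : List (Fin n)
  pos : ℕ
  accK : Finset (Fact n D)
  accM : Finset (Fin n)

/-- Global state. -/
structure Cfg (n : ℕ) (D : Type) where
  st : Fin n → LSt n D
  mem : Fin n → Fin n → ℕ → ℕ → Finset (Fin n) × Finset (Fact n D)

variable {n : ℕ} {D : Type}

/-- The partner of the current step. -/
def partner (p : Fin n) (s : LSt n D) : Fin n :=
  if s.pos < s.T.length then s.T.getD s.pos p else s.T.getD (s.pos - s.T.length) p

/-- The knowledge at the end of a pass, when the last message read is `m`. -/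
noncomputable def outK (p : Fin n) (s : LSt n D) (m : Finset (Fact n D)) : Finset (Fact n D) :=
  insert (Fact.done p s.o s.i s.T) (s.K ∪ (s.accK ∪ m))

/-- The state after a write step. -/
def wr (s : LSt n D) : LSt n D := { s with pos := s.pos + 1 }

namespace Sys

variable (S : Sys n D)

/-- The list of pass `i` of object `o`. -/
noncomputable def lst (p : Fin n) (o i : ℕ) : List (Fin n) :=
  S.G.lst p i (S.sd p o (S.G.lvl i))

/-- The vertices not covered in the `ν`-th graph by the team `M`. -/
noncomputable def unc (ν o l : ℕ) (M : Finset (Fin n)) (K : Finset (Fact n D)) :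
    Finset (Fin n) :=
  univ.filter fun x => ¬ ∃ a ∈ M, ∃ T, Fact.done a o (S.G.start l) T ∈ K ∧ x ∈ T ∧
    x ∈ S.G.nest.N ν a

/-- A certificate at level `l`. -/
def cert (o l : ℕ) (M : Finset (Fin n)) (K : Finset (Fact n D)) : Prop :=
  l = 0 ∨ (S.G.B l ≤ M.card ∧ (S.b = true → ∀ ν ≤ l, (S.unc ν o l M K).card < S.G.cap ν))

/-- The state at the beginning of a pass. -/
noncomputable def beg (p : Fin n) (o i : ℕ) (d : D) (K : Finset (Fact n D))
    (M : Finset (Fin n)) : LSt n D where
  o := o
  i := i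
  d := d
  K := insert (Fact.lab p o i d) K
  M := M
  T := S.lst p o i
  pos := 0
  accK := ∅
  accM := ∅

/-- The team at the end of a pass. -/
noncomputable def outM (p : Fin n) (s : LSt n D) (m : Finset (Fin n)) : Finset (Fin n) :=
  if S.G.tick s.i = 0 then {p} else s.M ∪ (s.accM ∪ m)

/-- The state after the end of a pass, the knowledge being `X` and the team `Y`. -/
noncomputable def fin (p : Fin n) (s : LSt n D) (X : Finset (Fact n D)) (Y : Finset (Fin n)) :
    LSt n D :=
  if S.G.tick s.i = S.G.tk then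
    if S.cert s.o (S.G.lvl s.i) Y X then
      S.beg p (s.o + 1) 0 (S.nxt p s.o s.i true X s.d) X ∅
    else S.beg p s.o (s.i + 1) (S.nxt p s.o s.i false X s.d) X ∅
  else S.beg p s.o (s.i + 1) (S.nxt p s.o s.i false X s.d) X Y

/-- The state after a read step with message `m`. -/
noncomputable def rd (p : Fin n) (s : LSt n D) (m : Finset (Fin n) × Finset (Fact n D)) :
    LSt n D :=
  if s.pos + 1 < 2 * s.T.length then
    { s with pos := s.pos + 1, accK := s.accK ∪ m.2, accM := s.accM ∪ m.1 }
  else S.fin p s (outK p s m.2) (S.outM p s m.1)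

/-- One step of processor `p`. -/
noncomputable def step (p : Fin n) (C : Cfg n D) : Cfg n D :=
  if S.G.O ≤ (C.st p).o then C
  else if (C.st p).pos < (C.st p).T.length then
    ⟨Function.update C.st p (wr (C.st p)),
      fun w x o ch => if w = p ∧ x = partner p (C.st p) ∧ o = (C.st p).o ∧
        ch = S.G.chan (C.st p).i then ((C.st p).M, (C.st p).K) else C.mem w x o ch⟩
  else ⟨Function.update C.st p (S.rd p (C.st p)
    (C.mem (partner p (C.st p)) p (C.st p).o (S.G.chan (C.st p).i))), C.mem⟩

/-- The initial configuration. -/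
noncomputable def init : Cfg n D :=
  ⟨fun p => S.beg p 0 0 (S.d0 p) ∅ ∅, fun _ _ _ _ => (∅, ∅)⟩

/-- The run under the schedule `σ`. -/
noncomputable def run (σ : ℕ → Option (Fin n)) : ℕ → Cfg n D
  | 0 => S.init
  | t + 1 => match σ t with
    | none => run σ t
    | some p => S.step p (run σ t)

variable (σ : ℕ → Option (Fin n))

/-- Processor `a` finishes pass `i` of object `o` with the step at time `e`, with knowledge `X`
and team `Y`. -/
structure EndAt (e : ℕ) (a : Fin n) (o i : ℕ) (X : Finset (Fact n D)) (Y : Finset (Fin n)) :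
    Prop where
  sched : σ e = some a
  act : o < S.G.O
  ho : ((S.run σ e).st a).o = o
  hi : ((S.run σ e).st a).i = i
  pos : ((S.run σ e).st a).pos + 1 = 2 * ((S.run σ e).st a).T.length
  hX : X = outK a ((S.run σ e).st a)
    ((S.run σ e).mem (partner a ((S.run σ e).st a)) a o (S.G.chan i)).2
  hY : Y = S.outM a ((S.run σ e).st a)
    ((S.run σ e).mem (partner a ((S.run σ e).st a)) a o (S.G.chan i)).1

/-- At time `t` processor `p` is in pass `i` of object `o`. -/
def At (t : ℕ) (p : Fin n) (o i : ℕ) : Prop :=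
  ((S.run σ t).st p).o = o ∧ ((S.run σ t).st p).i = i

/-- Processor `p` starts pass `i` of object `o` at some time. -/
def Reach (p : Fin n) (o i : ℕ) : Prop := ∃ t, S.At σ t p o i

/-- The number of steps of `p` before time `t` in a given pass. -/
noncomputable def cnt (t : ℕ) (p : Fin n) (o i : ℕ) : ℕ :=
  ((range t).filter fun t' => σ t' = some p ∧ S.At σ t' p o i).card

/-- The number of steps of `p` before time `t`. -/
noncomputable def steps (t : ℕ) (p : Fin n) : ℕ :=
  ((range t).filter fun t' => σ t' = some p ∧ ((S.run σ t').st p).o < S.G.O).card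

end Sys

end Pool.Agent.Q217
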