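import Pool.Agent.MP217Two.Rule

set_option autoImplicit false

/-!
# Countability and encoding of messages
-/

namespace Pool.Agent.Q217

open Finset

attribute [local instance 10] Classical.propDecidable

variable {n : ℕ}

instance : Countable (Dt n) := by
  apply Function.Injective.countable (f := fun d : Dt n => (d.pid, d.bit, d.rk, d.flag, d.dec))
  rintro ⟨a, b, c, d, e⟩ ⟨a', b', c', d', e'⟩ h
  simp only [Prod.mk.injEq] at h
  obtain ⟨rfl, rfl, rfl, rfl, rfl⟩ := h
  rfl

instance : Countable (Fact n (Dt n)) := by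
  apply Function.Injective.countable (f := fun x : Fact n (Dt n) =>
    (match x with
      | Fact.done a o i T => (Sum.inl (a, o, i, T) : (Fin n × ℕ × ℕ × List (Fin n)) ⊕
          (Fin n × ℕ × ℕ × Dt n))
      | Fact.lab a o i d => Sum.inr (a, o, i, d)))
  intro x y h
  cases x <;> cases y <;> simp_all

instance : Countable (LSt n (Dt n)) := by
  apply Function.Injective.countable (f := fun s : LSt n (Dt n) =>
    (s.o, s.i, s.d, s.K, s.M, s.T, s.pos, s.accK, s.accM))
  rintro ⟨o, i, d, K, M, T, pos, aK, aM⟩ ⟨o', i', d', K', M', T', pos', aK', aM'⟩ h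
  simp only [Prod.mk.injEq] at h
  obtain ⟨rfl, rfl, rfl, rfl, rfl, rfl, rfl, rfl, rfl⟩ := h
  rfl

/-- Messages. -/
abbrev Msg (n : ℕ) : Type := Finset (Fin n) × Finset (Fact n (Dt n))

theorem exists_enc (n : ℕ) : ∃ (enc : Msg n → ℕ) (dec : ℕ → Msg n),
    (∀ K, dec (enc K) = K) ∧ dec 0 = (∅, ∅) := by
  obtain ⟨f, hf⟩ := exists_injective_nat (Msg n)
  refine ⟨fun K => f K + 1, fun m => if h : ∃ K, f K + 1 = m then h.choose else (∅, ∅), ?_, ?_⟩
  · intro K
    have h : ∃ K', f K' + 1 = f K + 1 := ⟨K, rfl⟩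
    simp only
    rw [dif_pos h]
    have := h.choose_spec
    exact hf (by omega)
  · simp only
    rw [dif_neg]
    rintro ⟨K, h⟩
    omega

/-- The encoding of messages by natural numbers. -/
noncomputable def enc (K : Msg n) : ℕ := (exists_enc n).choose K

/-- The decoding of messages. -/
noncomputable def dcd (m : ℕ) : Msg n := (exists_enc n).choose_spec.choose m

theorem dcd_enc (K : Msg n) : dcd (enc K) = K :=
  (exists_enc n).choose_spec.choose_spec.1 K

theorem dcd_zero : (dcd 0 : Msg n) = (∅, ∅) := (exists_enc n).choose_spec.choose_spec.2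

end Pool.Agent.Q217
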