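import Pool.Agent.MP217Two.InstA
import Pool.Agent.MP217Area.RP

set_option autoImplicit false

/-!
# The round protocol
-/

namespace Pool.Agent.Q217

open Finset MeasureTheory
open scoped ENNReal
open Pool.Agent.MP217Upper.Model (coins)
open Pool.Agent.A217 (RP RAct)

attribute [local instance 10] Classical.propDecidable

variable {n : ℕ}

/-- The round protocol. -/
noncomputable def rp (G : Geo n) (k ρ : ℕ) (hO : 0 < G.O) : RP n where
  S := LSt n (Dt n)
  cnt := inferInstance
  init p b c := (own G k ρ b c).beg p 0 0 ((own G k ρ b c).d0 p) ∅ ∅
  next p s :=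
    if G.O ≤ s.o then .fin s.d.bit s.d.dec
    else if s.pos < s.T.length then
      .write (partner p s) (Nat.pair s.o (G.chan s.i)) (enc (s.M, s.K))
    else .read (partner p s) (Nat.pair s.o (G.chan s.i))
  upd p c s r := match r with
    | none => wr s
    | some v => (own G k ρ true c).rd p s (dcd v)
  init_meas p b s := own_init_meas G k ρ p b s
  upd_meas p s r s' := own_upd_meas G k ρ p s r s'
  init_fin p b c v d := by
    have h : ¬ G.O ≤ ((own G k ρ b c).beg p 0 0 ((own G k ρ b c).d0 p) ∅ ∅).o := by
      change ¬ G.O ≤ 0
      omega
    simp only [if_neg h]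
    split_ifs <;> simp

private theorem rp_sim {G : Geo n} {k ρ : ℕ} (hO : 0 < G.O) (x : Fin n → Bool)
    (c : Fin n → ℕ → Bool) (σ : ℕ → Option (Fin n)) (t : ℕ) :
    (∀ p, ((rp G k ρ hO).run x c σ t).st p = (((tab G k ρ x c).sys G k).run σ t).st p) ∧
    (∀ w y o ch, (dcd (((rp G k ρ hO).run x c σ t).mem w y (Nat.pair o ch)) : Msg n) =
      (((tab G k ρ x c).sys G k).run σ t).mem w y o ch) := by
  induction t with
  | zero => exact ⟨fun _ => rfl, fun _ _ _ _ => dcd_zero⟩
  | succ t ih =>
    have hR : (rp G k ρ hO).run x c σ (t + 1) = (match σ t with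
      | none => (rp G k ρ hO).run x c σ t
      | some p => (rp G k ρ hO).step c p ((rp G k ρ hO).run x c σ t)) := rfl
    have hS : ((tab G k ρ x c).sys G k).run σ (t + 1) = (match σ t with
      | none => ((tab G k ρ x c).sys G k).run σ t
      | some p => ((tab G k ρ x c).sys G k).step p (((tab G k ρ x c).sys G k).run σ t)) := rfl
    rw [hR, hS]
    rcases σ t with _ | p
    · exact ih
    · generalize (rp G k ρ hO).run x c σ t = R at ih ⊢
      generalize ((tab G k ρ x c).sys G k).run σ t = C at ih ⊢
      obtain ⟨ih1, ih2⟩ := ih
      change (∀ q, ((rp G k ρ hO).step c p R).st q =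
        (((tab G k ρ x c).sys G k).step p C).st q) ∧
        (∀ w y o ch, (dcd (((rp G k ρ hO).step c p R).mem w y (Nat.pair o ch)) : Msg n) =
        (((tab G k ρ x c).sys G k).step p C).mem w y o ch)
      have hnext : (rp G k ρ hO).next p (R.st p) = (if G.O ≤ (C.st p).o then
          RAct.fin (C.st p).d.bit (C.st p).d.dec
        else if (C.st p).pos < (C.st p).T.length then
          .write (partner p (C.st p)) (Nat.pair (C.st p).o (G.chan (C.st p).i))
            (enc ((C.st p).M, (C.st p).K))
        else .read (partner p (C.st p)) (Nat.pair (C.st p).o (G.chan (C.st p).i))) := by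
        rw [ih1 p]
        rfl
      by_cases h1 : G.O ≤ (C.st p).o
      · have e1 : (rp G k ρ hO).step c p R = R := by
          unfold RP.step
          rw [hnext, if_pos h1]
        have e2 : ((tab G k ρ x c).sys G k).step p C = C := by
          unfold Sys.step
          exact if_pos h1
        rw [e1, e2]
        exact ⟨ih1, ih2⟩
      · by_cases h2 : (C.st p).pos < (C.st p).T.length
        · have e1 : (rp G k ρ hO).step c p R = ⟨Function.update R.st p (wr (C.st p)),
              Function.update R.mem p (Function.update (R.mem p) (partner p (C.st p))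
                (Function.update (R.mem p (partner p (C.st p)))
                  (Nat.pair (C.st p).o (G.chan (C.st p).i)) (enc ((C.st p).M, (C.st p).K))))⟩ := by
            unfold RP.step
            rw [hnext, if_neg h1, if_pos h2]
            rw [← ih1 p]
            rfl
          have e2 : ((tab G k ρ x c).sys G k).step p C = ⟨Function.update C.st p (wr (C.st p)),
              fun w x o ch => if w = p ∧ x = partner p (C.st p) ∧ o = (C.st p).o ∧
                ch = G.chan (C.st p).i then ((C.st p).M, (C.st p).K) else C.mem w x o ch⟩ := by
            unfold Sys.step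
            rw [if_neg (show ¬ ((tab G k ρ x c).sys G k).G.O ≤ (C.st p).o from h1), if_pos h2]
            rfl
          rw [e1, e2]
          refine ⟨?_, ?_⟩
          · intro q
            by_cases hq : q = p
            · subst hq
              simp only [Function.update_self]
            · simp only [Function.update_of_ne hq]
              exact ih1 q
          · intro w y o ch
            by_cases hw : w = p
            · subst hw
              simp only [Function.update_self]
              by_cases hy : y = partner w (C.st w)
              · rw [hy]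
                simp only [Function.update_self, true_and]
                by_cases ho : o = (C.st w).o ∧ ch = G.chan (C.st w).i
                · rw [if_pos ho, ho.1, ho.2, Function.update_self]
                  exact dcd_enc _
                · rw [if_neg ho, Function.update_of_ne]
                  · exact ih2 _ _ _ _
                  · intro h
                    exact ho (Nat.pair_eq_pair.1 h)
              · rw [Function.update_of_ne hy, if_neg (fun h => hy h.2.1)]
                exact ih2 _ _ _ _
            · simp only [Function.update_of_ne hw]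
              rw [if_neg (fun h => hw h.1)]
              exact ih2 _ _ _ _
        · have e1 : (rp G k ρ hO).step c p R = ⟨Function.update R.st p
              ((own G k ρ true (c p)).rd p (C.st p)
                (dcd (R.mem (partner p (C.st p)) p
                  (Nat.pair (C.st p).o (G.chan (C.st p).i))))), R.mem⟩ := by
            unfold RP.step
            rw [hnext, if_neg h1, if_neg h2]
            rw [← ih1 p]
            rfl
          have e2 : ((tab G k ρ x c).sys G k).step p C = ⟨Function.update C.st p
              (((tab G k ρ x c).sys G k).rd p (C.st p)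
                (C.mem (partner p (C.st p)) p (C.st p).o (G.chan (C.st p).i))), C.mem⟩ := by
            unfold Sys.step
            rw [if_neg (show ¬ ((tab G k ρ x c).sys G k).G.O ≤ (C.st p).o from h1), if_neg h2]
            rfl
          rw [e1, e2]
          refine ⟨?_, ih2⟩
          intro q
          by_cases hq : q = p
          · subst hq
            simp only [Function.update_self]
            rw [ih2]
            rfl
          · simp only [Function.update_of_ne hq]
            exact ih1 q

/-- The round protocol runs the protocol given by the tables. -/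
theorem rp_st {G : Geo n} {k ρ : ℕ} (hO : 0 < G.O) (x : Fin n → Bool) (c : Fin n → ℕ → Bool)
    (σ : ℕ → Option (Fin n)) (t : ℕ) (p : Fin n) :
    ((rp G k ρ hO).run x c σ t).st p = (((tab G k ρ x c).sys G k).run σ t).st p :=
  (rp_sim hO x c σ t).1 p

private theorem rp_next_iff {G : Geo n} {k ρ : ℕ} (hO : 0 < G.O) (p : Fin n)
    (s : LSt n (Dt n)) (v d : Bool) : (rp G k ρ hO).next p s = .fin v d ↔
      G.O ≤ s.o ∧ (s.d.bit = v ∧ s.d.dec = d) := by
  change (if G.O ≤ s.o then RAct.fin s.d.bit s.d.dec
    else if s.pos < s.T.length then
      .write (partner p s) (Nat.pair s.o (G.chan s.i)) (enc (s.M, s.K))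
    else .read (partner p s) (Nat.pair s.o (G.chan s.i))) = RAct.fin v d ↔ _
  by_cases h : G.O ≤ s.o
  · simp [h]
  · rw [if_neg h]
    constructor
    · intro h'
      split_ifs at h'
    · intro h'
      exact absurd h'.1 h

theorem rp_steps {G : Geo n} {k ρ : ℕ} (hO : 0 < G.O) (x : Fin n → Bool)
    (c : Fin n → ℕ → Bool) (σ : ℕ → Option (Fin n)) (t : ℕ) (p : Fin n) :
    (rp G k ρ hO).steps x c σ t p = ((tab G k ρ x c).sys G k).steps σ t p := by
  unfold RP.steps Sys.steps
  congr 1
  ext t'
  simp only [mem_filter, mem_range]
  have h : (∀ v d, (rp G k ρ hO).next p (((rp G k ρ hO).run x c σ t').st p) ≠ .fin v d) ↔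
      ((((tab G k ρ x c).sys G k).run σ t').st p).o < ((tab G k ρ x c).sys G k).G.O := by
    change _ ↔ ((((tab G k ρ x c).sys G k).run σ t').st p).o < G.O
    rw [rp_st]
    constructor
    · intro h
      by_contra h'
      exact h _ _ ((rp_next_iff hO p _ _ _).2 ⟨not_lt.1 h', rfl, rfl⟩)
    · intro h v d h'
      have := ((rp_next_iff hO p _ _ _).1 h').1
      omega
  rw [h]

theorem rp_next {G : Geo n} {k ρ : ℕ} (hO : 0 < G.O) (x : Fin n → Bool)
    (c : Fin n → ℕ → Bool) (σ : ℕ → Option (Fin n)) (t : ℕ) (p : Fin n) (v d : Bool) :
    (rp G k ρ hO).next p (((rp G k ρ hO).run x c σ t).st p) = .fin v d ↔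
      ((tab G k ρ x c).sys G k).At σ t p G.O 0 ∧
      (((((tab G k ρ x c).sys G k).run σ t).st p).d.bit = v ∧
        ((((tab G k ρ x c).sys G k).run σ t).st p).d.dec = d) := by
  rw [rp_next_iff, rp_st]
  apply and_congr_left
  intro _
  constructor
  · intro h
    have h1 : ((((tab G k ρ x c).sys G k).run σ t).st p).o ≤ G.O :=
      Sys.run_o_le ((tab G k ρ x c).sys G k) σ hO t p
    have h2 : ((((tab G k ρ x c).sys G k).run σ t).st p).o < G.O ∨
        (((((tab G k ρ x c).sys G k).run σ t).st p).i = 0 ∧
          ((((tab G k ρ x c).sys G k).run σ t).st p).pos = 0) :=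
      (Sys.run_inv ((tab G k ρ x c).sys G k) σ t).oi p
    refine ⟨le_antisymm h1 h, ?_⟩
    rcases h2 with h2 | h2
    · omega
    · exact h2.1
  · intro h
    exact h.1.ge

end Pool.Agent.Q217
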