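import Pool.Agent.MP217Two.PLen

set_option autoImplicit false

/-!
# Numerical conditions
-/

namespace Pool.Agent.Q217

open Finset

variable {n : ℕ}

/-- The sum of the costs of the levels. -/
def Geo.sc1 (G : Geo n) : ℕ := ∑ l ∈ range (G.L + 1), G.cst l

/-- The bound for the work of a good round. -/
def Geo.Wg (G : Geo n) : ℕ :=
  G.O * ∑ l ∈ range (G.L + 1), 2 * G.Nc * G.cst l

/-- The numerical conditions on the parameters. -/
structure Numb (G : Geo n) (k ρ : ℕ) : Prop where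
  hO : G.O = k + 3
  hk : 16 * (G.Nc * 2 ^ G.g * (G.L + 1)) ≤ 2 ^ k
  hρ : 16 * n ^ 2 ≤ 2 ^ ρ
  h1 : 8 * (n * G.O * (G.L + 1)) ≤ 2 ^ (16 * (G.L + 1))
  h2 : 8 * (n * (G.L + 1)) ≤ 2 ^ (16 * (G.L + 1))
  hW : n * G.O * (G.L + 1) * (n * (G.O * G.sc1)) ≤ 2 ^ (16 * (G.L + 1)) * G.Wg

end Pool.Agent.Q217
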