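import Pool.Agent.MP217Two.Lists

set_option autoImplicit false

/-!
# Lengths of the lists of a level
-/

namespace Pool.Agent.Q217

open Finset
open Pool.Agent.P217 (typ)

attribute [local instance 10] Classical.propDecidable

variable {n : ℕ}

namespace Geo

variable {G : Geo n}

/-- A bound for `2 ^ l` times the number of steps of one processor at level `l` of an object. -/
def cst (G : Geo n) (l : ℕ) : ℕ := 2 * (2 ^ l * G.len l) + 2 * G.Ct l

private theorem pl_lvl {G : Geo n} {l j : ℕ} (hl : l ≤ G.L) (hj : j ≤ G.tk) :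
    G.lvl (G.start l + j) = l := by
  unfold Geo.lvl Geo.start
  have h1 : ((G.L - l) * (G.tk + 1) + j) / (G.tk + 1) = G.L - l := by
    rw [mul_comm, Nat.mul_add_div (by omega), Nat.div_eq_of_lt (by omega), add_zero]
  rw [h1]
  omega

private theorem pl_tick {G : Geo n} {l j : ℕ} (hj : j ≤ G.tk) :
    G.tick (G.start l + j) = j := by
  unfold Geo.tick Geo.start
  rw [mul_comm, Nat.mul_add_mod, Nat.mod_eq_of_lt (by omega)]

/-- The lists of a level. -/
theorem sum_length (hG : G.Good) (p : Fin n) {l : ℕ} (hl : l ≤ G.L) (s : ℕ → ℕ) :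
    2 ^ l * ∑ t ∈ range (G.tk + 1), 2 * (G.lst p (G.start l + t) s).length ≤ G.cst l := by
  rw [sum_range_succ', mul_add]
  have h0 : (G.lst p (G.start l + 0) s).length = G.len l := by
    unfold lst
    rw [if_pos (pl_tick (Nat.zero_le _)), pl_lvl hl (Nat.zero_le _)]
    exact G.length_extList hl p s
  rw [h0]
  have h1 : ∑ t ∈ range G.tk, 2 * (G.lst p (G.start l + (t + 1)) s).length =
      2 * ∑ t ∈ Icc 1 (2 ^ G.I), (G.TL l (typ G.I t) p).card := by
    rw [← mul_sum]
    congr 1
    have h2 : ∑ t ∈ Icc 1 (2 ^ G.I), (G.TL l (typ G.I t) p).card =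
        ∑ t ∈ Ico 1 (G.tk + 1), (G.TL l (typ G.I t) p).card := by
      apply sum_congr
      · ext t
        simp only [mem_Icc, mem_Ico, tk]
        omega
      · intros; rfl
    rw [h2, sum_Ico_eq_sum_range]
    apply sum_congr
    · simp
    · intro t ht
      rw [mem_range] at ht
      unfold lst
      have ht' : 1 + t ≤ G.tk := by omega
      rw [show t + 1 = 1 + t by omega, pl_tick ht', if_neg (by omega), pl_lvl hl ht',
        length_toList]
  rw [h1]
  have h3 := hG.cost l hl p
  unfold cst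
  have h4 : 2 ^ l * (2 * ∑ t ∈ Icc 1 (2 ^ G.I), (G.TL l (typ G.I t) p).card) =
      2 * (2 ^ l * ∑ t ∈ Icc 1 (2 ^ G.I), (G.TL l (typ G.I t) p).card) := by ring
  have h5 : 2 ^ l * (2 * G.len l) = 2 * (2 ^ l * G.len l) := by ring
  rw [h4, h5]
  omega

end Geo

end Pool.Agent.Q217
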