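import Pool.Agent.MP217Two.PFew
import Pool.Agent.MP217Two.PLen

set_option autoImplicit false

/-!
# Counting steps
-/

namespace Pool.Agent.Q217

open Finset

attribute [local instance 10] Classical.propDecidable

variable {n : ℕ} {D : Type}

namespace Sys

variable {S : Sys n D} {σ : ℕ → Option (Fin n)}

private theorem pw_lvl {G : Geo n} {l j : ℕ} (hl : l ≤ G.L) (hj : j ≤ G.tk) :
    G.lvl (G.start l + j) = l := by
  unfold Geo.lvl Geo.start
  have h1 : ((G.L - l) * (G.tk + 1) + j) / (G.tk + 1) = G.L - l := by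
    rw [mul_comm, Nat.mul_add_div (by omega), Nat.div_eq_of_lt (by omega), add_zero]
  rw [h1]
  omega

private theorem pw_tick {G : Geo n} {l j : ℕ} (hj : j ≤ G.tk) :
    G.tick (G.start l + j) = j := by
  unfold Geo.tick Geo.start
  rw [mul_comm, Nat.mul_add_mod, Nat.mod_eq_of_lt (by omega)]

private theorem pw_start {G : Geo n} {l : ℕ} (hl : l < G.L) :
    G.start l = G.start (l + 1) + G.tk + 1 := by
  unfold Geo.start
  obtain ⟨m, hm⟩ : ∃ m, G.L - l = m + 1 := ⟨G.L - l - 1, by omega⟩
  have h2 : G.L - (l + 1) = m := by omega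
  rw [hm, h2]
  ring

private theorem pw_fin_pos (p : Fin n) (s : LSt n D) (X : Finset (Fact n D))
    (Y : Finset (Fin n)) : (S.fin p s X Y).pos = 0 := by
  unfold fin
  split_ifs <;> rfl

private theorem pw_cnt_aux {o : ℕ} (ho : o < S.G.O) (t : ℕ) (p : Fin n) (i : ℕ) :
    (S.At σ t p o i → S.cnt σ t p o i = ((S.run σ t).st p).pos) ∧
    (∀ t0, S.At σ t0 p o i → S.cnt σ t p o i ≤ 2 * ((S.run σ t0).st p).T.length) := by
  induction t with
  | zero =>
    constructor
    · intro _; rfl
    · intro t0 _; simp [cnt]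
  | succ t ih =>
    obtain ⟨ih1, ih2⟩ := ih
    by_cases hB : σ t = some p ∧ S.At σ t p o i
    · have hc : S.cnt σ (t + 1) p o i = S.cnt σ t p o i + 1 := by
        unfold cnt
        rw [range_add_one, filter_insert, if_pos hB, card_insert_of_notMem (by simp)]
      have h1 := ih1 hB.2
      have hpos := (run_inv S σ t).pos p
      constructor
      · intro hA
        rcases step_cases S σ t p with h | h | h | ⟨X, Y, h⟩
        · rcases h.2 with h' | h'
          · exact absurd hB.1 h'
          · rw [hB.2.1] at h'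
            omega
        · rw [hc, h1, h.2.2.2]; rfl
        · rw [hc, h1, h.2.2.2.2]
        · have := h.lex (Nat.lt_succ_self t)
          simp only [Nat.succ_eq_add_one] at this
          rw [hA.1, hA.2, hB.2.1, hB.2.2] at this
          unfold LexLe at this
          omega
      · intro t0 h0
        rw [(at_unique hB.2 h0).2.2.2, hc]
        omega
    · have hc : S.cnt σ (t + 1) p o i = S.cnt σ t p o i := by
        unfold cnt
        rw [range_add_one, filter_insert, if_neg hB]
      rw [hc]
      refine ⟨?_, ih2⟩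
      intro hA
      rcases step_cases S σ t p with h | h | h | ⟨X, Y, h⟩
      · have : S.At σ t p o i := by
          unfold At at hA ⊢
          rw [h.1] at hA
          exact hA
        rw [ih1 this, h.1]
      · exfalso
        apply hB
        refine ⟨h.1, ?_⟩
        unfold At at hA ⊢
        rw [h.2.2.2] at hA
        exact hA
      · exfalso
        apply hB
        refine ⟨h.1, ?_⟩
        unfold At at hA ⊢
        rw [h.2.2.2.2] at hA
        exact hA
      · have hnot : ¬ S.At σ t p o i := fun h' => hB ⟨h.sched, h'⟩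
        rw [h.next, pw_fin_pos]
        unfold cnt
        rw [card_eq_zero, filter_eq_empty_iff]
        intro t' ht' h'
        rw [mem_range] at ht'
        have h1 := lex_mono (S := S) (σ := σ) ht'.le p
        have h2 := lex_mono (S := S) (σ := σ) (Nat.le_succ t) p
        rw [h'.2.1, h'.2.2] at h1
        simp only [Nat.succ_eq_add_one] at h2
        rw [hA.1, hA.2] at h2
        apply hnot
        unfold LexLe at h1 h2
        unfold At
        omega

private theorem pw_cnt_zero (t : ℕ) {p : Fin n} {o i : ℕ} (h : ¬ S.Reach σ p o i) :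
    S.cnt σ t p o i = 0 := by
  unfold cnt
  rw [card_eq_zero, filter_eq_empty_iff]
  intro t' _ h'
  exact h ⟨t', h'.2⟩

/-- The steps of one level. -/
private theorem pw_level {o l : ℕ} (ho : o < S.G.O) (hl : l ≤ S.G.L) (t : ℕ) (p : Fin n) :
    ∑ j ∈ range (S.G.tk + 1), S.cnt σ t p o (S.G.start l + j) ≤
      if S.Reach σ p o (S.G.start l) then
        ∑ j ∈ range (S.G.tk + 1), 2 * (S.G.lst p (S.G.start l + j) (S.sd p o l)).length
      else 0 := by
  split_ifs with hr
  · apply sum_le_sum
    intro j hj
    rw [mem_range] at hj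
    by_cases h : S.Reach σ p o (S.G.start l + j)
    · obtain ⟨t0, h0⟩ := h
      have h1 := (pw_cnt_aux ho t p (S.G.start l + j)).2 t0 h0
      have h2 := (run_inv S σ t0).tgt p
      rw [h0.1, h0.2] at h2
      rw [h2] at h1
      unfold Sys.lst at h1
      rw [pw_lvl hl (by omega)] at h1
      exact h1
    · rw [pw_cnt_zero t h]
      exact Nat.zero_le _
  · have : ∀ j ∈ range (S.G.tk + 1), S.cnt σ t p o (S.G.start l + j) = 0 := by
      intro j _
      exact pw_cnt_zero t fun h => hr (reach_down h (Nat.le_add_right _ _))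
    rw [sum_eq_zero this]

private theorem pw_block (f : ℕ → ℕ) (m k : ℕ) :
    ∑ i ∈ range (m * k), f i = ∑ j ∈ range m, ∑ t ∈ range k, f (j * k + t) := by
  induction m with
  | zero => simp
  | succ m ih => rw [Nat.succ_mul, sum_range_add, ih, sum_range_succ]

private theorem pw_block' (G : Geo n) (f : ℕ → ℕ) :
    ∑ i ∈ range ((G.L + 1) * (G.tk + 1)), f i =
      ∑ l ∈ range (G.L + 1), ∑ t ∈ range (G.tk + 1), f (G.start l + t) := by
  rw [pw_block, ← sum_range_reflect]
  rfl

private theorem pw_steps (t : ℕ) (p : Fin n) :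
    S.steps σ t p = ∑ o ∈ range S.G.O, ∑ l ∈ range (S.G.L + 1),
      ∑ j ∈ range (S.G.tk + 1), S.cnt σ t p o (S.G.start l + j) := by
  have h1 : S.steps σ t p = ∑ q ∈ range S.G.O ×ˢ range ((S.G.L + 1) * (S.G.tk + 1)),
      S.cnt σ t p q.1 q.2 := by
    unfold steps
    rw [card_eq_sum_card_fiberwise (f := fun t' => (((S.run σ t').st p).o,
      ((S.run σ t').st p).i)) (t := range S.G.O ×ˢ range ((S.G.L + 1) * (S.G.tk + 1)))]
    · apply sum_congr rfl
      intro q hq
      rw [mem_product, mem_range] at hq
      unfold cnt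
      congr 1
      rw [filter_filter]
      apply filter_congr
      intro t' _
      unfold At
      rw [Prod.ext_iff]
      constructor
      · rintro ⟨⟨h1, _⟩, h2⟩
        exact ⟨h1, h2⟩
      · rintro ⟨h1, h2⟩
        refine ⟨⟨h1, ?_⟩, h2⟩
        rw [h2.1]
        exact hq.1
    · intro t' ht'
      rw [coe_filter] at ht'
      have h3 : ((S.run σ t').st p).o < S.G.O := ht'.2.2
      rw [coe_product, coe_range, coe_range, Set.mem_prod]
      exact ⟨h3, (run_inv S σ t').ile p⟩
  rw [h1, sum_product]
  apply sum_congr rfl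
  intro o _
  exact pw_block' S.G fun i => S.cnt σ t p o i

theorem steps_le (hG : S.G.Good) (t : ℕ) (p : Fin n) :
    S.steps σ t p ≤ S.G.O * ∑ l ∈ range (S.G.L + 1), S.G.cst l := by
  rw [pw_steps]
  calc _ ≤ ∑ _o ∈ range S.G.O, ∑ l ∈ range (S.G.L + 1), S.G.cst l := by
        apply sum_le_sum
        intro o ho
        rw [mem_range] at ho
        apply sum_le_sum
        intro l hl
        rw [mem_range] at hl
        refine (pw_level ho (by omega) t p).trans ?_
        split_ifs
        · have h1 := Geo.sum_length hG p (l := l) (by omega) (S.sd p o l)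
          have h2 : 1 ≤ 2 ^ l := Nat.one_le_two_pow
          exact (Nat.le_mul_of_pos_left _ h2).trans h1
        · exact Nat.zero_le _
    _ = _ := by rw [sum_const, card_range, smul_eq_mul]

/-- There is no failure of coverage in the run. -/
def NoFail (S : Sys n D) (σ : ℕ → Option (Fin n)) : Prop :=
  ∀ e p o l X Y, 1 ≤ l → l ≤ S.G.L → S.EndAt σ e p o (S.G.start l + S.G.tk) X Y →
    S.G.B l ≤ Y.card → S.cert o l Y X

theorem card_reach (hG : S.G.Good) (hS : S.NoFail σ) (o : ℕ) {l : ℕ} (hl : l ≤ S.G.L) :
    (univ.filter fun p => S.Reach σ p o (S.G.start l)).card ≤ S.G.Nc * 2 ^ (l + 1) := by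
  rcases Nat.eq_or_lt_of_le hl with h | h
  · have h1 : (univ.filter fun p => S.Reach σ p o (S.G.start l)).card ≤ n :=
      (card_le_univ _).trans (by simp)
    have h2 := hG.hn
    have h3 := hG.hNc
    rw [h]
    calc _ ≤ 2 ^ (S.G.L + 1) := by
          rw [← h]
          rw [← h] at h2
          omega
      _ = 1 * 2 ^ (S.G.L + 1) := (one_mul _).symm
      _ ≤ _ := Nat.mul_le_mul_right _ h3
  · refine le_trans (card_le_card ?_) (few (σ := σ) hG o (l := l + 1) h)
    intro p hp
    rw [mem_filter] at hp ⊢
    refine ⟨mem_univ _, ?_⟩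
    obtain ⟨t, ht⟩ := hp.2
    rw [pw_start h] at ht
    obtain ⟨e, -, X, Y, h1, h2, -⟩ := prev_pass ht
    refine ⟨e, X, Y, h1, ?_⟩
    have h3 := h2 (pw_tick le_rfl)
    rw [pw_lvl h le_rfl] at h3
    by_contra hcon
    exact h3 (hS e p o (l + 1) X Y (by omega) h h1 (by omega))

theorem work_good (hG : S.G.Good) (hS : S.NoFail σ) (t : ℕ) :
    ∑ p, S.steps σ t p ≤
      S.G.O * ∑ l ∈ range (S.G.L + 1), 2 * S.G.Nc * S.G.cst l := by
  have h0 : ∑ p, S.steps σ t p = ∑ o ∈ range S.G.O, ∑ l ∈ range (S.G.L + 1),
      ∑ p, ∑ j ∈ range (S.G.tk + 1), S.cnt σ t p o (S.G.start l + j) := by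
    calc _ = ∑ p, ∑ o ∈ range S.G.O, ∑ l ∈ range (S.G.L + 1),
        ∑ j ∈ range (S.G.tk + 1), S.cnt σ t p o (S.G.start l + j) :=
          sum_congr rfl fun p _ => pw_steps t p
      _ = ∑ o ∈ range S.G.O, ∑ p, ∑ l ∈ range (S.G.L + 1),
        ∑ j ∈ range (S.G.tk + 1), S.cnt σ t p o (S.G.start l + j) := sum_comm
      _ = _ := sum_congr rfl fun o _ => sum_comm
  rw [h0]
  calc _ ≤ ∑ _o ∈ range S.G.O, ∑ l ∈ range (S.G.L + 1), 2 * S.G.Nc * S.G.cst l := by
        apply sum_le_sum
        intro o ho
        rw [mem_range] at ho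
        apply sum_le_sum
        intro l hl
        rw [mem_range] at hl
        have h1 : 2 ^ l * ∑ p, ∑ j ∈ range (S.G.tk + 1), S.cnt σ t p o (S.G.start l + j) ≤
            (S.G.Nc * 2 ^ (l + 1)) * S.G.cst l := by
          rw [mul_sum]
          calc ∑ p, 2 ^ l * ∑ j ∈ range (S.G.tk + 1), S.cnt σ t p o (S.G.start l + j)
              ≤ ∑ p, (if S.Reach σ p o (S.G.start l) then S.G.cst l else 0) := by
                apply sum_le_sum
                intro p _
                have h2 := Nat.mul_le_mul_left (2 ^ l)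
                  (pw_level (σ := σ) ho (show l ≤ S.G.L by omega) t p)
                refine h2.trans ?_
                split_ifs
                · exact Geo.sum_length hG p (by omega) _
                · simp
            _ = (univ.filter fun p => S.Reach σ p o (S.G.start l)).card * S.G.cst l := by
                rw [← sum_filter, sum_const, smul_eq_mul]
            _ ≤ _ := Nat.mul_le_mul_right _ (card_reach hG hS o (by omega))
        have h3 : (S.G.Nc * 2 ^ (l + 1)) * S.G.cst l =
            2 ^ l * (2 * S.G.Nc * S.G.cst l) := by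
          rw [pow_succ]; ring
        rw [h3] at h1
        exact Nat.le_of_mul_le_mul_left h1 (by positivity)
    _ = _ := by rw [sum_const, card_range, smul_eq_mul]

end Sys

end Pool.Agent.Q217
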