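import Pool.Agent.MP217Two.Tabs
import Pool.Agent.MP217Area.NumLaw
import Pool.Agent.MP217Two.PWork

set_option autoImplicit false

/-!
# The probability of the second good event, and the expected number of flagged processors
-/

namespace Pool.Agent.Q217

open Finset MeasureTheory
open scoped ENNReal
open Pool.Agent.MP217Upper.Model (coins)
open Pool.Agent.A217 (num seed_miss flag_prob)

attribute [local instance 10] Classical.propDecidable

variable {n : ℕ}

private theorem pb_flc (G : Geo n) (c : ℕ → Bool) {l : ℕ} (hl : l ≤ G.L) :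
    flc G c l = true ↔ (num c (Nat.pair 1 l) (l - G.g)).val % 2 ^ (l - G.g) = 0 := by
  unfold flc
  rw [Nat.mod_eq_of_lt (num c (Nat.pair 1 l) (l - G.g)).isLt]
  simp [hl]

private theorem pb_meas (G : Geo n) (a : Fin n) {l : ℕ} (hl : l ≤ G.L) :
    MeasurableSet {c : Fin n → ℕ → Bool | flc G (c a) l = true} := by
  apply A217.meas_of_fin ((univ : Finset (Fin (l - G.g))).image fun j =>
    ((a, Nat.pair (Nat.pair 1 l) j.val) : Fin n × ℕ))
  intro c c' h
  have h1 : num (c a) (Nat.pair 1 l) (l - G.g) = num (c' a) (Nat.pair 1 l) (l - G.g) := by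
    unfold num
    congr 1
    funext j
    have h2 := h (a, Nat.pair (Nat.pair 1 l) j.val) (mem_image_of_mem _ (mem_univ j))
    simp only at h2
    rw [h2]
  simp only [Set.mem_ofPred_eq]
  rw [pb_flc G (c a) hl, pb_flc G (c' a) hl, h1]

theorem ge2_prob {G : Geo n} (hG : G.Good) (σ : ℕ → Option (Fin n)) :
    coins n {c | ¬ GE2 G σ (fun p => flc G (c p))} ≤
      (n * (G.L + 1) : ℕ) * (2⁻¹ : ℝ≥0∞) ^ (16 * (G.L + 1)) := by
  classical
  let T : Finset (Fin n × ℕ) := univ ×ˢ range (G.L + 1)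
  let Ev : Fin n × ℕ → Set (Fin n → ℕ → Bool) := fun q =>
    {c | ∃ e X Y, 1 ≤ q.2 ∧ (skel G).EndAt σ e q.1 0 (G.start q.2 + G.tk) X Y ∧
      G.B q.2 ≤ Y.card ∧ ∀ a ∈ Y, flc G (c a) q.2 ≠ true}
  have hsub : {c | ¬ GE2 G σ (fun p => flc G (c p))} ⊆ ⋃ q ∈ T, Ev q := by
    intro c hc
    simp only [Set.mem_ofPred_eq, GE2] at hc
    push Not at hc
    obtain ⟨e, p, l, X, Y, h1, h2, h3, h4, h5⟩ := hc
    refine Set.mem_biUnion (x := (p, l)) ?_ ?_
    · simp only [T, coe_product, coe_univ, Set.mem_prod, Set.mem_univ, true_and, coe_range,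
        Set.mem_Iio]
      omega
    · exact ⟨e, X, Y, h1, h3, h4, h5⟩
  have hev : ∀ q ∈ T, coins n (Ev q) ≤ (2⁻¹ : ℝ≥0∞) ^ (16 * (G.L + 1)) := by
    rintro ⟨p, l⟩ hq
    have hl : l ≤ G.L := by
      have := (mem_product.mp hq).2
      rw [mem_range] at this
      simp only at this
      omega
    by_cases hex : ∃ e X Y, 1 ≤ l ∧ (skel G).EndAt σ e p 0 (G.start l + G.tk) X Y ∧
        G.B l ≤ Y.card
    · obtain ⟨e, X, Y, h1, h2, h3⟩ := hex
      have h3' : 2 ^ (l + 5) ≤ Y.card := h3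
      by_cases hlg : G.g ≤ l
      · have hA : 6 * ((2 * G.L + 1) + 1) * 2 ^ (l - G.g) ≤ Y.card := by
          refine le_trans ?_ h3'
          have hg := hG.hg
          calc 6 * ((2 * G.L + 1) + 1) * 2 ^ (l - G.g) = 12 * ((G.L + 1) * 2 ^ (l - G.g)) := by
                ring
            _ ≤ 12 * (2 ^ G.g * 2 ^ (l - G.g)) :=
                Nat.mul_le_mul_left _ (Nat.mul_le_mul_right _ hg)
            _ = 12 * 2 ^ l := by
                rw [← pow_add]
                congr 2
                omega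
            _ ≤ 32 * 2 ^ l := Nat.mul_le_mul_right _ (by norm_num)
            _ = 2 ^ (l + 5) := by ring
        have hmiss := seed_miss (n := n) (Nat.pair 1 l) (l - G.g) (l - G.g) (2 * G.L + 1) le_rfl Y
          (fun _ => 0) (fun _ _ => by positivity) hA
        rw [show 8 * (2 * G.L + 1 + 1) = 16 * (G.L + 1) by ring] at hmiss
        refine le_trans (measure_mono ?_) hmiss
        rintro c ⟨e', X', Y', -, h2', -, h4⟩ a ha
        obtain ⟨-, -, rfl⟩ := h2.unique h2'
        have := h4 a ha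
        rw [Ne, pb_flc G (c a) hl] at this
        exact this
      · have hempty : Ev (p, l) = ∅ := by
          rw [Set.eq_empty_iff_forall_notMem]
          rintro c ⟨e', X', Y', -, -, h3'', h4⟩
          have hpos : 0 < Y'.card := by
            refine lt_of_lt_of_le ?_ h3''
            unfold Geo.B
            positivity
          obtain ⟨a, ha⟩ := card_pos.mp hpos
          refine h4 a ha ?_
          rw [pb_flc G (c a) hl, show l - G.g = 0 by omega]
          exact Nat.mod_one _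
        rw [hempty, measure_empty]
        exact zero_le
    · have : Ev (p, l) = ∅ := by
        rw [Set.eq_empty_iff_forall_notMem]
        rintro c ⟨e, X, Y, h1, h2, h3, -⟩
        exact hex ⟨e, X, Y, h1, h2, h3⟩
      rw [this, measure_empty]
      exact zero_le
  calc coins n {c | ¬ GE2 G σ (fun p => flc G (c p))} ≤ coins n (⋃ q ∈ T, Ev q) :=
        measure_mono hsub
    _ ≤ ∑ q ∈ T, coins n (Ev q) := measure_biUnion_finset_le _ _
    _ ≤ ∑ q ∈ T, (2⁻¹ : ℝ≥0∞) ^ (16 * (G.L + 1)) := sum_le_sum hev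
    _ = (n * (G.L + 1) : ℕ) * (2⁻¹ : ℝ≥0∞) ^ (16 * (G.L + 1)) := by
        rw [sum_const, nsmul_eq_mul]
        congr 2
        simp [T]

private theorem pb_nofail (G : Geo n) (σ : ℕ → Option (Fin n)) : (skel G).NoFail σ := by
  intro e p o l X Y h1 h2 h3 h4
  right
  refine ⟨h4, fun h => ?_⟩
  exact absurd h (by simp [skel, noData])

theorem nfl_exp {G : Geo n} (hG : G.Good) (σ : ℕ → Option (Fin n)) :
    ∫⁻ c, (nfl G σ (fun p => flc G (c p)) : ℝ≥0∞) ∂coins n ≤
      (2 * G.Nc * 2 ^ G.g * (G.L + 1) : ℕ) := by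
  classical
  have h1 : ∀ c : Fin n → ℕ → Bool, (nfl G σ (fun p => flc G (c p)) : ℝ≥0∞) =
      ∑ l ∈ range (G.L + 1), ∑ a ∈ univ.filter (fun a => (skel G).Reach σ a 0 (G.start l)),
        Set.indicator {c : Fin n → ℕ → Bool | flc G (c a) l = true} (fun _ => (1 : ℝ≥0∞)) c := by
    intro c
    unfold nfl
    rw [Nat.cast_sum]
    refine sum_congr rfl fun l _ => ?_
    rw [← filter_filter, card_filter, Nat.cast_sum]
    refine sum_congr rfl fun a _ => ?_
    by_cases h : flc G (c a) l = true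
    · simp [h]
    · simp [h]
  simp_rw [h1]
  rw [lintegral_finsetSum]
  swap
  · intro l hl
    rw [mem_range] at hl
    refine Finset.measurable_fun_sum _ fun a _ => ?_
    exact measurable_const.indicator (pb_meas G a (by omega))
  have h2 : ∀ l ∈ range (G.L + 1), ∫⁻ c, ∑ a ∈ univ.filter
      (fun a => (skel G).Reach σ a 0 (G.start l)),
        Set.indicator {c : Fin n → ℕ → Bool | flc G (c a) l = true} (fun _ => (1 : ℝ≥0∞)) c
          ∂coins n ≤ (2 * G.Nc * 2 ^ G.g : ℕ) := by
    intro l hl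
    rw [mem_range] at hl
    have hl' : l ≤ G.L := by omega
    rw [lintegral_finsetSum]
    swap
    · intro a _
      exact measurable_const.indicator (pb_meas G a hl')
    have h3 : ∀ a ∈ univ.filter (fun a => (skel G).Reach σ a 0 (G.start l)),
        ∫⁻ c, Set.indicator {c : Fin n → ℕ → Bool | flc G (c a) l = true}
          (fun _ => (1 : ℝ≥0∞)) c ∂coins n = (2⁻¹ : ℝ≥0∞) ^ (l - G.g) := by
      intro a _
      rw [lintegral_indicator_const (pb_meas G a hl'), one_mul]
      have := flag_prob (n := n) (Nat.pair 1 l) (l - G.g) (l - G.g) le_rfl a (r := 0)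
        (by positivity)
      rw [← this]
      congr 1
      ext c
      exact pb_flc G (c a) hl'
    rw [sum_congr rfl h3, sum_const, nsmul_eq_mul]
    have h4 := Sys.card_reach (S := skel G) (σ := σ) hG (pb_nofail G σ) 0 (l := l) hl'
    have h4' : (univ.filter (fun a => (skel G).Reach σ a 0 (G.start l))).card ≤
        2 * G.Nc * 2 ^ G.g * 2 ^ (l - G.g) := by
      refine le_trans h4 ?_
      change G.Nc * 2 ^ (l + 1) ≤ _
      have h7 : (2 : ℕ) ^ l ≤ 2 ^ G.g * 2 ^ (l - G.g) := by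
        rw [← pow_add]
        exact Nat.pow_le_pow_right (by norm_num) (by omega)
      calc G.Nc * 2 ^ (l + 1) = 2 * G.Nc * 2 ^ l := by ring
        _ ≤ 2 * G.Nc * (2 ^ G.g * 2 ^ (l - G.g)) := Nat.mul_le_mul_left _ h7
        _ = 2 * G.Nc * 2 ^ G.g * 2 ^ (l - G.g) := by ring
    have h5 : ((univ.filter (fun a => (skel G).Reach σ a 0 (G.start l))).card : ℝ≥0∞) ≤
        ((2 * G.Nc * 2 ^ G.g * 2 ^ (l - G.g) : ℕ) : ℝ≥0∞) := by
      exact_mod_cast h4'
    refine le_trans (mul_le_mul_left h5 _) ?_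
    rw [Nat.cast_mul _ (2 ^ (l - G.g)), mul_assoc]
    have h6 : ((2 ^ (l - G.g) : ℕ) : ℝ≥0∞) * (2⁻¹ : ℝ≥0∞) ^ (l - G.g) = 1 := by
      rw [Nat.cast_pow, ← mul_pow, Nat.cast_ofNat, ENNReal.mul_inv_cancel (by norm_num)
        (by norm_num), one_pow]
    rw [h6, mul_one]
  refine le_trans (sum_le_sum h2) ?_
  rw [sum_const, card_range, nsmul_eq_mul, ← Nat.cast_mul]
  exact le_of_eq (congrArg _ (by ring))

end Pool.Agent.Q217
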