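import Pool.Agent.MP217Two.ProbA
import Pool.Agent.MP217Two.ProbB
import Pool.Agent.MP217Two.Inst
import Pool.Agent.MP217Two.Numb

set_option autoImplicit false

/-!
# The expected work of a round
-/

namespace Pool.Agent.Q217

open Finset MeasureTheory
open scoped ENNReal
open Pool.Agent.MP217Upper.Model (coins)
open Pool.Agent.A217 (RP RAct)

attribute [local instance 10] Classical.propDecidable

variable {n : ℕ}

private theorem nofail_of_GE1 {G : Geo n} {k ρ : ℕ} (hG : G.Good)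
    {x : Fin n → Bool} {c : Fin n → ℕ → Bool} {σ : ℕ → Option (Fin n)}
    (h : GE1 G σ (tab G k ρ x c).sd) : ((tab G k ρ x c).sys G k).NoFail σ :=
  fun _ _ _ _ _ _ hl1 hl hE hY => Sys.cert_of_GE1 (S := (tab G k ρ x c).sys G k) hG h hl1 hl hE hY

theorem rp_work_good {G : Geo n} {k ρ : ℕ} (hG : G.Good) (hO : 0 < G.O)
    {x : Fin n → Bool} {c : Fin n → ℕ → Bool} {σ : ℕ → Option (Fin n)}
    (h : GE1 G σ (tab G k ρ x c).sd) : (rp G k ρ hO).work x c σ ≤ G.Wg := by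
  unfold RP.work
  refine iSup_le fun t => ?_
  have h1 : ∑ p, (rp G k ρ hO).steps x c σ t p = ∑ p, ((tab G k ρ x c).sys G k).steps σ t p :=
    sum_congr rfl fun p _ => rp_steps hO x c σ t p
  rw [h1]
  exact_mod_cast Sys.work_good (S := (tab G k ρ x c).sys G k) hG (nofail_of_GE1 hG h) t

theorem rp_work_max {G : Geo n} {k ρ : ℕ} (hG : G.Good) (hO : 0 < G.O)
    (x : Fin n → Bool) (c : Fin n → ℕ → Bool) (σ : ℕ → Option (Fin n)) :
    (rp G k ρ hO).work x c σ ≤ (n * (G.O * G.sc1) : ℕ) := by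
  unfold RP.work
  refine iSup_le fun t => ?_
  have h1 : ∑ p, (rp G k ρ hO).steps x c σ t p ≤ ∑ _p : Fin n, G.O * G.sc1 := by
    refine sum_le_sum fun p _ => ?_
    rw [rp_steps hO x c σ t p]
    exact Sys.steps_le (S := (tab G k ρ x c).sys G k) hG t p
  rw [sum_const, card_univ, Fintype.card_fin, smul_eq_mul] at h1
  exact_mod_cast h1

theorem rp_work {G : Geo n} {k ρ : ℕ} (hG : G.Good) (hN : Numb G k ρ) (hO : 0 < G.O)
    (x : Fin n → Bool) (σ : ℕ → Option (Fin n)) :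
    ∫⁻ c, (rp G k ρ hO).work x c σ ∂coins n ≤ 2 * (G.Wg : ℝ≥0∞) := by
  have : IsProbabilityMeasure (coins n) := by
    unfold coins
    infer_instance
  set M : ℝ≥0∞ := ((n * (G.O * G.sc1) : ℕ) : ℝ≥0∞) with hM
  set E : Set (Fin n → ℕ → Bool) := {c | ¬ GE1 G σ (fun p => sdc G (c p))} with hE
  have hle : ∀ c, (rp G k ρ hO).work x c σ ≤ (G.Wg : ℝ≥0∞) + E.indicator (fun _ => M) c := by
    intro c
    by_cases hc : GE1 G σ (fun p => sdc G (c p))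
    · exact (rp_work_good hG hO (x := x) (c := c) (k := k) (ρ := ρ) hc).trans le_self_add
    · have hcE : c ∈ E := hc
      rw [Set.indicator_of_mem hcE]
      exact (rp_work_max hG hO x c σ).trans le_add_self
  calc ∫⁻ c, (rp G k ρ hO).work x c σ ∂coins n
      ≤ ∫⁻ c, ((G.Wg : ℝ≥0∞) + E.indicator (fun _ => M) c) ∂coins n := lintegral_mono hle
    _ = (G.Wg : ℝ≥0∞) + ∫⁻ c, E.indicator (fun _ => M) c ∂coins n := by
        rw [lintegral_add_left measurable_const, lintegral_const, measure_univ, mul_one]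
    _ ≤ (G.Wg : ℝ≥0∞) + M * coins n E := add_le_add le_rfl (lintegral_indicator_const_le E M)
    _ ≤ (G.Wg : ℝ≥0∞) + G.Wg := add_le_add le_rfl ?_
    _ = 2 * (G.Wg : ℝ≥0∞) := (two_mul _).symm
  have h1 := ge1_prob hG σ
  set N : ℕ := n * G.O * (G.L + 1) with hNd
  have h2 : M * coins n E ≤ M * ((N : ℝ≥0∞) * (2⁻¹ : ℝ≥0∞) ^ (16 * (G.L + 1))) :=
    mul_le_mul_right h1 M
  refine h2.trans ?_
  have h3 : N * (n * (G.O * G.sc1)) ≤ 2 ^ (16 * (G.L + 1)) * G.Wg := hN.hW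
  have h4 : M * (N : ℝ≥0∞) ≤ (2 : ℝ≥0∞) ^ (16 * (G.L + 1)) * G.Wg := by
    rw [mul_comm]
    rw [hM]
    exact_mod_cast h3
  have h5 : (2 : ℝ≥0∞) ^ (16 * (G.L + 1)) * (2⁻¹ : ℝ≥0∞) ^ (16 * (G.L + 1)) = 1 := by
    rw [← mul_pow, ENNReal.mul_inv_cancel (by norm_num) (by norm_num), one_pow]
  calc M * ((N : ℝ≥0∞) * (2⁻¹ : ℝ≥0∞) ^ (16 * (G.L + 1)))
      = (M * (N : ℝ≥0∞)) * (2⁻¹ : ℝ≥0∞) ^ (16 * (G.L + 1)) := (mul_assoc _ _ _).symm
    _ ≤ ((2 : ℝ≥0∞) ^ (16 * (G.L + 1)) * G.Wg) * (2⁻¹ : ℝ≥0∞) ^ (16 * (G.L + 1)) := by gcongr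
    _ = ((2 : ℝ≥0∞) ^ (16 * (G.L + 1)) * (2⁻¹ : ℝ≥0∞) ^ (16 * (G.L + 1))) * G.Wg := by ring
    _ = G.Wg := by rw [h5, one_mul]

end Pool.Agent.Q217
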