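import Pool.Agent.MP217Two.GSucc
import Pool.Agent.MP217Two.GWork

set_option autoImplicit false

/-!
# The round protocol is good
-/

namespace Pool.Agent.Q217

open Finset MeasureTheory
open scoped ENNReal
open Pool.Agent.MP217Upper.Model (coins)
open Pool.Agent.A217 (RP RAct)

attribute [local instance 10] Classical.propDecidable

variable {n : ℕ}

theorem rp_good {G : Geo n} {k ρ : ℕ} (hG : G.Good) (hN : Numb G k ρ) (hO : 0 < G.O) :
    (rp G k ρ hO).Good (2 * (G.Wg : ℝ≥0∞)) := by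
  refine ⟨?_, ?_, ?_, ?_, ?_⟩
  · intro x c σ t t' p p' v v' d' h h'
    rw [rp_next] at h h'
    obtain ⟨h1, h2, h3⟩ := h
    obtain ⟨h1', h2', h3'⟩ := h'
    rw [hN.hO] at h1 h1'
    rw [← h2, ← h2']
    exact sys_agree hG hN.hO h1 h1' h3
  · intro x c σ v hx t p v' d' h
    rw [rp_next] at h
    obtain ⟨h1, h2, h3⟩ := h
    rw [hN.hO] at h1
    have h4 := sys_unan (A := tab G k ρ x c) hG hN.hO (v := v) (fun t p h => hx t p h) h1
    exact ⟨h2.symm.trans h4.1, h3.symm.trans h4.2⟩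
  · refine ⟨n * (G.O * G.sc1), fun x c σ t p => ?_⟩
    have h1 := rp_work_max (k := k) (ρ := ρ) hG hO x c σ
    have h2 : ((∑ q, (rp G k ρ hO).steps x c σ t q : ℕ) : ℝ≥0∞) ≤ (n * (G.O * G.sc1) : ℕ) :=
      (le_iSup (fun t => ((∑ q, (rp G k ρ hO).steps x c σ t q : ℕ) : ℝ≥0∞)) t).trans h1
    have h3 : ∑ q, (rp G k ρ hO).steps x c σ t q ≤ n * (G.O * G.sc1) := by exact_mod_cast h2
    exact (Finset.single_le_sum (f := fun q => (rp G k ρ hO).steps x c σ t q)
      (fun q _ => Nat.zero_le _) (Finset.mem_univ p)).trans h3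
  · intro x σ
    exact rp_succ hG hN hO x σ
  · intro x σ
    exact rp_work hG hN hO x σ

end Pool.Agent.Q217
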