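import Pool.Agent.MP217Two.Rule

set_option autoImplicit false

/-!
# Safety of a round
-/

namespace Pool.Agent.Q217

open Finset

attribute [local instance 10] Classical.propDecidable

variable {n : ℕ} {A : Tab n} {G : Geo n} {k : ℕ} {σ : ℕ → Option (Fin n)}

private theorem rc_f0 {p : Fin n} {i : ℕ} {K : Finset (Fact n (Dt n))} {d : Dt n} :
    (A.sys G k).nxt p 0 i false K d = { d with flag := A.fl p (G.lvl (i + 1)) } := by
  simp [Tab.sys]

private theorem rc_fne {p : Fin n} {o i : ℕ} {K : Finset (Fact n (Dt n))} {d : Dt n}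
    (h : o ≠ 0) : (A.sys G k).nxt p o i false K d = d := by
  simp [Tab.sys, h]

private theorem rc_t0 {p : Fin n} {i : ℕ} {K : Finset (Fact n (Dt n))} {d : Dt n} :
    (A.sys G k).nxt p 0 i true K d = adopt (best (flagd K) (fun d' => d'.pid.val) d) d := by
  simp [Tab.sys]

private theorem rc_tk {p : Fin n} {o i : ℕ} {K : Finset (Fact n (Dt n))} {d : Dt n}
    (h : o ≠ 0) (hk : o ≤ k) : (A.sys G k).nxt p o i true K d =
      adopt (best (labd o K) (fun d' => d'.rk.getD o 0 * n + d'.pid.val) d) d := by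
  simp only [Tab.sys, Bool.true_eq_false, if_false]
  rw [if_neg h, if_pos hk]

private theorem rc_k1 {p : Fin n} {i : ℕ} {K : Finset (Fact n (Dt n))} {d : Dt n} :
    (A.sys G k).nxt p (k + 1) i true K d =
      { d with flag := decide (∀ a d', Fact.lab a (k + 1) 0 d' ∈ K → d'.bit = d.bit) } := by
  simp only [Tab.sys, Bool.true_eq_false, if_false]
  rw [if_neg (by omega), if_neg (by omega), if_pos trivial]

private theorem rc_k2 {p : Fin n} {i : ℕ} {K : Finset (Fact n (Dt n))} {d : Dt n} :
    (A.sys G k).nxt p (k + 2) i true K d = { d with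
      bit := pick (strong (k + 2) K) d.bit
      dec := decide (∀ a d', Fact.lab a (k + 2) 0 d' ∈ K → d'.flag = true) } := by
  simp only [Tab.sys, Bool.true_eq_false, if_false]
  rw [if_neg (by omega), if_neg (by omega), if_neg (by omega)]

private theorem rc_pick {P : Bool → Prop} {x v : Bool} (h : ∀ w, P w → w = v)
    (hx : (∀ w, ¬ P w) → x = v) : pick P x = v := by
  unfold pick
  split_ifs with h1 h2
  · exact h true h1
  · exact h false h2
  · apply hx
    intro w
    cases w
    · exact h2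
    · exact h1

/-- The preference does not change within an object. -/
private theorem rc_const {t : ℕ} {p : Fin n} {o i : ℕ} (h : (A.sys G k).At σ t p o i) :
    ∃ t0 ≤ t, (A.sys G k).At σ t0 p o 0 ∧
      (((A.sys G k).run σ t).st p).d.bit = (((A.sys G k).run σ t0).st p).d.bit ∧
      (o ≠ 0 → (((A.sys G k).run σ t).st p).d = (((A.sys G k).run σ t0).st p).d) := by
  induction i generalizing t with
  | zero => exact ⟨t, le_rfl, h, rfl, fun _ => rfl⟩
  | succ i ih =>
    obtain ⟨e, he, X, Y, h1, h2, h3, h4, h5⟩ := Sys.prev_pass h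
    obtain ⟨t0, ht0, h6, h7, h8⟩ := ih h1.at
    refine ⟨t0, by omega, h6, ?_, ?_⟩
    · rw [h5, ← h7]
      by_cases ho : o = 0
      · subst ho
        rw [rc_f0]
      · rw [rc_fne ho]
    · intro ho
      rw [h5, ← h8 ho, rc_fne ho]

/-- Everybody who is scheduled and who is in object `o` has preference `v`. -/
private def RcAll (A : Tab n) (G : Geo n) (k : ℕ) (σ : ℕ → Option (Fin n)) (o : ℕ) (v : Bool) :
    Prop :=
  ∀ t p i, (A.sys G k).At σ t p o i → (∃ t'', σ t'' = some p) →
    (((A.sys G k).run σ t).st p).d.bit = v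

private theorem rc_all_zero {v : Bool} (hx : ∀ t p, σ t = some p → A.x p = v) :
    RcAll A G k σ 0 v := by
  rintro t p i h ⟨t'', ht''⟩
  obtain ⟨t0, _, h1, h2, _⟩ := rc_const h
  rw [h2, (Sys.at_zero h1).1]
  exact hx t'' p ht''

private theorem rc_all_step {v : Bool} {o : ℕ} (ho : o ≤ k) (h : RcAll A G k σ o v) :
    RcAll A G k σ (o + 1) v := by
  intro t p i hA _
  obtain ⟨t0, _, h1, h2, _⟩ := rc_const hA
  rw [h2]
  obtain ⟨e, he, i', X, Y, g1, g2, g3, g4, g5⟩ := Sys.prev_obj h1
  have hb := h e p i' g1.at ⟨e, g1.sched⟩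
  rw [g5]
  have gen : ∀ {a : Fin n} {i'' : ℕ} {d : Dt n}, Fact.lab a o i'' d ∈ X → d.bit = v := by
    intro a i'' d hl
    obtain ⟨t', _, hA', hd', t'', _, ht''⟩ := Sys.genuine_X g1 hl
    rw [← hd']
    exact h t' a i'' hA' ⟨t'', ht''⟩
  by_cases ho0 : o = 0
  · subst ho0
    rw [rc_t0]
    change (best (flagd X) (fun d' => d'.pid.val) _).bit = v
    by_cases hex : ∃ x, flagd X x
    · obtain ⟨⟨a, i'', hl⟩, _⟩ := (best_spec (key := fun d' => d'.pid.val)
        (d := (((A.sys G k).run σ e).st p).d) hex).1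
      exact gen hl
    · rw [best_none hex]
      exact hb
  · rw [rc_tk ho0 ho]
    change (best (labd o X) (fun d' => d'.rk.getD o 0 * n + d'.pid.val) _).bit = v
    by_cases hex : ∃ x, labd o X x
    · obtain ⟨a, hl⟩ := (best_spec (key := fun d' => d'.rk.getD o 0 * n + d'.pid.val)
        (d := (((A.sys G k).run σ e).st p).d) hex).1
      exact gen hl
    · rw [best_none hex]
      exact hb

private theorem rc_all {v : Bool} (hx : ∀ t p, σ t = some p → A.x p = v) {o : ℕ}
    (ho : o ≤ k + 1) : RcAll A G k σ o v := by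
  induction o with
  | zero => exact rc_all_zero hx
  | succ o ih => exact rc_all_step (by omega) (ih (by omega))

/-- The flags of object `k + 2`. -/
private theorem rc_flag {v : Bool}
    (hx : ∀ t p, (A.sys G k).At σ t p (k + 1) 0 → (((A.sys G k).run σ t).st p).d.bit = v)
    {t : ℕ} {p : Fin n} (h : (A.sys G k).At σ t p (k + 2) 0) :
    (((A.sys G k).run σ t).st p).d.bit = v ∧ (((A.sys G k).run σ t).st p).d.flag = true := by
  obtain ⟨e, he, i', X, Y, g1, g2, g3, g4, g5⟩ := Sys.prev_obj (o := k + 1) h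
  obtain ⟨t0, _, h1, h2, _⟩ := rc_const g1.at
  have hb := hx t0 p h1
  rw [← h2] at hb
  rw [g5, rc_k1]
  refine ⟨hb, ?_⟩
  change decide (∀ a d', Fact.lab a (k + 1) 0 d' ∈ X →
    d'.bit = (((A.sys G k).run σ e).st p).d.bit) = true
  rw [decide_eq_true_eq]
  intro a d' hl
  obtain ⟨t', _, hA', hd', _⟩ := Sys.genuine_X g1 hl
  rw [hb, ← hd']
  exact hx t' a hA'

/-- If all processors that enter object `k + 1` have the same preference then everybody decides. -/
private theorem rc_decide {v : Bool}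
    (hx : ∀ t p, (A.sys G k).At σ t p (k + 1) 0 → (((A.sys G k).run σ t).st p).d.bit = v)
    {t : ℕ} {p : Fin n} (h : (A.sys G k).At σ t p (k + 3) 0) :
    (((A.sys G k).run σ t).st p).d.bit = v ∧ (((A.sys G k).run σ t).st p).d.dec = true := by
  obtain ⟨e, he, i', X, Y, g1, g2, g3, g4, g5⟩ := Sys.prev_obj (o := k + 2) h
  obtain ⟨t0, _, h1, h2, _⟩ := rc_const g1.at
  have hb := (rc_flag hx h1).1
  rw [← h2] at hb
  rw [g5, rc_k2]
  constructor
  · change pick (strong (k + 2) X) (((A.sys G k).run σ e).st p).d.bit = v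
    apply rc_pick
    · rintro w ⟨a, d, hl, _, hd⟩
      obtain ⟨t', _, hA', hd', _⟩ := Sys.genuine_X g1 hl
      rw [← hd, ← hd']
      exact (rc_flag hx hA').1
    · intro _
      exact hb
  · change decide (∀ a d', Fact.lab a (k + 2) 0 d' ∈ X → d'.flag = true) = true
    rw [decide_eq_true_eq]
    intro a d' hl
    obtain ⟨t', _, hA', hd', _⟩ := Sys.genuine_X g1 hl
    rw [← hd']
    exact (rc_flag hx hA').2

/-- Unanimity. -/
theorem sys_unan (hG : G.Good) (hO : G.O = k + 3) {v : Bool}
    (hx : ∀ t p, σ t = some p → A.x p = v) {t : ℕ} {p : Fin n}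
    (h : (A.sys G k).At σ t p (k + 3) 0) :
    (((A.sys G k).run σ t).st p).d.bit = v ∧ (((A.sys G k).run σ t).st p).d.dec = true := by
  refine rc_decide (fun t' p' hA => ?_) h
  obtain ⟨e, he, i', X, Y, g1, _⟩ := Sys.prev_obj hA
  exact rc_all hx le_rfl t' p' 0 hA ⟨e, g1.sched⟩

/-- If all processors that enter object `k + 1` have the same preference then everybody decides. -/
theorem sys_decide (hG : G.Good) (hO : G.O = k + 3) {v : Bool}
    (hx : ∀ t p, (A.sys G k).At σ t p (k + 1) 0 → (((A.sys G k).run σ t).st p).d.bit = v)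
    {t : ℕ} {p : Fin n} (h : (A.sys G k).At σ t p (k + 3) 0) :
    (((A.sys G k).run σ t).st p).d.bit = v ∧ (((A.sys G k).run σ t).st p).d.dec = true :=
  rc_decide hx h

/-- Two strong labels have the same preference. -/
private theorem rc_uniq (hG : G.Good) {t t' : ℕ} {p p' : Fin n}
    (h : (A.sys G k).At σ t p (k + 2) 0) (h' : (A.sys G k).At σ t' p' (k + 2) 0)
    (hf : (((A.sys G k).run σ t).st p).d.flag = true)
    (hf' : (((A.sys G k).run σ t').st p').d.flag = true) :
    (((A.sys G k).run σ t).st p).d.bit = (((A.sys G k).run σ t').st p').d.bit := by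
  obtain ⟨a, d, ha, ha'⟩ := Sys.pair_view (S := A.sys G k) hG rfl (o := k + 1) h h'
  have key : ∀ {t : ℕ} {p : Fin n}, (A.sys G k).At σ t p (k + 2) 0 →
      (((A.sys G k).run σ t).st p).d.flag = true →
      Fact.lab a (k + 1) 0 d ∈ (((A.sys G k).run σ t).st p).K →
      d.bit = (((A.sys G k).run σ t).st p).d.bit := by
    intro t p h hf ha
    obtain ⟨e, he, i', X, Y, g1, g2, g3, g4, g5⟩ := Sys.prev_obj (o := k + 1) h
    rw [g4, mem_insert] at ha
    rcases ha with ha | ha
    · simp only [Fact.lab.injEq] at ha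
      omega
    · rw [g5, rc_k1] at hf ⊢
      change decide (∀ a d', Fact.lab a (k + 1) 0 d' ∈ X →
        d'.bit = (((A.sys G k).run σ e).st p).d.bit) = true at hf
      rw [decide_eq_true_eq] at hf
      exact hf a d ha
  rw [← key h hf ha, ← key h' hf' ha']

/-- Coherence. -/
theorem sys_agree (hG : G.Good) (hO : G.O = k + 3) {t t' : ℕ} {p p' : Fin n}
    (h : (A.sys G k).At σ t p (k + 3) 0) (h' : (A.sys G k).At σ t' p' (k + 3) 0)
    (hd : (((A.sys G k).run σ t).st p).d.dec = true) :
    (((A.sys G k).run σ t').st p').d.bit = (((A.sys G k).run σ t).st p).d.bit := by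
  obtain ⟨e, he, i', X, Y, g1, g2, g3, g4, g5⟩ := Sys.prev_obj (o := k + 2) h
  have hX : ∀ a d', Fact.lab a (k + 2) 0 d' ∈ X → d'.flag = true := by
    rw [g5, rc_k2] at hd
    change decide (∀ a d', Fact.lab a (k + 2) 0 d' ∈ X → d'.flag = true) = true at hd
    rwa [decide_eq_true_eq] at hd
  -- the label of `p` itself
  obtain ⟨t0, ht0, h1, h2, _⟩ := rc_const g1.at
  have hown := (Sys.run_inv (A.sys G k) σ t0).lab p
  rw [h1.1, h1.2] at hown
  have hownX := g1.K_le (Sys.run_K_mono (A.sys G k) σ ht0 p hown)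
  have hownf := hX p _ hownX
  have main : ∀ {t' : ℕ} {p' : Fin n}, (A.sys G k).At σ t' p' (k + 3) 0 →
      (((A.sys G k).run σ t').st p').d.bit = (((A.sys G k).run σ t0).st p).d.bit := by
    intro t' p' h'
    obtain ⟨e', he', i'', X', Y', f1, f2, f3, f4, f5⟩ := Sys.prev_obj (o := k + 2) h'
    have huniq : ∀ {a : Fin n} {d : Dt n}, Fact.lab a (k + 2) 0 d ∈ X' → d.flag = true →
        d.bit = (((A.sys G k).run σ t0).st p).d.bit := by
      intro a d hl hf
      obtain ⟨t1, _, hA1, hd1, _⟩ := Sys.genuine_X f1 hl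
      rw [← hd1]
      exact rc_uniq hG hA1 h1 (by rw [hd1]; exact hf) hownf
    obtain ⟨a, d, ha, ha'⟩ := Sys.pair_view (S := A.sys G k) hG rfl (o := k + 2) h h'
    rw [g4, mem_insert] at ha
    rw [f4, mem_insert] at ha'
    have ha1 : Fact.lab a (k + 2) 0 d ∈ X := by
      rcases ha with ha | ha
      · simp only [Fact.lab.injEq] at ha
        omega
      · exact ha
    have ha2 : Fact.lab a (k + 2) 0 d ∈ X' := by
      rcases ha' with ha' | ha'
      · simp only [Fact.lab.injEq] at ha'
        omega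
      · exact ha'
    rw [f5, rc_k2]
    change pick (strong (k + 2) X') (((A.sys G k).run σ e').st p').d.bit = _
    apply rc_pick
    · rintro w ⟨a', d', hl, hf, hd'⟩
      rw [← hd']
      exact huniq hl hf
    · intro hnone
      exact absurd ⟨a, d, ha2, hX a d ha1, rfl⟩ (hnone d.bit)
  rw [main h', main h]

end Pool.Agent.Q217
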