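import Pool.Agent.MP217Two.Succ
import Pool.Agent.MP217Two.Inst
import Pool.Agent.MP217Two.RCons
import Pool.Agent.MP217Two.Numb

set_option autoImplicit false

/-!
# A round is successful with probability at least `1/2`
-/

namespace Pool.Agent.Q217

open Finset MeasureTheory
open scoped ENNReal
open Pool.Agent.MP217Upper.Model (coins)
open Pool.Agent.A217 (RP RAct)

attribute [local instance 10] Classical.propDecidable

variable {n : ℕ}

/-- In a good round in which one persona survives everybody decides. -/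
theorem rp_Succ_of {G : Geo n} {k ρ : ℕ} (hG : G.Good) (hN : Numb G k ρ) (hO : 0 < G.O)
    {x : Fin n → Bool} {c : Fin n → ℕ → Bool} {σ : ℕ → Option (Fin n)}
    (h : npers G k σ (tab G k ρ x c) ≤ 1) : (rp G k ρ hO).Succ x c σ := by
  have key : ∃ v : Bool, ∀ t p, ((tab G k ρ x c).sys G k).At σ t p (k + 1) 0 →
      ((((tab G k ρ x c).sys G k).run σ t).st p).d.bit = v := by
    by_cases he : ∃ t p, ((tab G k ρ x c).sys G k).At σ t p (k + 1) 0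
    · obtain ⟨t₀, p₀, h₀⟩ := he
      refine ⟨((((tab G k ρ x c).sys G k).run σ t₀).st p₀).d.bit, fun t p hp => ?_⟩
      have mem : ∀ t p, ((tab G k ρ x c).sys G k).At σ t p (k + 1) 0 →
          ((((tab G k ρ x c).sys G k).run σ t).st p).d.pid ∈
            ((ent (noData G true (tab G k ρ x c).sd) σ (k + 1)).image
              (pidR (kn (noData G true (tab G k ρ x c).sd) σ)
                (pid1 (noData G true (tab G k ρ x c).sd) σ (tab G k ρ x c).fl)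
                (fun j a => ((tab G k ρ x c).rk a).getD j 0) k)) := by
        intro t p hp
        rw [Finset.mem_image]
        refine ⟨p, ?_, (pid_eq (le_refl k) hp).symm⟩
        unfold ent
        rw [Finset.mem_filter]
        refine ⟨Finset.mem_univ _, t, ?_⟩
        exact (Sys.erase_at ((tab G k ρ x c).sys G k) σ t p (k + 1) 0).1 hp
      have e : ((((tab G k ρ x c).sys G k).run σ t).st p).d.pid =
          ((((tab G k ρ x c).sys G k).run σ t₀).st p₀).d.pid :=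
        Finset.card_le_one.1 h _ (mem t p hp) _ (mem t₀ p₀ h₀)
      rw [(persona hp (by omega)).1, (persona h₀ (by omega)).1, e]
    · exact ⟨true, fun t p hp => (he ⟨t, p, hp⟩).elim⟩
  obtain ⟨v, hv⟩ := key
  refine ⟨v, fun t p v' d' hf => ?_⟩
  rw [rp_next] at hf
  obtain ⟨h1, h2, h3⟩ := hf
  rw [hN.hO] at h1
  obtain ⟨h4, h5⟩ := sys_decide hG hN.hO hv h1
  exact ⟨h2 ▸ h4, h3 ▸ h5⟩

theorem rp_succ {G : Geo n} {k ρ : ℕ} (hG : G.Good) (hN : Numb G k ρ) (hO : 0 < G.O)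
    (x : Fin n → Bool) (σ : ℕ → Option (Fin n)) :
    2⁻¹ ≤ coins n {c | (rp G k ρ hO).Succ x c σ} := by
  have e1 := ge1_prob hG σ
  have e2 := ge2_prob hG σ
  have e3 := sift_prob hG k ρ x σ
  have e4 : ∫⁻ c, (nfl G σ (tab G k ρ x c).fl : ℝ≥0∞) ∂coins n ≤
      (2 * G.Nc * 2 ^ G.g * (G.L + 1) : ℕ) := nfl_exp hG σ
  set P1 : ℝ≥0∞ := coins n {c | ¬ GE1 G σ (fun p => sdc G (c p))} with hP1
  set P2 : ℝ≥0∞ := coins n {c | ¬ GE2 G σ (fun p => flc G (c p))} with hP2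
  set P3 : ℝ≥0∞ := coins n {c | GE1 G σ (tab G k ρ x c).sd ∧ GE2 G σ (tab G k ρ x c).fl ∧
      2 ≤ npers G k σ (tab G k ρ x c)} with hP3
  have pw : ∀ m : ℕ, (2 : ℝ≥0∞) ^ m * (2⁻¹ : ℝ≥0∞) ^ m = 1 := by
    intro m
    rw [← mul_pow, ENNReal.mul_inv_cancel (by norm_num) (by norm_num), one_pow]
  have q1 : 8 * P1 ≤ 1 := by
    calc 8 * P1 ≤ 8 * ((n * G.O * (G.L + 1) : ℕ) *
          (2⁻¹ : ℝ≥0∞) ^ (16 * (G.L + 1))) := mul_le_mul_right e1 8
      _ = ((8 * (n * G.O * (G.L + 1)) : ℕ) : ℝ≥0∞) *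
          (2⁻¹ : ℝ≥0∞) ^ (16 * (G.L + 1)) := by
        push_cast; ring
      _ ≤ ((2 ^ (16 * (G.L + 1)) : ℕ) : ℝ≥0∞) * (2⁻¹ : ℝ≥0∞) ^ (16 * (G.L + 1)) := by
        gcongr
        exact hN.h1
      _ = 1 := by
        push_cast
        exact pw _
  have q2 : 8 * P2 ≤ 1 := by
    calc 8 * P2 ≤ 8 * ((n * (G.L + 1) : ℕ) *
          (2⁻¹ : ℝ≥0∞) ^ (16 * (G.L + 1))) := mul_le_mul_right e2 8
      _ = ((8 * (n * (G.L + 1)) : ℕ) : ℝ≥0∞) *
          (2⁻¹ : ℝ≥0∞) ^ (16 * (G.L + 1)) := by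
        push_cast; ring
      _ ≤ ((2 ^ (16 * (G.L + 1)) : ℕ) : ℝ≥0∞) * (2⁻¹ : ℝ≥0∞) ^ (16 * (G.L + 1)) := by
        gcongr
        exact hN.h2
      _ = 1 := by
        push_cast
        exact pw _
  have q3 : 32 * P3 ≤ 5 := by
    have hM0 : (2 : ℝ≥0∞) ^ k * 2 ^ ρ ≠ 0 := by positivity
    have hMt : (2 : ℝ≥0∞) ^ k * 2 ^ ρ ≠ ⊤ :=
      ENNReal.mul_ne_top (ENNReal.pow_ne_top (by norm_num)) (ENNReal.pow_ne_top (by norm_num))
    have a1 : ((16 * (G.Nc * 2 ^ G.g * (G.L + 1)) : ℕ) : ℝ≥0∞) ≤ ((2 ^ k : ℕ) : ℝ≥0∞) := by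
      exact_mod_cast hN.hk
    have a2 : ((16 * n ^ 2 : ℕ) : ℝ≥0∞) ≤ ((2 ^ ρ : ℕ) : ℝ≥0∞) := by
      exact_mod_cast hN.hρ
    have b1 : (2 : ℝ≥0∞) ^ k * 2 ^ ρ * (32 * P3) ≤ (2 : ℝ≥0∞) ^ k * 2 ^ ρ * 5 := by
      calc (2 : ℝ≥0∞) ^ k * 2 ^ ρ * (32 * P3) = 16 * (2 ^ (k + 1) * 2 ^ ρ * P3) := by
            rw [pow_succ]; ring
        _ ≤ 16 * (2 * 2 ^ ρ * ∫⁻ c, (nfl G σ (tab G k ρ x c).fl : ℝ≥0∞) ∂coins n +
              2 ^ k * n ^ 2) := mul_le_mul_right e3 16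
        _ ≤ 16 * (2 * 2 ^ ρ * (2 * G.Nc * 2 ^ G.g * (G.L + 1) : ℕ) + 2 ^ k * n ^ 2) := by
            gcongr
        _ = 4 * 2 ^ ρ * ((16 * (G.Nc * 2 ^ G.g * (G.L + 1)) : ℕ) : ℝ≥0∞) +
              2 ^ k * ((16 * n ^ 2 : ℕ) : ℝ≥0∞) := by
            push_cast; ring
        _ ≤ 4 * 2 ^ ρ * ((2 ^ k : ℕ) : ℝ≥0∞) + 2 ^ k * ((2 ^ ρ : ℕ) : ℝ≥0∞) := by
            gcongr
        _ = (2 : ℝ≥0∞) ^ k * 2 ^ ρ * 5 := by
            push_cast; ring
    exact (ENNReal.mul_le_mul_iff_right hM0 hMt).1 b1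
  have tot : P1 + P2 + P3 ≤ 2⁻¹ := by
    have h32 : 32 * (P1 + P2 + P3) ≤ 32 * 2⁻¹ := by
      calc 32 * (P1 + P2 + P3) = 4 * (8 * P1) + 4 * (8 * P2) + 32 * P3 := by ring
        _ ≤ 4 * 1 + 4 * 1 + 5 := by gcongr
        _ ≤ 16 := by norm_num
        _ = 32 * 2⁻¹ := by
          rw [show (32 : ℝ≥0∞) = 16 * 2 by norm_num, mul_assoc,
            ENNReal.mul_inv_cancel (by norm_num) (by norm_num), mul_one]
    exact (ENNReal.mul_le_mul_iff_right (by norm_num) (by norm_num)).1 h32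
  have cover : (Set.univ : Set (Fin n → ℕ → Bool)) ⊆
      {c | (rp G k ρ hO).Succ x c σ} ∪ (({c | ¬ GE1 G σ (fun p => sdc G (c p))} ∪
        {c | ¬ GE2 G σ (fun p => flc G (c p))}) ∪
        {c | GE1 G σ (tab G k ρ x c).sd ∧ GE2 G σ (tab G k ρ x c).fl ∧
          2 ≤ npers G k σ (tab G k ρ x c)}) := by
    intro c _
    by_cases h1 : GE1 G σ (fun p => sdc G (c p))
    · by_cases h2 : GE2 G σ (fun p => flc G (c p))
      · by_cases h3 : 2 ≤ npers G k σ (tab G k ρ x c)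
        · exact Or.inr (Or.inr ⟨h1, h2, h3⟩)
        · exact Or.inl (rp_Succ_of hG hN hO (by omega))
      · exact Or.inr (Or.inl (Or.inr h2))
    · exact Or.inr (Or.inl (Or.inl h1))
  have inst : IsProbabilityMeasure (coins n) := by
    unfold Pool.Agent.MP217Upper.Model.coins
    infer_instance
  have fin : (1 : ℝ≥0∞) ≤ coins n {c | (rp G k ρ hO).Succ x c σ} + 2⁻¹ := by
    calc (1 : ℝ≥0∞) = coins n Set.univ := measure_univ.symm
      _ ≤ _ := measure_mono cover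
      _ ≤ coins n {c | (rp G k ρ hO).Succ x c σ} + _ := measure_union_le _ _
      _ ≤ coins n {c | (rp G k ρ hO).Succ x c σ} + (P1 + P2 + P3) := by
        gcongr
        refine (measure_union_le _ _).trans ?_
        gcongr
        exact measure_union_le _ _
      _ ≤ _ := by gcongr
  have h2 : (2⁻¹ : ℝ≥0∞) + 2⁻¹ ≤ coins n {c | (rp G k ρ hO).Succ x c σ} + 2⁻¹ := by
    rw [ENNReal.inv_two_add_inv_two]
    exact fin
  exact (ENNReal.add_le_add_iff_right (by norm_num)).1 h2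

end Pool.Agent.Q217
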