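import Pool.Agent.MP217Two.Enc
import Pool.Agent.MP217Two.Tabs

set_option autoImplicit false

/-!
# The protocol of one processor: measurability
-/

namespace Pool.Agent.Q217

open Finset MeasureTheory
open scoped ENNReal
open Pool.Agent.MP217Upper.Model (coins)
open Pool.Agent.A217 (num)

attribute [local instance 10] Classical.propDecidable

variable {n : ℕ}

/-- The protocol as seen by a processor with preference `b` and coins `c`. -/
noncomputable def own (G : Geo n) (k ρ : ℕ) (b : Bool) (c : ℕ → Bool) : Sys n (Dt n) :=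
  (tab G k ρ (fun _ => b) (fun _ => c)).sys G k

section fib

variable {Ω X Y Z : Type} [MeasurableSpace Ω]

/-- All fibres are measurable. -/
private def Fib (f : Ω → X) : Prop := ∀ x, MeasurableSet {c | f c = x}

private theorem fib_const (x : X) : Fib (fun _ : Ω => x) := by
  intro y
  by_cases h : x = y
  · simp [h]
  · simp [h]

private theorem Fib.bind [Countable X] {f : Ω → X} (hf : Fib f) {F : X → Ω → Z}
    (hF : ∀ x, Fib (F x)) : Fib (fun c => F (f c) c) := by
  intro z
  have : {c | F (f c) c = z} = ⋃ x, ({c | f c = x} ∩ {c | F x c = z}) := by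
    ext c
    simp only [Set.mem_iUnion, Set.mem_inter_iff]
    constructor
    · intro h
      exact ⟨f c, rfl, h⟩
    · rintro ⟨x, h1, h2⟩
      change f c = x at h1
      subst h1
      exact h2
  rw [this]
  exact MeasurableSet.iUnion fun x => (hf x).inter (hF x z)

private theorem Fib.map [Countable X] {f : Ω → X} (hf : Fib f) (g : X → Z) :
    Fib (fun c => g (f c)) :=
  hf.bind (F := fun x _ => g x) fun x => fib_const (g x)

private theorem Fib.prod [Countable X] [Countable Y] {f : Ω → X} {g : Ω → Y} (hf : Fib f)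
    (hg : Fib g) : Fib (fun c => (f c, g c)) :=
  hf.bind (F := fun x c => (x, g c)) fun x => hg.map (fun y => (x, y))

private theorem Fib.pi {ι : Type} [Countable ι] {f : ι → Ω → X} (hf : ∀ i, Fib (f i)) :
    Fib (fun c i => f i c) := by
  intro x
  have : {c | (fun i => f i c) = x} = ⋂ i, {c | f i c = x i} := by
    ext c
    simp only [Set.mem_iInter]
    constructor
    · intro h i
      exact congrFun h i
    · intro h
      funext i
      exact h i
  rw [this]
  exact MeasurableSet.iInter fun i => hf i (x i)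

end fib

private theorem fib_coord (m : ℕ) : Fib (fun c : ℕ → Bool => c m) := by
  intro x
  have h : Measurable (fun c : ℕ → Bool => c m) := measurable_pi_apply m
  exact h (measurableSet_singleton x)

private theorem fib_num (t m : ℕ) : Fib (fun c : ℕ → Bool => num c t m) := by
  have h : Fib (fun (c : ℕ → Bool) (j : Fin m) => c (Nat.pair t j)) :=
    Fib.pi (f := fun (j : Fin m) (c : ℕ → Bool) => c (Nat.pair t j)) fun j => fib_coord _
  exact h.map (fun v : Fin m → Bool =>
    finFunctionFinEquiv fun j : Fin m => if v j then (1 : Fin 2) else 0)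

private theorem fib_sdc1 (G : Geo n) (o l j : ℕ) :
    Fib (fun c : ℕ → Bool => sdc G c o l j) := by
  unfold sdc
  by_cases h : o ≤ G.O ∧ l ≤ G.L ∧ j < G.ns l
  · simp only [if_pos h]
    exact (fib_num _ _).map (fun v => v.val)
  · simp only [if_neg h]
    exact fib_const _

/-- The seeds with the index in `Fin m`. -/
private def unw (m : ℕ) (w : Fin m → ℕ) (j : ℕ) : ℕ := if h : j < m then w ⟨j, h⟩ else 0

private theorem unw_sdc (G : Geo n) (o l : ℕ) (c : ℕ → Bool) :
    sdc G c o l = unw (G.ns l) (fun j : Fin (G.ns l) => sdc G c o l j.val) := by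
  funext j
  unfold unw
  split_ifs with h
  · rfl
  · unfold sdc
    rw [if_neg (fun h' => h h'.2.2)]

private theorem fib_sdc (G : Geo n) (o l : ℕ) :
    Fib (fun (c : ℕ → Bool) (j : Fin (G.ns l)) => sdc G c o l j.val) :=
  Fib.pi (f := fun (j : Fin (G.ns l)) (c : ℕ → Bool) => sdc G c o l j.val)
    fun j => fib_sdc1 G o l j.val

private theorem fib_flc (G : Geo n) (l : ℕ) : Fib (fun c : ℕ → Bool => flc G c l) := by
  unfold flc
  exact (fib_num _ _).map (fun v => decide (l ≤ G.L) && decide (v.val = 0))

private theorem fib_rkc (k ρ : ℕ) : Fib (fun c : ℕ → Bool => rkc k ρ c) := by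
  have h2 : Fib (fun (c : ℕ → Bool) (j : Fin (k + 1)) => num c (Nat.pair 2 j) ρ) :=
    Fib.pi (f := fun (j : Fin (k + 1)) (c : ℕ → Bool) => num c (Nat.pair 2 j) ρ)
      fun j => fib_num _ _
  have e : (fun c : ℕ → Bool => rkc k ρ c) = fun c =>
      (fun w : Fin (k + 1) → Fin (2 ^ ρ) => (List.range (k + 1)).map fun j =>
        if h : j < k + 1 then (w ⟨j, h⟩).val else 0)
        (fun j : Fin (k + 1) => num c (Nat.pair 2 j) ρ) := by
    funext c
    unfold rkc
    apply List.map_congr_left
    intro j hj
    rw [List.mem_range] at hj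
    rw [dif_pos hj]
  rw [e]
  exact h2.map (fun w : Fin (k + 1) → Fin (2 ^ ρ) => (List.range (k + 1)).map fun j =>
    if h : j < k + 1 then (w ⟨j, h⟩).val else 0)

private theorem fib_beg (G : Geo n) (k ρ : ℕ) (b : Bool) (p : Fin n) (o i : ℕ)
    {g : (ℕ → Bool) → Dt n} (hg : Fib g) (K : Finset (Fact n (Dt n))) (M : Finset (Fin n)) :
    Fib (fun c : ℕ → Bool => (own G k ρ b c).beg p o i (g c) K M) := by
  have h := ((fib_sdc G o (G.lvl i)).prod hg).map
    (fun y : (Fin (G.ns (G.lvl i)) → ℕ) × Dt n =>
    (⟨o, i, y.2, insert (Fact.lab p o i y.2) K, M, G.lst p i (unw (G.ns (G.lvl i)) y.1), 0,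
      ∅, ∅⟩ : LSt n (Dt n)))
  have e : (fun c : ℕ → Bool => (own G k ρ b c).beg p o i (g c) K M) = fun c =>
      (⟨o, i, g c, insert (Fact.lab p o i (g c)) K, M, G.lst p i (unw (G.ns (G.lvl i))
        (fun j : Fin (G.ns (G.lvl i)) => sdc G c o (G.lvl i) j.val)), 0, ∅, ∅⟩ :
        LSt n (Dt n)) := by
    funext c
    rw [← unw_sdc]
    rfl
  rw [e]
  exact h

private theorem fib_nxt (G : Geo n) (k ρ : ℕ) (b : Bool) (p : Fin n) (o i : ℕ) (f : Bool)
    (K : Finset (Fact n (Dt n))) (d : Dt n) :
    Fib (fun c : ℕ → Bool => (own G k ρ b c).nxt p o i f K d) := by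
  cases f with
  | false =>
    by_cases ho : o = 0
    · have : (fun c : ℕ → Bool => (own G k ρ b c).nxt p o i false K d) =
          fun c => (fun y : Bool => ({ d with flag := y } : Dt n)) (flc G c (G.lvl (i + 1))) := by
        funext c
        simp only [own, Tab.sys, tab, if_true, if_pos ho]
      rw [this]
      exact (fib_flc G (G.lvl (i + 1))).map (fun y : Bool => ({ d with flag := y } : Dt n))
    · have : (fun c : ℕ → Bool => (own G k ρ b c).nxt p o i false K d) = fun _ => d := by
        funext c
        simp only [own, Tab.sys, if_true, if_neg ho]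
      rw [this]
      exact fib_const _
  | true =>
    have : (fun c : ℕ → Bool => (own G k ρ b c).nxt p o i true K d) =
        fun _ => (own G k ρ b (fun _ => false)).nxt p o i true K d := by
      funext c
      simp only [own, Tab.sys, Bool.true_eq_false, if_false]
    rw [this]
    exact fib_const _

private theorem fib_rd (G : Geo n) (k ρ : ℕ) (b : Bool) (p : Fin n) (s : LSt n (Dt n))
    (m : Msg n) : Fib (fun c : ℕ → Bool => (own G k ρ b c).rd p s m) := by
  unfold Sys.rd
  by_cases h : s.pos + 1 < 2 * s.T.length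
  · simp only [if_pos h]
    exact fib_const _
  · simp only [if_neg h]
    have e : (fun c : ℕ → Bool => (own G k ρ b c).fin p s (outK p s m.2)
        ((own G k ρ b c).outM p s m.1)) = fun c => (own G k ρ b c).fin p s (outK p s m.2)
        ((own G k ρ b (fun _ => false)).outM p s m.1) := rfl
    rw [e]
    generalize (own G k ρ b (fun _ => false)).outM p s m.1 = Y
    generalize outK p s m.2 = X
    unfold Sys.fin
    by_cases h1 : G.tick s.i = G.tk
    · have h1' : ∀ c : ℕ → Bool, (own G k ρ b c).G.tick s.i = (own G k ρ b c).G.tk :=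
        fun _ => h1
      simp only [h1', if_true]
      by_cases h2 : (own G k ρ b (fun _ => false)).cert s.o (G.lvl s.i) Y X
      · have h2' : ∀ c : ℕ → Bool, (own G k ρ b c).cert s.o ((own G k ρ b c).G.lvl s.i) Y X :=
          fun _ => h2
        simp only [h2', if_true]
        exact fib_beg G k ρ b p _ _ (fib_nxt G k ρ b p _ _ _ _ _) _ _
      · have h2' : ∀ c : ℕ → Bool, ¬ (own G k ρ b c).cert s.o ((own G k ρ b c).G.lvl s.i) Y X :=
          fun _ => h2
        simp only [h2', if_false]
        exact fib_beg G k ρ b p _ _ (fib_nxt G k ρ b p _ _ _ _ _) _ _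
    · have h1' : ∀ c : ℕ → Bool, ¬ (own G k ρ b c).G.tick s.i = (own G k ρ b c).G.tk :=
        fun _ => h1
      simp only [h1', if_false]
      exact fib_beg G k ρ b p _ _ (fib_nxt G k ρ b p _ _ _ _ _) _ _

theorem own_init_meas (G : Geo n) (k ρ : ℕ) (p : Fin n) (b : Bool) (s : LSt n (Dt n)) :
    MeasurableSet {c : ℕ → Bool | (own G k ρ b c).beg p 0 0 ((own G k ρ b c).d0 p) ∅ ∅ = s} := by
  have h : Fib (fun c : ℕ → Bool => (own G k ρ b c).d0 p) :=
    ((fib_flc G G.L).prod (fib_rkc k ρ)).map (fun y : Bool × List ℕ =>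
      (⟨p, b, y.2, y.1, false⟩ : Dt n))
  exact fib_beg G k ρ b p 0 0 h ∅ ∅ s

theorem own_upd_meas (G : Geo n) (k ρ : ℕ) (p : Fin n) (s : LSt n (Dt n)) (r : Option ℕ)
    (s' : LSt n (Dt n)) :
    MeasurableSet {c : ℕ → Bool | (match r with
      | none => wr s
      | some v => (own G k ρ true c).rd p s (dcd v)) = s'} := by
  cases r with
  | none => exact fib_const (wr s) s'
  | some v => exact fib_rd G k ρ true p s (dcd v) s'

end Pool.Agent.Q217
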