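import Pool.Agent.MP217Two.PLex

set_option autoImplicit false

/-!
# The protocol: closure of the knowledge, genuine labels
-/

namespace Pool.Agent.Q217

open Finset

attribute [local instance 10] Classical.propDecidable

variable {n : ℕ} {D : Type}

namespace Sys

variable {S : Sys n D} {σ : ℕ → Option (Fin n)}

/-! ### One step -/

private theorem pcl_mem_cases (S : Sys n D) (σ : ℕ → Option (Fin n)) (t : ℕ) (w x : Fin n)
    (o ch : ℕ) :
    (S.run σ (t + 1)).mem w x o ch = (S.run σ t).mem w x o ch ∨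
    (σ t = some w ∧ o = ((S.run σ t).st w).o ∧ ch = S.G.chan ((S.run σ t).st w).i ∧
      (S.run σ (t + 1)).mem w x o ch = (((S.run σ t).st w).M, ((S.run σ t).st w).K)) := by
  cases hs : σ t with
  | none =>
    left
    simp only [run, hs]
  | some p =>
    have h1 : S.run σ (t + 1) = S.step p (S.run σ t) := by simp only [run, hs]
    rw [h1, step]
    split_ifs with h2 h3
    · left
      rfl
    · by_cases hc : w = p ∧ x = partner p ((S.run σ t).st p) ∧ o = ((S.run σ t).st p).o ∧
          ch = S.G.chan ((S.run σ t).st p).i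
      · right
        obtain ⟨rfl, h4, h5, h6⟩ := hc
        exact ⟨rfl, h5, h6, if_pos ⟨rfl, h4, h5, h6⟩⟩
      · left
        exact if_neg hc
    · left
      rfl

private theorem pcl_fin_K (S : Sys n D) (p : Fin n) (s : LSt n D) (X : Finset (Fact n D))
    (Y : Finset (Fin n)) :
    (S.fin p s X Y).K =
      insert (Fact.lab p (S.fin p s X Y).o (S.fin p s X Y).i (S.fin p s X Y).d) X := by
  unfold fin
  split_ifs <;> rfl

private theorem pcl_fin_acc (S : Sys n D) (p : Fin n) (s : LSt n D) (X : Finset (Fact n D))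
    (Y : Finset (Fin n)) : (S.fin p s X Y).accK = ∅ ∧ (S.fin p s X Y).accM = ∅ := by
  unfold fin
  split_ifs <;> exact ⟨rfl, rfl⟩

private theorem pcl_fin_M (S : Sys n D) (p : Fin n) (s : LSt n D) (X : Finset (Fact n D))
    (Y : Finset (Fin n)) : (S.fin p s X Y).M = ∅ ∨ (S.G.tick s.i ≠ S.G.tk ∧
      (S.fin p s X Y).M = Y ∧ (S.fin p s X Y).o = s.o ∧ (S.fin p s X Y).i = s.i + 1) := by
  unfold fin
  split_ifs with h1 h2
  · left
    rfl
  · left
    rfl
  · right
    exact ⟨h1, rfl, rfl, rfl⟩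

/-- The states of a processor: unchanged sets, a read, or the end of a pass. -/
private theorem pcl_acc_cases (S : Sys n D) (σ : ℕ → Option (Fin n)) (t : ℕ) (p : Fin n) :
    (((S.run σ (t + 1)).st p).accK = ((S.run σ t).st p).accK ∧
      ((S.run σ (t + 1)).st p).accM = ((S.run σ t).st p).accM ∧
      ((S.run σ (t + 1)).st p).o = ((S.run σ t).st p).o ∧
      ((S.run σ (t + 1)).st p).i = ((S.run σ t).st p).i) ∨
    (((S.run σ (t + 1)).st p).accK = ((S.run σ t).st p).accK ∪
        ((S.run σ t).mem (partner p ((S.run σ t).st p)) p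
          ((S.run σ t).st p).o (S.G.chan ((S.run σ t).st p).i)).2 ∧
      ((S.run σ (t + 1)).st p).accM = ((S.run σ t).st p).accM ∪
        ((S.run σ t).mem (partner p ((S.run σ t).st p)) p
          ((S.run σ t).st p).o (S.G.chan ((S.run σ t).st p).i)).1 ∧
      ((S.run σ (t + 1)).st p).o = ((S.run σ t).st p).o ∧
      ((S.run σ (t + 1)).st p).i = ((S.run σ t).st p).i) ∨
    (((S.run σ (t + 1)).st p).accK = ∅ ∧ ((S.run σ (t + 1)).st p).accM = ∅) := by
  rcases step_cases S σ t p with h | h | h | ⟨X, Y, h⟩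
  · left
    rw [h.1]
    simp
  · left
    rw [h.2.2.2]
    simp [wr]
  · right
    left
    rw [h.2.2.2.2]
    simp
  · right
    right
    rw [h.next]
    exact pcl_fin_acc S _ _ _ _

/-! ### Closure -/

private def PclClosed (S : Sys n D) (σ : ℕ → Option (Fin n)) (t : ℕ) (Z : Finset (Fact n D)) :
    Prop :=
  ∀ b o i T, Fact.done b o i T ∈ Z → T = S.lst b o i ∧
    ∃ e < t, ∃ X Y, S.EndAt σ e b o i X Y ∧ X ⊆ Z

private theorem PclClosed.mono {t t' : ℕ} (h : t ≤ t') {Z : Finset (Fact n D)}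
    (hZ : PclClosed S σ t Z) : PclClosed S σ t' Z := by
  intro a o i T hd
  obtain ⟨hT, e, he, X, Y, h1, h2⟩ := hZ a o i T hd
  exact ⟨hT, e, by omega, X, Y, h1, h2⟩

private theorem PclClosed.union {t : ℕ} {Z Z' : Finset (Fact n D)} (hZ : PclClosed S σ t Z)
    (hZ' : PclClosed S σ t Z') : PclClosed S σ t (Z ∪ Z') := by
  intro a o i T hd
  rcases mem_union.mp hd with hd | hd
  · obtain ⟨hT, e, he, X, Y, h1, h2⟩ := hZ a o i T hd
    exact ⟨hT, e, he, X, Y, h1, h2.trans subset_union_left⟩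
  · obtain ⟨hT, e, he, X, Y, h1, h2⟩ := hZ' a o i T hd
    exact ⟨hT, e, he, X, Y, h1, h2.trans subset_union_right⟩

private theorem PclClosed.insert_lab {t : ℕ} {Z : Finset (Fact n D)} (hZ : PclClosed S σ t Z)
    (p : Fin n) (o' i' : ℕ) (d : D) : PclClosed S σ t (insert (Fact.lab p o' i' d) Z) := by
  intro a o i T hd
  rw [mem_insert] at hd
  rcases hd with hd | hd
  · cases hd
  · obtain ⟨hT, e, he, X, Y, h1, h2⟩ := hZ a o i T hd
    exact ⟨hT, e, he, X, Y, h1, h2.trans (subset_insert _ _)⟩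

private theorem PclClosed.empty (t : ℕ) : PclClosed S σ t ∅ := by
  intro a o i T hd
  simp at hd

/-- The knowledge at the end of a pass is closed. -/
private theorem pcl_closed_end {e : ℕ} {a : Fin n} {o i : ℕ} {X : Finset (Fact n D)}
    {Y : Finset (Fin n)} (h : S.EndAt σ e a o i X Y)
    (h1 : ∀ p, PclClosed S σ e ((S.run σ e).st p).K)
    (h2 : ∀ p, PclClosed S σ e ((S.run σ e).st p).accK)
    (h3 : ∀ w x o ch, PclClosed S σ e ((S.run σ e).mem w x o ch).2) :
    PclClosed S σ (e + 1) X := by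
  intro b o' i' T' hd
  have hX := h.hX
  rw [outK] at hX
  rw [hX, mem_insert] at hd
  rcases hd with hd | hd
  · have htgt := (run_inv S σ e).tgt a
    cases hd
    refine ⟨htgt, e, by omega, X, Y, ?_, Subset.rfl⟩
    have ho := h.ho
    have hi := h.hi
    rw [ho, hi]
    exact h
  · obtain ⟨hT, e', he, X', Y', h4, h5⟩ :=
      ((h1 a).union ((h2 a).union (h3 _ _ _ _))) b o' i' T' hd
    refine ⟨hT, e', by omega, X', Y', h4, h5.trans ?_⟩
    rw [hX]
    exact subset_insert _ _

private theorem pcl_closed_run (S : Sys n D) (σ : ℕ → Option (Fin n)) (t : ℕ) :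
    (∀ p, PclClosed S σ t ((S.run σ t).st p).K) ∧
    (∀ p, PclClosed S σ t ((S.run σ t).st p).accK) ∧
    (∀ w x o ch, PclClosed S σ t ((S.run σ t).mem w x o ch).2) := by
  induction t with
  | zero =>
    refine ⟨fun p => ?_, fun p => PclClosed.empty 0, fun w x o ch => PclClosed.empty 0⟩
    exact (PclClosed.empty 0).insert_lab _ _ _ _
  | succ t ih =>
    obtain ⟨h1, h2, h3⟩ := ih
    have hm := Nat.le_succ t
    refine ⟨fun p => ?_, fun p => ?_, fun w x o ch => ?_⟩
    · rcases same_or_end S σ t p with h | ⟨X, Y, h⟩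
      · rw [h.2.2.2.1]
        exact (h1 p).mono hm
      · rw [h.next, pcl_fin_K]
        exact (pcl_closed_end h h1 h2 h3).insert_lab _ _ _ _
    · rcases pcl_acc_cases S σ t p with h | h | h
      · rw [h.1]
        exact (h2 p).mono hm
      · rw [h.1]
        exact ((h2 p).union (h3 _ _ _ _)).mono hm
      · rw [h.1]
        exact PclClosed.empty _
    · rcases pcl_mem_cases S σ t w x o ch with h | h
      · rw [h]
        exact (h3 w x o ch).mono hm
      · rw [h.2.2.2]
        exact (h1 w).mono hm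

/-- The knowledge is closed under the past. -/
theorem closed_K {t : ℕ} {p b : Fin n} {o i : ℕ} {T : List (Fin n)}
    (h : Fact.done b o i T ∈ ((S.run σ t).st p).K) :
    T = S.lst b o i ∧ ∃ e < t, ∃ X Y, S.EndAt σ e b o i X Y ∧ X ⊆ ((S.run σ t).st p).K :=
  (pcl_closed_run S σ t).1 p b o i T h

theorem closed_X {e : ℕ} {a : Fin n} {o i : ℕ} {X : Finset (Fact n D)} {Y : Finset (Fin n)}
    (h : S.EndAt σ e a o i X Y) {b : Fin n} {o' i' : ℕ} {T : List (Fin n)}
    (hd : Fact.done b o' i' T ∈ X) :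
    T = S.lst b o' i' ∧ ∃ e' ≤ e, ∃ X' Y', S.EndAt σ e' b o' i' X' Y' ∧ X' ⊆ X := by
  obtain ⟨h1, h2, h3⟩ := pcl_closed_run S σ e
  obtain ⟨hT, e', he, X', Y', h4, h5⟩ := pcl_closed_end h h1 h2 h3 b o' i' T hd
  exact ⟨hT, e', by omega, X', Y', h4, h5⟩

/-! ### Teams -/

private theorem pcl_start_lvl (G : Geo n) {i : ℕ} (hi : G.tick i = 0)
    (hle : i < (G.L + 1) * (G.tk + 1)) : G.start (G.lvl i) = i := by
  unfold Geo.start Geo.lvl
  unfold Geo.tick at hi
  have h1 : i / (G.tk + 1) < G.L + 1 := by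
    rw [Nat.div_lt_iff_lt_mul (Nat.succ_pos _)]
    exact hle
  have h2 : G.L - (G.L - i / (G.tk + 1)) = i / (G.tk + 1) := Nat.sub_sub_self (Nat.le_of_lt_succ h1)
  rw [h2]
  exact Nat.div_mul_cancel (Nat.dvd_of_mod_eq_zero hi)

private theorem pcl_lvl_succ (G : Geo n) {i : ℕ} (hi : G.tick i ≠ G.tk) :
    G.lvl (i + 1) = G.lvl i := by
  unfold Geo.lvl
  unfold Geo.tick at hi
  have h1 : i % (G.tk + 1) < G.tk + 1 := Nat.mod_lt _ (Nat.succ_pos _)
  have h2 : (i + 1) / (G.tk + 1) = i / (G.tk + 1) := by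
    rw [Nat.succ_div, if_neg, Nat.add_zero]
    intro h
    have h3 : (i + 1) % (G.tk + 1) = 0 := Nat.mod_eq_zero_of_dvd h
    have h4 := Nat.div_add_mod i (G.tk + 1)
    have h5 : (i + 1) % (G.tk + 1) = (i % (G.tk + 1) + 1) % (G.tk + 1) :=
      (Nat.mod_add_mod i (G.tk + 1) 1).symm
    rw [Nat.mod_eq_of_lt (by omega : i % (G.tk + 1) + 1 < G.tk + 1)] at h5
    omega
  rw [h2]

/-- The fact that `b` has finished the ext pass of level `l` of object `o`. -/
private noncomputable def pclFact (S : Sys n D) (b : Fin n) (o l : ℕ) : Fact n D :=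
  Fact.done b o (S.G.start l) (S.lst b o (S.G.start l))

private theorem pcl_team_end {e : ℕ} {a : Fin n} {o i : ℕ} {X : Finset (Fact n D)}
    {Y : Finset (Fin n)} (h : S.EndAt σ e a o i X Y)
    (h1 : ∀ p, ∀ b ∈ ((S.run σ e).st p).M, pclFact S b ((S.run σ e).st p).o
      (S.G.lvl ((S.run σ e).st p).i) ∈ ((S.run σ e).st p).K)
    (h2 : ∀ p, ∀ b ∈ ((S.run σ e).st p).accM, pclFact S b ((S.run σ e).st p).o
      (S.G.lvl ((S.run σ e).st p).i) ∈ ((S.run σ e).st p).accK)
    (h3 : ∀ w x o ch, ∀ b ∈ ((S.run σ e).mem w x o ch).1, pclFact S b o (ch - 1) ∈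
      ((S.run σ e).mem w x o ch).2) {b : Fin n} (hb : b ∈ Y) :
    pclFact S b o (S.G.lvl i) ∈ X := by
  have hX := h.hX
  have hY := h.hY
  have ho := h.ho
  have hi := h.hi
  rw [outK] at hX
  rw [outM, hi] at hY
  by_cases ht : S.G.tick i = 0
  · rw [if_pos ht] at hY
    rw [hY, mem_singleton] at hb
    subst hb
    have hile := (run_inv S σ e).ile b
    rw [hi] at hile
    rw [hX, pclFact, pcl_start_lvl S.G ht hile, (run_inv S σ e).tgt b, ho, hi]
    exact mem_insert_self _ _
  · rw [if_neg ht] at hY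
    rw [hY, mem_union, mem_union] at hb
    rw [hX]
    apply mem_insert_of_mem
    rcases hb with hb | hb | hb
    · have := h1 a b hb
      rw [ho, hi] at this
      exact mem_union_left _ this
    · have := h2 a b hb
      rw [ho, hi] at this
      exact mem_union_right _ (mem_union_left _ this)
    · have := h3 _ _ _ _ b hb
      have hch : S.G.chan i - 1 = S.G.lvl i := by
        unfold Geo.chan
        rw [if_neg ht, Nat.add_sub_cancel]
      rw [hch] at this
      exact mem_union_right _ (mem_union_right _ this)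

private theorem pcl_team_run (S : Sys n D) (σ : ℕ → Option (Fin n)) (t : ℕ) :
    (∀ p, ∀ b ∈ ((S.run σ t).st p).M, pclFact S b ((S.run σ t).st p).o
      (S.G.lvl ((S.run σ t).st p).i) ∈ ((S.run σ t).st p).K) ∧
    (∀ p, ∀ b ∈ ((S.run σ t).st p).accM, pclFact S b ((S.run σ t).st p).o
      (S.G.lvl ((S.run σ t).st p).i) ∈ ((S.run σ t).st p).accK) ∧
    (∀ w x o ch, ∀ b ∈ ((S.run σ t).mem w x o ch).1, pclFact S b o (ch - 1) ∈
      ((S.run σ t).mem w x o ch).2) := by
  induction t with
  | zero =>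
    refine ⟨fun p b hb => ?_, fun p b hb => ?_, fun w x o ch b hb => ?_⟩
    · change b ∈ (∅ : Finset (Fin n)) at hb
      simp at hb
    · change b ∈ (∅ : Finset (Fin n)) at hb
      simp at hb
    · change b ∈ (∅ : Finset (Fin n)) at hb
      simp at hb
  | succ t ih =>
    obtain ⟨h1, h2, h3⟩ := ih
    refine ⟨fun p b hb => ?_, fun p b hb => ?_, fun w x o ch b hb => ?_⟩
    · rcases same_or_end S σ t p with h | ⟨X, Y, h⟩
      · rw [h.2.2.2.2.1] at hb
        rw [h.1, h.2.1, h.2.2.2.1]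
        exact h1 p b hb
      · rw [h.next] at hb ⊢
        rcases pcl_fin_M S p ((S.run σ t).st p) X Y with h4 | ⟨h4, h5, h6, h7⟩
        · rw [h4] at hb
          simp at hb
        · rw [h5] at hb
          rw [h6, h7, pcl_lvl_succ S.G h4, pcl_fin_K]
          exact mem_insert_of_mem (pcl_team_end h h1 h2 h3 hb)
    · rcases pcl_acc_cases S σ t p with h | h | h
      · rw [h.2.1] at hb
        rw [h.1, h.2.2.1, h.2.2.2]
        exact h2 p b hb
      · rw [h.2.1, mem_union] at hb
        rw [h.1, h.2.2.1, h.2.2.2]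
        rcases hb with hb | hb
        · exact mem_union_left _ (h2 p b hb)
        · have h4 := h3 _ _ _ _ b hb
          by_cases ht : S.G.tick ((S.run σ t).st p).i = 0
          · have hch : S.G.chan ((S.run σ t).st p).i = 0 := by
              unfold Geo.chan
              rw [if_pos ht]
            rw [hch, (run_inv S σ t).mem_ext] at hb
            simp at hb
          · have hch : S.G.chan ((S.run σ t).st p).i - 1 = S.G.lvl ((S.run σ t).st p).i := by
              unfold Geo.chan
              rw [if_neg ht, Nat.add_sub_cancel]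
            rw [hch] at h4
            exact mem_union_right _ h4
      · rw [h.2] at hb
        simp at hb
    · rcases pcl_mem_cases S σ t w x o ch with h | ⟨_, h5, h6, h7⟩
      · rw [h] at hb ⊢
        exact h3 w x o ch b hb
      · rw [h7] at hb ⊢
        dsimp only at hb ⊢
        by_cases ht : S.G.tick ((S.run σ t).st w).i = 0
        · rw [(run_inv S σ t).ext_M w ht] at hb
          simp at hb
        · have h4 := h1 w b hb
          have hch : ch - 1 = S.G.lvl ((S.run σ t).st w).i := by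
            rw [h6]
            unfold Geo.chan
            rw [if_neg ht, Nat.add_sub_cancel]
          rw [hch, h5]
          exact h4

/-- The members of a team have finished the ext pass of the level, and this is known. -/
theorem team_done {e : ℕ} {a : Fin n} {o i : ℕ} {X : Finset (Fact n D)} {Y : Finset (Fin n)}
    (h : S.EndAt σ e a o i X Y) {b : Fin n} (hb : b ∈ Y) :
    Fact.done b o (S.G.start (S.G.lvl i)) (S.lst b o (S.G.start (S.G.lvl i))) ∈ X := by
  obtain ⟨h1, h2, h3⟩ := pcl_team_run S σ e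
  exact pcl_team_end h h1 h2 h3 hb

/-! ### Genuine labels -/

private def PclGen (S : Sys n D) (σ : ℕ → Option (Fin n)) (t : ℕ) (Q : Fin n → Prop)
    (Z : Finset (Fact n D)) : Prop :=
  ∀ a o i d, Fact.lab a o i d ∈ Z → ∃ t' ≤ t, S.At σ t' a o i ∧ ((S.run σ t').st a).d = d ∧
    (Q a ∨ ∃ t'' < t, σ t'' = some a)

private theorem PclGen.mono {t t' : ℕ} (h : t ≤ t') {Q : Fin n → Prop} {Z : Finset (Fact n D)}
    (hZ : PclGen S σ t Q Z) : PclGen S σ t' Q Z := by
  intro a o i d hd
  obtain ⟨e, he, h1, h2, h3⟩ := hZ a o i d hd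
  refine ⟨e, by omega, h1, h2, ?_⟩
  rcases h3 with h3 | ⟨e', he', h3⟩
  · exact Or.inl h3
  · exact Or.inr ⟨e', by omega, h3⟩

private theorem PclGen.weaken {t : ℕ} {Q Q' : Fin n → Prop} (hQ : ∀ a, Q a → Q' a)
    {Z : Finset (Fact n D)} (hZ : PclGen S σ t Q Z) : PclGen S σ t Q' Z := by
  intro a o i d hd
  obtain ⟨e, he, h1, h2, h3⟩ := hZ a o i d hd
  refine ⟨e, he, h1, h2, ?_⟩
  rcases h3 with h3 | h3
  · exact Or.inl (hQ a h3)
  · exact Or.inr h3

private theorem PclGen.union {t : ℕ} {Q : Fin n → Prop} {Z Z' : Finset (Fact n D)}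
    (hZ : PclGen S σ t Q Z) (hZ' : PclGen S σ t Q Z') : PclGen S σ t Q (Z ∪ Z') := by
  intro a o i d hd
  rcases mem_union.mp hd with hd | hd
  · exact hZ a o i d hd
  · exact hZ' a o i d hd

private theorem PclGen.insert_done {t : ℕ} {Q : Fin n → Prop} {Z : Finset (Fact n D)}
    (hZ : PclGen S σ t Q Z) (p : Fin n) (o' i' : ℕ) (T : List (Fin n)) :
    PclGen S σ t Q (insert (Fact.done p o' i' T) Z) := by
  intro a o i d hd
  rw [mem_insert] at hd
  rcases hd with hd | hd
  · cases hd
  · exact hZ a o i d hd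

private theorem pcl_gen_end {e : ℕ} {a : Fin n} {o i : ℕ} {X : Finset (Fact n D)}
    {Y : Finset (Fin n)} (h : S.EndAt σ e a o i X Y)
    (h1 : ∀ p, PclGen S σ e (fun b => b = p) ((S.run σ e).st p).K)
    (h2 : ∀ p, PclGen S σ e (fun _ => False) ((S.run σ e).st p).accK)
    (h3 : ∀ w x o ch, PclGen S σ e (fun _ => False) ((S.run σ e).mem w x o ch).2) :
    PclGen S σ e (fun b => b = a) X := by
  rw [h.hX, outK]
  exact ((h1 a).union (((h2 a).union (h3 _ _ _ _)).weaken (fun _ hf => hf.elim))).insert_done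
    _ _ _ _

private theorem pcl_gen_run (S : Sys n D) (σ : ℕ → Option (Fin n)) (t : ℕ) :
    (∀ p, PclGen S σ t (fun b => b = p) ((S.run σ t).st p).K) ∧
    (∀ p, PclGen S σ t (fun _ => False) ((S.run σ t).st p).accK) ∧
    (∀ w x o ch, PclGen S σ t (fun _ => False) ((S.run σ t).mem w x o ch).2) := by
  induction t with
  | zero =>
    refine ⟨fun p => ?_, fun p a o i d hd => ?_, fun w x o ch a o' i d hd => ?_⟩
    · intro a o i d hd
      change _ ∈ insert (Fact.lab p 0 0 (S.d0 p)) ∅ at hd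
      rw [mem_insert] at hd
      rcases hd with hd | hd
      · cases hd
        exact ⟨0, le_rfl, ⟨rfl, rfl⟩, rfl, Or.inl rfl⟩
      · simp at hd
    · change _ ∈ (∅ : Finset (Fact n D)) at hd
      simp at hd
    · change _ ∈ (∅ : Finset (Fact n D)) at hd
      simp at hd
  | succ t ih =>
    obtain ⟨h1, h2, h3⟩ := ih
    have hm := Nat.le_succ t
    refine ⟨fun p => ?_, fun p => ?_, fun w x o ch => ?_⟩
    · rcases same_or_end S σ t p with h | ⟨X, Y, h⟩
      · rw [h.2.2.2.1]
        exact (h1 p).mono hm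
      · have hX := (pcl_gen_end h h1 h2 h3).mono hm
        have hfin := h.next
        intro a o i d hd
        rw [hfin, pcl_fin_K, mem_insert] at hd
        rcases hd with hd | hd
        · have hat : ∀ (s : LSt n D), (S.run σ (t + 1)).st p = s →
              Fact.lab a o i d = Fact.lab p s.o s.i s.d →
              ∃ t' ≤ t + 1, S.At σ t' a o i ∧ ((S.run σ t').st a).d = d ∧
                (a = p ∨ ∃ t'' < t + 1, σ t'' = some a) := by
            intro s hs hd
            cases hd
            subst hs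
            exact ⟨t + 1, le_rfl, ⟨rfl, rfl⟩, rfl, Or.inl rfl⟩
          exact hat _ hfin hd
        · exact hX a o i d hd
    · rcases pcl_acc_cases S σ t p with h | h | h
      · rw [h.1]
        exact (h2 p).mono hm
      · rw [h.1]
        exact ((h2 p).union (h3 _ _ _ _)).mono hm
      · rw [h.1]
        intro a o i d hd
        simp at hd
    · rcases pcl_mem_cases S σ t w x o ch with h | ⟨h4, _, _, h⟩
      · rw [h]
        exact (h3 w x o ch).mono hm
      · rw [h]
        intro a o' i d hd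
        obtain ⟨t', ht', h5, h6, h7⟩ := h1 w a o' i d hd
        refine ⟨t', by omega, h5, h6, Or.inr ?_⟩
        rcases h7 with h7 | ⟨t'', ht'', h7⟩
        · exact ⟨t, Nat.lt_succ_self t, by rw [h7]; exact h4⟩
        · exact ⟨t'', by omega, h7⟩

/-- Labels are genuine, and their authors (other than the owner of the knowledge) have been
scheduled. -/
theorem genuine_K {t : ℕ} {p a : Fin n} {o i : ℕ} {d : D}
    (h : Fact.lab a o i d ∈ ((S.run σ t).st p).K) :
    ∃ t' ≤ t, S.At σ t' a o i ∧ ((S.run σ t').st a).d = d ∧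
      (a = p ∨ ∃ t'' < t, σ t'' = some a) :=
  (pcl_gen_run S σ t).1 p a o i d h

theorem genuine_X {e : ℕ} {p : Fin n} {o i : ℕ} {X : Finset (Fact n D)} {Y : Finset (Fin n)}
    (h : S.EndAt σ e p o i X Y) {a : Fin n} {o' i' : ℕ} {d : D} (hl : Fact.lab a o' i' d ∈ X) :
    ∃ t' ≤ e, S.At σ t' a o' i' ∧ ((S.run σ t').st a).d = d ∧ ∃ t'' ≤ e, σ t'' = some a := by
  obtain ⟨h1, h2, h3⟩ := pcl_gen_run S σ e
  obtain ⟨t', ht', h4, h5, h6⟩ := pcl_gen_end h h1 h2 h3 a o' i' d hl
  refine ⟨t', ht', h4, h5, ?_⟩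
  rcases h6 with h6 | ⟨t'', ht'', h6⟩
  · exact ⟨e, le_rfl, by rw [h6]; exact h.sched⟩
  · exact ⟨t'', ht''.le, h6⟩

end Sys

end Pool.Agent.Q217
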