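import Pool.Agent.MP217Two.PInv

set_option autoImplicit false

/-!
# The protocol: ends of passes
-/

namespace Pool.Agent.Q217

open Finset

attribute [local instance 10] Classical.propDecidable

variable {n : ℕ} {D : Type}

namespace Sys

variable {S : Sys n D} {σ : ℕ → Option (Fin n)}

private theorem p2_step_idle (S : Sys n D) (p : Fin n) (C : Cfg n D)
    (h : S.G.O ≤ (C.st p).o) : S.step p C = C := by
  unfold step
  rw [if_pos h]

private theorem p2_st_ne (S : Sys n D) (p : Fin n) (C : Cfg n D) {q : Fin n} (h : q ≠ p) :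
    (S.step p C).st q = C.st q := by
  unfold step
  split_ifs <;> simp [Function.update_of_ne h]

private theorem p2_st_write (S : Sys n D) (p : Fin n) (C : Cfg n D) (ho : (C.st p).o < S.G.O)
    (h : (C.st p).pos < (C.st p).T.length) : (S.step p C).st p = wr (C.st p) := by
  unfold step
  rw [if_neg (by omega), if_pos h]
  simp

private theorem p2_st_read (S : Sys n D) (p : Fin n) (C : Cfg n D) (ho : (C.st p).o < S.G.O)
    (h : ¬ (C.st p).pos < (C.st p).T.length) :
    (S.step p C).st p = S.rd p (C.st p)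
      (C.mem (partner p (C.st p)) p (C.st p).o (S.G.chan (C.st p).i)) := by
  unfold step
  rw [if_neg (by omega), if_neg h]
  simp

private theorem p2_run_none (S : Sys n D) {t : ℕ} (h : σ t = none) :
    S.run σ (t + 1) = S.run σ t := by
  rw [run, h]

private theorem p2_run_some (S : Sys n D) {t : ℕ} {p : Fin n} (h : σ t = some p) :
    S.run σ (t + 1) = S.step p (S.run σ t) := by
  rw [run, h]

theorem EndAt.next {e : ℕ} {a : Fin n} {o i : ℕ} {X : Finset (Fact n D)} {Y : Finset (Fin n)}
    (h : S.EndAt σ e a o i X Y) :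
    (S.run σ (e + 1)).st a = S.fin a ((S.run σ e).st a) X Y := by
  have hp := (run_inv S σ e).pos a
  have hpos := h.pos
  have ho := h.act
  have ho' := h.ho
  rw [p2_run_some S h.sched, p2_st_read S a _ (by omega) (by omega), rd, if_neg (by omega),
    h.hX, h.hY, h.ho, h.hi]

theorem EndAt.at {e : ℕ} {a : Fin n} {o i : ℕ} {X : Finset (Fact n D)} {Y : Finset (Fin n)}
    (h : S.EndAt σ e a o i X Y) : S.At σ e a o i := ⟨h.ho, h.hi⟩

theorem EndAt.done_mem {e : ℕ} {a : Fin n} {o i : ℕ} {X : Finset (Fact n D)}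
    {Y : Finset (Fin n)} (h : S.EndAt σ e a o i X Y) :
    Fact.done a o i (S.lst a o i) ∈ X := by
  have ht := (run_inv S σ e).tgt a
  rw [h.ho, h.hi] at ht
  rw [h.hX, outK, h.ho, h.hi, ht]
  exact mem_insert_self _ _

theorem EndAt.K_le {e : ℕ} {a : Fin n} {o i : ℕ} {X : Finset (Fact n D)} {Y : Finset (Fin n)}
    (h : S.EndAt σ e a o i X Y) : ((S.run σ e).st a).K ⊆ X := by
  rw [h.hX]
  exact subset_union_left.trans (subset_insert _ _)

theorem EndAt.X_le {e : ℕ} {a : Fin n} {o i : ℕ} {X : Finset (Fact n D)} {Y : Finset (Fin n)}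
    (h : S.EndAt σ e a o i X Y) : X ⊆ ((S.run σ (e + 1)).st a).K := by
  rw [h.next]
  unfold fin
  split_ifs <;> exact subset_insert _ _

theorem EndAt.self_mem {e : ℕ} {a : Fin n} {o i : ℕ} {X : Finset (Fact n D)}
    {Y : Finset (Fin n)} (h : S.EndAt σ e a o i X Y) : a ∈ Y := by
  rw [h.hY]
  unfold outM
  split_ifs with h0
  · exact mem_singleton_self _
  · exact mem_union_left _ ((run_inv S σ e).self_mem a h0)

theorem EndAt.M_le {e : ℕ} {a : Fin n} {o i : ℕ} {X : Finset (Fact n D)} {Y : Finset (Fin n)}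
    (h : S.EndAt σ e a o i X Y) : ((S.run σ e).st a).M ⊆ Y := by
  rw [h.hY]
  unfold outM
  split_ifs with h0
  · rw [(run_inv S σ e).ext_M a h0]
    exact empty_subset _
  · exact subset_union_left

/-- The four possibilities for a processor at time `t`. -/
theorem step_cases (S : Sys n D) (σ : ℕ → Option (Fin n)) (t : ℕ) (p : Fin n) :
    ((S.run σ (t + 1)).st p = (S.run σ t).st p ∧
      (σ t ≠ some p ∨ S.G.O ≤ ((S.run σ t).st p).o)) ∨
    (σ t = some p ∧ ((S.run σ t).st p).o < S.G.O ∧
      ((S.run σ t).st p).pos < ((S.run σ t).st p).T.length ∧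
      (S.run σ (t + 1)).st p = wr ((S.run σ t).st p)) ∨
    (σ t = some p ∧ ((S.run σ t).st p).o < S.G.O ∧
      ((S.run σ t).st p).T.length ≤ ((S.run σ t).st p).pos ∧
      ((S.run σ t).st p).pos + 1 < 2 * ((S.run σ t).st p).T.length ∧
      (S.run σ (t + 1)).st p = { (S.run σ t).st p with
        pos := ((S.run σ t).st p).pos + 1
        accK := ((S.run σ t).st p).accK ∪ ((S.run σ t).mem (partner p ((S.run σ t).st p)) p
          ((S.run σ t).st p).o (S.G.chan ((S.run σ t).st p).i)).2
        accM := ((S.run σ t).st p).accM ∪ ((S.run σ t).mem (partner p ((S.run σ t).st p)) p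
          ((S.run σ t).st p).o (S.G.chan ((S.run σ t).st p).i)).1 }) ∨
    (∃ X Y, S.EndAt σ t p ((S.run σ t).st p).o ((S.run σ t).st p).i X Y) := by
  by_cases hs : σ t = some p
  · by_cases ho : S.G.O ≤ ((S.run σ t).st p).o
    · left
      refine ⟨?_, Or.inr ho⟩
      rw [p2_run_some S hs, p2_step_idle S p _ ho]
    · have ho : ((S.run σ t).st p).o < S.G.O := by omega
      by_cases hw : ((S.run σ t).st p).pos < ((S.run σ t).st p).T.length
      · right; left
        refine ⟨hs, ho, hw, ?_⟩
        rw [p2_run_some S hs, p2_st_write S p _ ho hw]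
      · by_cases hl : ((S.run σ t).st p).pos + 1 < 2 * ((S.run σ t).st p).T.length
        · right; right; left
          refine ⟨hs, ho, by omega, hl, ?_⟩
          rw [p2_run_some S hs, p2_st_read S p _ ho hw, rd, if_pos hl]
        · right; right; right
          have hp := (run_inv S σ t).pos p
          exact ⟨_, _, hs, ho, rfl, rfl, by omega, rfl, rfl⟩
  · left
    refine ⟨?_, Or.inl hs⟩
    cases h : σ t with
    | none => rw [p2_run_none S h]
    | some q =>
      rw [p2_run_some S h, p2_st_ne]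
      rintro rfl
      exact hs h

/-- Either the pass goes on, or it ends. -/
theorem same_or_end (S : Sys n D) (σ : ℕ → Option (Fin n)) (t : ℕ) (p : Fin n) :
    (((S.run σ (t + 1)).st p).o = ((S.run σ t).st p).o ∧
      ((S.run σ (t + 1)).st p).i = ((S.run σ t).st p).i ∧
      ((S.run σ (t + 1)).st p).d = ((S.run σ t).st p).d ∧
      ((S.run σ (t + 1)).st p).K = ((S.run σ t).st p).K ∧
      ((S.run σ (t + 1)).st p).M = ((S.run σ t).st p).M ∧
      ((S.run σ (t + 1)).st p).T = ((S.run σ t).st p).T) ∨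
    (∃ X Y, S.EndAt σ t p ((S.run σ t).st p).o ((S.run σ t).st p).i X Y) := by
  rcases step_cases S σ t p with h | h | h | h
  · left; rw [h.1]; simp
  · left; rw [h.2.2.2]; simp [wr]
  · left; rw [h.2.2.2.2]; simp
  · right; exact h

end Sys

end Pool.Agent.Q217
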