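import Pool.Agent.MP217Two.PSkel

set_option autoImplicit false

/-!
# Erasing the data
-/

namespace Pool.Agent.Q217

open Finset

attribute [local instance 10] Classical.propDecidable

variable {n : ℕ} {D : Type}

namespace Sys

/-- Erase the data of a fact. -/
private def erF : Fact n D → Fact n Unit
  | .done a o i T => .done a o i T
  | .lab a o i _ => .lab a o i ()

private theorem erF_done {K : Finset (Fact n D)} {a : Fin n} {o i : ℕ} {T : List (Fin n)} :
    Fact.done a o i T ∈ K.image erF ↔ Fact.done a o i T ∈ K := by
  rw [mem_image]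
  constructor
  · rintro ⟨f, hf, he⟩
    cases f with
    | done a' o' i' T' =>
      simp only [erF, Fact.done.injEq] at he
      obtain ⟨rfl, rfl, rfl, rfl⟩ := he
      exact hf
    | lab a' o' i' d => simp [erF] at he
  · intro h
    exact ⟨_, h, rfl⟩

private theorem erF_lab {K : Finset (Fact n D)} {a : Fin n} {o i : ℕ} :
    Fact.lab a o i () ∈ K.image erF ↔ ∃ d, Fact.lab a o i d ∈ K := by
  rw [mem_image]
  constructor
  · rintro ⟨f, hf, he⟩
    cases f with
    | done a' o' i' T' => simp [erF] at he
    | lab a' o' i' d =>
      simp only [erF, Fact.lab.injEq, and_true] at he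
      obtain ⟨rfl, rfl, rfl⟩ := he
      exact ⟨d, hf⟩
  · rintro ⟨d, hd⟩
    exact ⟨_, hd, rfl⟩

/-- Erase the data of a local state. -/
private noncomputable def erS (s : LSt n D) : LSt n Unit where
  o := s.o
  i := s.i
  d := ()
  K := s.K.image erF
  M := s.M
  T := s.T
  pos := s.pos
  accK := s.accK.image erF
  accM := s.accM

/-- Erase the data of a configuration. -/
private noncomputable def erC (C : Cfg n D) : Cfg n Unit :=
  ⟨fun p => erS (C.st p), fun w x o ch => ((C.mem w x o ch).1, (C.mem w x o ch).2.image erF)⟩

private theorem er_outK (p : Fin n) (s : LSt n D) (m : Finset (Fact n D)) :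
    outK p (erS s) (m.image erF) = (outK p s m).image erF := by
  unfold outK
  rw [image_insert, image_union, image_union]
  rfl

private theorem er_beg (S : Sys n D) (p : Fin n) (o i : ℕ) (d : D) (K : Finset (Fact n D))
    (M : Finset (Fin n)) :
    erS (S.beg p o i d K M) = (noData S.G S.b S.sd).beg p o i () (K.image erF) M := by
  unfold erS beg
  simp only [image_insert, image_empty]
  rfl

private theorem er_unc (S : Sys n D) (ν o l : ℕ) (M : Finset (Fin n)) (K : Finset (Fact n D)) :
    (noData S.G S.b S.sd).unc ν o l M (K.image erF) = S.unc ν o l M K := by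
  unfold unc
  simp only [erF_done]
  rfl

private theorem er_cert (S : Sys n D) (o l : ℕ) (M : Finset (Fin n)) (K : Finset (Fact n D)) :
    (noData S.G S.b S.sd).cert o l M (K.image erF) ↔ S.cert o l M K := by
  unfold cert
  simp only [er_unc]
  rfl

private theorem er_fin (S : Sys n D) (p : Fin n) (s : LSt n D) (X : Finset (Fact n D))
    (Y : Finset (Fin n)) :
    (noData S.G S.b S.sd).fin p (erS s) (X.image erF) Y = erS (S.fin p s X Y) := by
  unfold fin
  by_cases h1 : S.G.tick s.i = S.G.tk
  · have h1' : (noData S.G S.b S.sd).G.tick (erS s).i = (noData S.G S.b S.sd).G.tk := h1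
    rw [if_pos h1, if_pos h1']
    by_cases h2 : S.cert s.o (S.G.lvl s.i) Y X
    · have h2' : (noData S.G S.b S.sd).cert (erS s).o ((noData S.G S.b S.sd).G.lvl (erS s).i) Y
        (X.image erF) := (er_cert S s.o (S.G.lvl s.i) Y X).2 h2
      rw [if_pos h2, if_pos h2', er_beg]
      rfl
    · have h2' : ¬ (noData S.G S.b S.sd).cert (erS s).o ((noData S.G S.b S.sd).G.lvl (erS s).i) Y
        (X.image erF) := fun h => h2 ((er_cert S s.o (S.G.lvl s.i) Y X).1 h)
      rw [if_neg h2, if_neg h2', er_beg]
      rfl
  · have h1' : ¬ (noData S.G S.b S.sd).G.tick (erS s).i = (noData S.G S.b S.sd).G.tk := h1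
    rw [if_neg h1, if_neg h1', er_beg]
    rfl

private theorem er_rd (S : Sys n D) (p : Fin n) (s : LSt n D)
    (m : Finset (Fin n) × Finset (Fact n D)) :
    (noData S.G S.b S.sd).rd p (erS s) (m.1, m.2.image erF) = erS (S.rd p s m) := by
  unfold rd
  by_cases h1 : s.pos + 1 < 2 * s.T.length
  · have h1' : (erS s).pos + 1 < 2 * (erS s).T.length := h1
    rw [if_pos h1, if_pos h1']
    unfold erS
    simp only [image_union]
  · have h1' : ¬ (erS s).pos + 1 < 2 * (erS s).T.length := h1
    rw [if_neg h1, if_neg h1', ← er_fin, er_outK]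
    rfl

private theorem er_step (S : Sys n D) (p : Fin n) (C : Cfg n D) :
    (noData S.G S.b S.sd).step p (erC C) = erC (S.step p C) := by
  unfold step
  by_cases h1 : S.G.O ≤ (C.st p).o
  · have h1' : (noData S.G S.b S.sd).G.O ≤ ((erC C).st p).o := h1
    rw [if_pos h1, if_pos h1']
  · have h1' : ¬ (noData S.G S.b S.sd).G.O ≤ ((erC C).st p).o := h1
    rw [if_neg h1, if_neg h1']
    by_cases h2 : (C.st p).pos < (C.st p).T.length
    · have h2' : ((erC C).st p).pos < ((erC C).st p).T.length := h2
      rw [if_pos h2, if_pos h2']
      unfold erC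
      simp only [Cfg.mk.injEq]
      refine ⟨?_, ?_⟩
      · funext q
        by_cases hq : q = p
        · subst hq
          simp only [Function.update_self]
          rfl
        · simp only [Function.update_of_ne hq]
      · funext w x o ch
        by_cases hc : w = p ∧ x = partner p (C.st p) ∧ o = (C.st p).o ∧ ch = S.G.chan (C.st p).i
        · rw [if_pos hc]
          exact if_pos hc
        · rw [if_neg hc]
          exact if_neg hc
    · have h2' : ¬ ((erC C).st p).pos < ((erC C).st p).T.length := h2
      rw [if_neg h2, if_neg h2']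
      unfold erC
      simp only [Cfg.mk.injEq, and_true]
      funext q
      by_cases hq : q = p
      · subst hq
        simp only [Function.update_self]
        rw [← er_rd]
        rfl
      · simp only [Function.update_of_ne hq]

private theorem er_run (S : Sys n D) (σ : ℕ → Option (Fin n)) (t : ℕ) :
    (noData S.G S.b S.sd).run σ t = erC (S.run σ t) := by
  induction t with
  | zero =>
    change (noData S.G S.b S.sd).init = erC S.init
    unfold init erC
    simp only [Cfg.mk.injEq]
    refine ⟨?_, ?_⟩
    · funext p
      rw [er_beg, image_empty]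
    · funext w x o ch
      rw [image_empty]
  | succ t ih =>
    unfold run
    cases hs : σ t with
    | none => exact ih
    | some p =>
      change (noData S.G S.b S.sd).step p ((noData S.G S.b S.sd).run σ t) =
        erC (S.step p (S.run σ t))
      rw [ih, er_step]

/-- Erasing the data does not change the times. -/
theorem erase_at (S : Sys n D) (σ : ℕ → Option (Fin n)) (t : ℕ) (p : Fin n) (o i : ℕ) :
    S.At σ t p o i ↔ (noData S.G S.b S.sd).At σ t p o i := by
  unfold At
  rw [er_run]
  rfl

/-- Erasing the data does not change who knows whose labels. -/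
theorem erase_lab (S : Sys n D) (σ : ℕ → Option (Fin n)) (t : ℕ) (p a : Fin n) (o i : ℕ) :
    (∃ d, Fact.lab a o i d ∈ ((S.run σ t).st p).K) ↔
      Fact.lab a o i () ∈ (((noData S.G S.b S.sd).run σ t).st p).K := by
  rw [er_run]
  exact erF_lab.symm

end Sys

end Pool.Agent.Q217
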