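import Pool.Agent.MP217Two.PRead
import Pool.Agent.MP217Two.Lists

set_option autoImplicit false

/-!
# Few processors finish a level with a small team
-/

namespace Pool.Agent.Q217

open Finset
open Pool.Agent.P217 (typ Lvl)

attribute [local instance 10] Classical.propDecidable

variable {n : ℕ} {D : Type}

namespace Sys

variable {S : Sys n D} {σ : ℕ → Option (Fin n)}

private theorem fw_lvl {G : Geo n} {l j : ℕ} (hl : l ≤ G.L) (hj : j ≤ G.tk) :
    G.lvl (G.start l + j) = l := by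
  unfold Geo.lvl Geo.start
  have h1 : ((G.L - l) * (G.tk + 1) + j) / (G.tk + 1) = G.L - l := by
    rw [mul_comm, Nat.mul_add_div (by omega), Nat.div_eq_of_lt (by omega), add_zero]
  rw [h1]
  omega

private theorem fw_tick {G : Geo n} {l j : ℕ} (hj : j ≤ G.tk) :
    G.tick (G.start l + j) = j := by
  unfold Geo.tick Geo.start
  rw [mul_comm, Nat.mul_add_mod, Nat.mod_eq_of_lt (by omega)]

/-- All passes of the level are finished. -/
private theorem fw_ends {e : ℕ} {p : Fin n} {o l : ℕ} {X : Finset (Fact n D)}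
    {Y : Finset (Fin n)} (h : S.EndAt σ e p o (S.G.start l + S.G.tk) X Y) {t : ℕ}
    (ht : t ≤ S.G.tk) : ∃ e' X' Y', S.EndAt σ e' p o (S.G.start l + t) X' Y' := by
  rcases Nat.lt_or_ge t S.G.tk with h1 | h1
  · obtain ⟨t', -, h2⟩ := at_down h.at (j := S.G.start l + t + 1) (by omega)
    obtain ⟨e', -, X', Y', h3, -⟩ := prev_pass h2
    exact ⟨e', X', Y', h3⟩
  · have h2 : t = S.G.tk := by omega
    subst h2
    exact ⟨e, X, Y, h⟩

/-- The targets of the ticks. -/
private theorem fw_mem {o l P : ℕ} (hl : l ≤ S.G.L) (hP1 : 1 ≤ P) (hP2 : P ≤ 2 ^ S.G.I)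
    {c d : Fin n} (h : d ∈ S.G.TL l (typ S.G.I P) c) :
    d ∈ S.lst c o (S.G.start l + P) := by
  have hPt : P ≤ S.G.tk := hP2
  unfold Sys.lst Geo.lst
  rw [fw_tick hPt, fw_lvl hl hPt, if_neg (by omega), mem_toList]
  exact h

theorem few (hG : S.G.Good) (o : ℕ) {l : ℕ} (hl : l ≤ S.G.L) :
    (univ.filter fun p => ∃ e X Y, S.EndAt σ e p o (S.G.start l + S.G.tk) X Y ∧
      Y.card < S.G.B l).card ≤ S.G.Nc * 2 ^ l := by
  obtain ⟨S0, hS0⟩ : ∃ S0 : Finset (Fin n), S0 = univ.filter fun p => ∃ e X Y,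
      S.EndAt σ e p o (S.G.start l + S.G.tk) X Y ∧ Y.card < S.G.B l := ⟨_, rfl⟩
  rw [← hS0]
  have hex : ∀ (p : Fin n) (t : ℕ), ∃ (e : ℕ) (X : Finset (Fact n D)) (Y : Finset (Fin n)),
      p ∈ S0 → t ≤ S.G.tk → S.EndAt σ e p o (S.G.start l + t) X Y := by
    intro p t
    by_cases h : p ∈ S0 ∧ t ≤ S.G.tk
    · have hp := h.1
      rw [hS0, mem_filter] at hp
      obtain ⟨e, X, Y, h1, -⟩ := hp.2
      obtain ⟨e', X', Y', h2⟩ := fw_ends h1 h.2
      exact ⟨e', X', Y', fun _ _ => h2⟩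
    · exact ⟨0, ∅, ∅, fun h1 h2 => absurd ⟨h1, h2⟩ h⟩
  choose τ XX YY hE using hex
  -- the teams
  have hM : ∀ p ∈ S0, ∀ t, t + 1 ≤ S.G.tk →
      ((S.run σ (τ p (t + 1))).st p).M = YY p t := by
    intro p hp t ht
    have h1 : S.At σ (τ p (t + 1)) p o (S.G.start l + t + 1) := (hE p (t + 1) hp ht).at
    obtain ⟨e', -, X', Y', h3, -, -, h4, -⟩ := prev_pass h1
    rw [h4, if_neg (by rw [fw_tick (by omega)]; omega)]
    exact (h3.unique (hE p t hp (by omega))).2.2
  have hYs : ∀ p ∈ S0, ∀ t, t + 1 ≤ S.G.tk → YY p t ⊆ YY p (t + 1) := by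
    intro p hp t ht
    rw [← hM p hp t ht]
    exact (hE p (t + 1) hp ht).M_le
  have hYc : ∀ p ∈ S0, (YY p S.G.tk).card < S.G.B l := by
    intro p hp
    have hp' := hp
    rw [hS0, mem_filter] at hp'
    obtain ⟨e, X, Y, h1, h2⟩ := hp'.2
    rw [(hE p S.G.tk hp le_rfl).unique h1 |>.2.2]
    exact h2
  exact hG.few l hl
    { S := S0
      I := S.G.I
      M := YY
      TL := S.G.TL l
      self := fun p hp => (hE p 0 hp (Nat.zero_le _)).self_mem
      mono := fun p hp t ht => hYs p hp t ht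
      anti := fun i j p h => S.G.TL_anti l i j p h
      dekker := by
        intro p hp q hq _ t t' ht1 ht2 ht1' ht2' hqp hpq
        have ht3 : t ≤ S.G.tk := ht2
        have ht3' : t' ≤ S.G.tk := ht2'
        have e1 := hE p t hp ht3
        have e2 := hE q t' hq ht3'
        have h1 := dekker_tick e1 e2 (by rw [fw_tick ht3]; omega) (by rw [fw_tick ht3']; omega)
          (by rw [fw_lvl hl ht3, fw_lvl hl ht3']) (fw_mem hl ht1 ht2 hqp)
          (fw_mem hl ht1' ht2' hpq)
        have h2 := hM p hp (t - 1) (by omega)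
        rw [show t - 1 + 1 = t by omega] at h2
        have h3 := hM q hq (t' - 1) (by omega)
        rw [show t' - 1 + 1 = t' by omega] at h3
        rw [h2, h3] at h1
        exact h1 }
    rfl rfl hYc

end Sys

end Pool.Agent.Q217
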