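import Pool.Agent.MP217Two.Lists

set_option autoImplicit false

/-!
# The protocol: invariants
-/

namespace Pool.Agent.Q217

open Finset

attribute [local instance 10] Classical.propDecidable

variable {n : ℕ} {D : Type}

namespace Sys

/-- The basic invariants of a configuration. -/
structure Inv (S : Sys n D) (C : Cfg n D) : Prop where
  tgt : ∀ p, (C.st p).T = S.lst p (C.st p).o (C.st p).i
  pos : ∀ p, (C.st p).pos < 2 * (C.st p).T.length
  oi : ∀ p, (C.st p).o < S.G.O ∨ ((C.st p).i = 0 ∧ (C.st p).pos = 0)
  ile : ∀ p, (C.st p).i < (S.G.L + 1) * (S.G.tk + 1)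
  lab : ∀ p, Fact.lab p (C.st p).o (C.st p).i (C.st p).d ∈ (C.st p).K
  self_mem : ∀ p, S.G.tick (C.st p).i ≠ 0 → p ∈ (C.st p).M
  ext_M : ∀ p, S.G.tick (C.st p).i = 0 → (C.st p).M = ∅
  mem_le : ∀ w x o ch, (C.mem w x o ch).2 ⊆ (C.st w).K
  mem_ext : ∀ w x o, (C.mem w x o 0).1 = ∅
  written : ∀ p idx, idx < (C.st p).pos → idx < (C.st p).T.length →
    C.mem p ((C.st p).T.getD idx p) (C.st p).o (S.G.chan (C.st p).i) =
      ((C.st p).M, (C.st p).K)

variable (S : Sys n D) (σ : ℕ → Option (Fin n))

/-! ### private lemmas on single steps -/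

private theorem p1_step_idle (p : Fin n) (C : Cfg n D) (h : S.G.O ≤ (C.st p).o) :
    S.step p C = C := by
  unfold step
  rw [if_pos h]

private theorem p1_st_ne (p : Fin n) (C : Cfg n D) {q : Fin n} (h : q ≠ p) :
    (S.step p C).st q = C.st q := by
  unfold step
  split_ifs <;> simp [Function.update_of_ne h]

private theorem p1_mem_ne (p : Fin n) (C : Cfg n D) {q : Fin n} (h : q ≠ p) (x : Fin n)
    (o ch : ℕ) : (S.step p C).mem q x o ch = C.mem q x o ch := by
  unfold step
  split_ifs with h1 h2
  · rfl
  · show (if q = p ∧ _ then _ else _) = _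
    rw [if_neg (fun h' => h h'.1)]
  · rfl

private theorem p1_st_write (p : Fin n) (C : Cfg n D) (ho : (C.st p).o < S.G.O)
    (h : (C.st p).pos < (C.st p).T.length) : (S.step p C).st p = wr (C.st p) := by
  unfold step
  rw [if_neg (by omega), if_pos h]
  simp

private theorem p1_mem_write (p : Fin n) (C : Cfg n D) (ho : (C.st p).o < S.G.O)
    (h : (C.st p).pos < (C.st p).T.length) (w x : Fin n) (o ch : ℕ) :
    (S.step p C).mem w x o ch =
      if w = p ∧ x = partner p (C.st p) ∧ o = (C.st p).o ∧ ch = S.G.chan (C.st p).i then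
        ((C.st p).M, (C.st p).K) else C.mem w x o ch := by
  unfold step
  rw [if_neg (by omega), if_pos h]

private theorem p1_st_read (p : Fin n) (C : Cfg n D) (ho : (C.st p).o < S.G.O)
    (h : ¬ (C.st p).pos < (C.st p).T.length) :
    (S.step p C).st p = S.rd p (C.st p)
      (C.mem (partner p (C.st p)) p (C.st p).o (S.G.chan (C.st p).i)) := by
  unfold step
  rw [if_neg (by omega), if_neg h]
  simp

private theorem p1_mem_read (p : Fin n) (C : Cfg n D)
    (h : ¬ (C.st p).pos < (C.st p).T.length) :
    (S.step p C).mem = C.mem := by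
  unfold step
  rw [if_neg h]
  split_ifs <;> rfl

private theorem p1_fin_K (p : Fin n) (s : LSt n D) (X : Finset (Fact n D))
    (Y : Finset (Fin n)) : X ⊆ (S.fin p s X Y).K := by
  unfold fin
  split_ifs <;> exact subset_insert _ _

private theorem p1_fin_pos (p : Fin n) (s : LSt n D) (X : Finset (Fact n D))
    (Y : Finset (Fin n)) : (S.fin p s X Y).pos = 0 := by
  unfold fin
  split_ifs <;> rfl

private theorem p1_fin_lab (p : Fin n) (s : LSt n D) (X : Finset (Fact n D))
    (Y : Finset (Fin n)) :
    Fact.lab p (S.fin p s X Y).o (S.fin p s X Y).i (S.fin p s X Y).d ∈ (S.fin p s X Y).K := by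
  unfold fin
  split_ifs <;> exact mem_insert_self _ _

private theorem p1_fin_T (p : Fin n) (s : LSt n D) (X : Finset (Fact n D))
    (Y : Finset (Fin n)) :
    (S.fin p s X Y).T = S.lst p (S.fin p s X Y).o (S.fin p s X Y).i := by
  unfold fin
  split_ifs <;> rfl

/-- the three cases of the end of a pass -/
private theorem p1_fin_cases (p : Fin n) (s : LSt n D) (X : Finset (Fact n D))
    (Y : Finset (Fin n)) :
    ((S.fin p s X Y).o = s.o + 1 ∧ (S.fin p s X Y).i = 0 ∧ (S.fin p s X Y).M = ∅) ∨
    ((S.fin p s X Y).o = s.o ∧ (S.fin p s X Y).i = s.i + 1 ∧ (S.fin p s X Y).M = ∅ ∧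
      S.G.tick s.i = S.G.tk ∧ S.G.lvl s.i ≠ 0) ∨
    ((S.fin p s X Y).o = s.o ∧ (S.fin p s X Y).i = s.i + 1 ∧ (S.fin p s X Y).M = Y ∧
      S.G.tick s.i ≠ S.G.tk) := by
  by_cases h1 : S.G.tick s.i = S.G.tk
  · by_cases h2 : S.cert s.o (S.G.lvl s.i) Y X
    · left
      unfold fin
      rw [if_pos h1, if_pos h2]
      exact ⟨rfl, rfl, rfl⟩
    · right; left
      have h3 : S.G.lvl s.i ≠ 0 := fun h => h2 (Or.inl h)
      unfold fin
      rw [if_pos h1, if_neg h2]
      exact ⟨rfl, rfl, rfl, h1, h3⟩
  · right; right
    unfold fin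
    rw [if_neg h1]
    exact ⟨rfl, rfl, rfl, h1⟩

private theorem p1_tick_zero : S.G.tick 0 = 0 := Nat.zero_mod _

private theorem p1_tick_last {i : ℕ} (h : S.G.tick i = S.G.tk) : S.G.tick (i + 1) = 0 := by
  unfold Geo.tick at h ⊢
  rw [Nat.add_mod, h]
  have h1 : 1 % (S.G.tk + 1) = 1 := by
    have : 0 < S.G.tk := by unfold Geo.tk; positivity
    exact Nat.mod_eq_of_lt (by omega)
  rw [h1, Nat.mod_self]

private theorem p1_tick_succ {i : ℕ} (h : S.G.tick i ≠ S.G.tk) :
    S.G.tick (i + 1) = S.G.tick i + 1 := by
  unfold Geo.tick at h ⊢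
  have hlt : i % (S.G.tk + 1) < S.G.tk + 1 := Nat.mod_lt _ (by omega)
  have h1 : 1 % (S.G.tk + 1) = 1 := by
    have : 0 < S.G.tk := by unfold Geo.tk; positivity
    exact Nat.mod_eq_of_lt (by omega)
  rw [Nat.add_mod, h1, Nat.mod_eq_of_lt (by omega)]

private theorem p1_lvl_succ {i : ℕ} (h : S.G.tick i ≠ S.G.tk) :
    S.G.lvl (i + 1) = S.G.lvl i := by
  unfold Geo.tick at h
  unfold Geo.lvl
  have hlt : i % (S.G.tk + 1) < S.G.tk + 1 := Nat.mod_lt _ (by omega)
  have hd : (i + 1) / (S.G.tk + 1) = i / (S.G.tk + 1) := by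
    have h2 := Nat.div_add_mod i (S.G.tk + 1)
    apply Nat.div_eq_of_lt_le
    · have := Nat.div_mul_le_self i (S.G.tk + 1)
      omega
    · have : i + 1 < (S.G.tk + 1) * (i / (S.G.tk + 1)) + (S.G.tk + 1) := by omega
      calc i + 1 < (S.G.tk + 1) * (i / (S.G.tk + 1)) + (S.G.tk + 1) := this
        _ = (i / (S.G.tk + 1) + 1) * (S.G.tk + 1) := by ring
  rw [hd]

private theorem p1_lvl_last {i : ℕ} (h : S.G.tick i = S.G.tk) (h0 : S.G.lvl i ≠ 0) :
    S.G.lvl (i + 1) + 1 = S.G.lvl i := by
  unfold Geo.tick at h
  unfold Geo.lvl at h0 ⊢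
  have hd : (i + 1) / (S.G.tk + 1) = i / (S.G.tk + 1) + 1 := by
    have h2 := Nat.div_add_mod i (S.G.tk + 1)
    apply Nat.div_eq_of_lt_le
    · have : (i / (S.G.tk + 1) + 1) * (S.G.tk + 1) =
          (S.G.tk + 1) * (i / (S.G.tk + 1)) + (S.G.tk + 1) := by ring
      omega
    · have : (i / (S.G.tk + 1) + 1 + 1) * (S.G.tk + 1) =
          (S.G.tk + 1) * (i / (S.G.tk + 1)) + (S.G.tk + 1) + (S.G.tk + 1) := by ring
      omega
  rw [hd]
  omega

private theorem p1_ile_succ {i : ℕ} (hi : i < (S.G.L + 1) * (S.G.tk + 1))
    (h : S.G.tick i ≠ S.G.tk ∨ S.G.lvl i ≠ 0) : i + 1 < (S.G.L + 1) * (S.G.tk + 1) := by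
  have h2 := Nat.div_add_mod i (S.G.tk + 1)
  have hlt : i % (S.G.tk + 1) < S.G.tk + 1 := Nat.mod_lt _ (by omega)
  have hq : i / (S.G.tk + 1) < S.G.L + 1 := Nat.div_lt_of_lt_mul (by rw [mul_comm]; exact hi)
  rcases h with h | h
  · unfold Geo.tick at h
    have h3 : (S.G.tk + 1) * (i / (S.G.tk + 1) + 1) ≤ (S.G.tk + 1) * (S.G.L + 1) :=
      Nat.mul_le_mul_left _ (by omega)
    rw [mul_comm (S.G.L + 1)]
    have h4 : (S.G.tk + 1) * (i / (S.G.tk + 1) + 1) =
        (S.G.tk + 1) * (i / (S.G.tk + 1)) + (S.G.tk + 1) := by ring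
    omega
  · unfold Geo.lvl at h
    have h3 : (S.G.tk + 1) * (i / (S.G.tk + 1) + 2) ≤ (S.G.tk + 1) * (S.G.L + 1) :=
      Nat.mul_le_mul_left _ (by omega)
    rw [mul_comm (S.G.L + 1)]
    have h4 : (S.G.tk + 1) * (i / (S.G.tk + 1) + 2) =
        (S.G.tk + 1) * (i / (S.G.tk + 1)) + (S.G.tk + 1) + (S.G.tk + 1) := by ring
    omega

theorem lst_length_pos (p : Fin n) (o i : ℕ) : 0 < (S.lst p o i).length :=
  S.G.lst_length_pos p i _

private theorem p1_K_step (p q : Fin n) (C : Cfg n D) :
    (C.st q).K ⊆ ((S.step p C).st q).K := by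
  by_cases h : q = p
  · subst h
    by_cases ho : S.G.O ≤ (C.st q).o
    · rw [p1_step_idle S q C ho]
    · have ho : (C.st q).o < S.G.O := by omega
      by_cases hw : (C.st q).pos < (C.st q).T.length
      · rw [p1_st_write S q C ho hw]
        exact Subset.rfl
      · rw [p1_st_read S q C ho hw]
        unfold rd
        split_ifs
        · exact Subset.rfl
        · refine Subset.trans ?_ (p1_fin_K S _ _ _ _)
          unfold outK
          exact subset_union_left.trans (subset_insert _ _)
  · rw [p1_st_ne S p C h]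

/-- the channel `ch` of object `o` is not yet reached by a processor in pass `i0` of object `o0` -/
private def P1Fut (S : Sys n D) (o0 i0 o ch : ℕ) : Prop :=
  o0 < o ∨ (o = o0 ∧ ∃ l, ch = l + 1 ∧ (l < S.G.lvl i0 ∨ (l = S.G.lvl i0 ∧ S.G.tick i0 = 0)))

private structure P1Inv (S : Sys n D) (C : Cfg n D) : Prop extends Inv S C where
  cur : ∀ w x, (C.mem w x (C.st w).o (S.G.chan (C.st w).i)).1 ⊆ (C.st w).M
  fut : ∀ w x o ch, P1Fut S (C.st w).o (C.st w).i o ch → (C.mem w x o ch).1 = ∅

private theorem p1_beg_inv (p : Fin n) (d : D) :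
    0 < 2 * (S.beg p 0 0 d ∅ ∅).T.length := by
  have := S.lst_length_pos p 0 0
  show 0 < 2 * (S.lst p 0 0).length
  omega

private theorem p1_init : P1Inv S S.init where
  tgt p := rfl
  pos p := p1_beg_inv S p _
  oi p := Or.inr ⟨rfl, rfl⟩
  ile p := by
    show 0 < _
    positivity
  lab p := mem_insert_self _ _
  self_mem p h := absurd (p1_tick_zero S) h
  ext_M p h := rfl
  mem_le w x o ch := empty_subset _
  mem_ext w x o := rfl
  written p idx h := absurd h (Nat.not_lt_zero _)
  cur w x := empty_subset _
  fut w x o ch h := rfl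

private theorem p1_write {C : Cfg n D} (hC : P1Inv S C) (p : Fin n)
    (ho : (C.st p).o < S.G.O) (hw : (C.st p).pos < (C.st p).T.length) :
    P1Inv S (S.step p C) := by
  have hst : ∀ q, q ≠ p → (S.step p C).st q = C.st q := fun q h => p1_st_ne S p C h
  have hp := p1_st_write S p C ho hw
  have hmp := p1_mem_write S p C ho hw
  have hmon := fun q => p1_K_step S p q C
  have ho' : ∀ q, ((S.step p C).st q).o = (C.st q).o := by
    intro q
    by_cases h : q = p
    · subst h; rw [hp]; rfl
    · rw [hst q h]
  have hi' : ∀ q, ((S.step p C).st q).i = (C.st q).i := by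
    intro q
    by_cases h : q = p
    · subst h; rw [hp]; rfl
    · rw [hst q h]
  have hM' : ∀ q, ((S.step p C).st q).M = (C.st q).M := by
    intro q
    by_cases h : q = p
    · subst h; rw [hp]; rfl
    · rw [hst q h]
  have hK' : ∀ q, ((S.step p C).st q).K = (C.st q).K := by
    intro q
    by_cases h : q = p
    · subst h; rw [hp]; rfl
    · rw [hst q h]
  have hT' : ∀ q, ((S.step p C).st q).T = (C.st q).T := by
    intro q
    by_cases h : q = p
    · subst h; rw [hp]; rfl
    · rw [hst q h]
  have hd' : ∀ q, ((S.step p C).st q).d = (C.st q).d := by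
    intro q
    by_cases h : q = p
    · subst h; rw [hp]; rfl
    · rw [hst q h]
  constructor
  · constructor
    · intro q
      rw [hT', ho', hi']
      exact hC.tgt q
    · intro q
      by_cases h : q = p
      · subst h; rw [hp]; simp only [wr]; omega
      · rw [hst q h]; exact hC.pos q
    · intro q
      by_cases h : q = p
      · subst h; left; rw [ho']; exact ho
      · rw [hst q h]; exact hC.oi q
    · intro q
      rw [hi']
      exact hC.ile q
    · intro q
      rw [ho', hi', hd', hK']
      exact hC.lab q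
    · intro q
      rw [hi', hM']
      exact hC.self_mem q
    · intro q
      rw [hi', hM']
      exact hC.ext_M q
    · intro w x o ch
      rw [hmp, hK']
      split_ifs with h
      · rw [h.1]
      · exact hC.mem_le w x o ch
    · intro w x o
      rw [hmp]
      split_ifs with h
      · have h1 : S.G.tick (C.st p).i = 0 := by
          by_contra h2
          have h3 := h.2.2.2
          unfold Geo.chan at h3
          rw [if_neg h2] at h3
          omega
        exact hC.ext_M p h1
      · exact hC.mem_ext w x o
    · intro q idx h1 h2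
      rw [ho', hi', hM', hK']
      rw [hT'] at h2 ⊢
      rw [hmp]
      by_cases h : q = p
      · subst h
        split_ifs with hx
        · rfl
        · rw [hp] at h1
          simp only [wr] at h1
          apply hC.written q idx _ h2
          by_contra hcon
          have hidx : idx = (C.st q).pos := by omega
          subst hidx
          apply hx
          refine ⟨rfl, ?_, rfl, rfl⟩
          unfold partner
          rw [if_pos hw]
      · rw [if_neg (fun h' => h h'.1)]
        rw [hst q h] at h1
        exact hC.written q idx h1 h2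
  · intro w x
    rw [hmp, ho', hi', hM']
    split_ifs with h
    · rw [h.1]
    · exact hC.cur w x
  · intro w x o ch hf
    rw [ho', hi'] at hf
    rw [hmp]
    split_ifs with h
    · exfalso
      obtain ⟨h1, h2, h3, h4⟩ := h
      subst h1
      rcases hf with hf | ⟨_, l, hl, hf⟩
      · omega
      · rw [h4] at hl
        unfold Geo.chan at hl
        split_ifs at hl with h5
        rcases hf with hf | hf
        · omega
        · exact h5 hf.2
    · exact hC.fut w x o ch hf

private theorem p1_read {C : Cfg n D} (hC : P1Inv S C) (p : Fin n)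
    (ho : (C.st p).o < S.G.O) (hw : ¬ (C.st p).pos < (C.st p).T.length)
    (hlast : (C.st p).pos + 1 < 2 * (C.st p).T.length) :
    P1Inv S (S.step p C) := by
  have hst : ∀ q, q ≠ p → (S.step p C).st q = C.st q := fun q h => p1_st_ne S p C h
  have hp := p1_st_read S p C ho hw
  rw [rd, if_pos hlast] at hp
  have hmp := p1_mem_read S p C hw
  have hmon := fun q => p1_K_step S p q C
  have ho' : ∀ q, ((S.step p C).st q).o = (C.st q).o := by
    intro q
    by_cases h : q = p
    · subst h; rw [hp]
    · rw [hst q h]
  have hi' : ∀ q, ((S.step p C).st q).i = (C.st q).i := by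
    intro q
    by_cases h : q = p
    · subst h; rw [hp]
    · rw [hst q h]
  have hM' : ∀ q, ((S.step p C).st q).M = (C.st q).M := by
    intro q
    by_cases h : q = p
    · subst h; rw [hp]
    · rw [hst q h]
  have hK' : ∀ q, ((S.step p C).st q).K = (C.st q).K := by
    intro q
    by_cases h : q = p
    · subst h; rw [hp]
    · rw [hst q h]
  have hT' : ∀ q, ((S.step p C).st q).T = (C.st q).T := by
    intro q
    by_cases h : q = p
    · subst h; rw [hp]
    · rw [hst q h]
  have hd' : ∀ q, ((S.step p C).st q).d = (C.st q).d := by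
    intro q
    by_cases h : q = p
    · subst h; rw [hp]
    · rw [hst q h]
  constructor
  · constructor
    · intro q
      rw [hT', ho', hi']
      exact hC.tgt q
    · intro q
      by_cases h : q = p
      · subst h; rw [hp]; exact hlast
      · rw [hst q h]; exact hC.pos q
    · intro q
      by_cases h : q = p
      · subst h; left; rw [ho']; exact ho
      · rw [hst q h]; exact hC.oi q
    · intro q
      rw [hi']
      exact hC.ile q
    · intro q
      rw [ho', hi', hd', hK']
      exact hC.lab q
    · intro q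
      rw [hi', hM']
      exact hC.self_mem q
    · intro q
      rw [hi', hM']
      exact hC.ext_M q
    · intro w x o ch
      rw [hmp, hK']
      exact hC.mem_le w x o ch
    · intro w x o
      rw [hmp]
      exact hC.mem_ext w x o
    · intro q idx h1 h2
      rw [ho', hi', hM', hK']
      rw [hT'] at h2 ⊢
      rw [hmp]
      by_cases h : q = p
      · subst h
        exact hC.written q idx (by omega) h2
      · rw [hst q h] at h1
        exact hC.written q idx h1 h2
  · intro w x
    rw [hmp, ho', hi', hM']
    exact hC.cur w x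
  · intro w x o ch hf
    rw [ho', hi'] at hf
    rw [hmp]
    exact hC.fut w x o ch hf

private theorem p1_end {C : Cfg n D} (hC : P1Inv S C) (p : Fin n)
    (ho : (C.st p).o < S.G.O) (hw : ¬ (C.st p).pos < (C.st p).T.length)
    (hlast : ¬ (C.st p).pos + 1 < 2 * (C.st p).T.length) :
    P1Inv S (S.step p C) := by
  have hst : ∀ q, q ≠ p → (S.step p C).st q = C.st q := fun q h => p1_st_ne S p C h
  have hp := p1_st_read S p C ho hw
  rw [rd, if_neg hlast] at hp
  have hmp := p1_mem_read S p C hw
  have hmon := fun q => p1_K_step S p q C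
  set X := outK p (C.st p)
    (C.mem (partner p (C.st p)) p (C.st p).o (S.G.chan (C.st p).i)).2 with hX
  set Y := S.outM p (C.st p)
    (C.mem (partner p (C.st p)) p (C.st p).o (S.G.chan (C.st p).i)).1 with hY
  have hYM : (C.st p).M ⊆ Y := by
    rw [hY]
    unfold outM
    split_ifs with h
    · rw [hC.ext_M p h]
      exact empty_subset _
    · exact subset_union_left
  have hYp : p ∈ Y := by
    by_cases h : S.G.tick (C.st p).i = 0
    · rw [hY]
      unfold outM
      rw [if_pos h]
      exact mem_singleton_self _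
    · exact hYM (hC.self_mem p h)
  have hfc := p1_fin_cases S p (C.st p) X Y
  constructor
  · constructor
    · intro q
      by_cases h : q = p
      · subst h; rw [hp]; exact p1_fin_T S _ _ _ _
      · rw [hst q h]; exact hC.tgt q
    · intro q
      by_cases h : q = p
      · subst h
        rw [hp, p1_fin_pos, p1_fin_T]
        have := S.lst_length_pos q (S.fin q (C.st q) X Y).o (S.fin q (C.st q) X Y).i
        omega
      · rw [hst q h]; exact hC.pos q
    · intro q
      by_cases h : q = p
      · subst h
        rw [hp, p1_fin_pos]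
        rcases hfc with hf | hf | hf
        · right; exact ⟨hf.2.1, rfl⟩
        · left; rw [hf.1]; exact ho
        · left; rw [hf.1]; exact ho
      · rw [hst q h]; exact hC.oi q
    · intro q
      by_cases h : q = p
      · subst h
        rw [hp]
        rcases hfc with hf | hf | hf
        · rw [hf.2.1]; positivity
        · rw [hf.2.1]; exact p1_ile_succ S (hC.ile q) (Or.inr hf.2.2.2.2)
        · rw [hf.2.1]; exact p1_ile_succ S (hC.ile q) (Or.inl hf.2.2.2)
      · rw [hst q h]; exact hC.ile q
    · intro q
      by_cases h : q = p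
      · subst h; rw [hp]; exact p1_fin_lab S _ _ _ _
      · rw [hst q h]; exact hC.lab q
    · intro q
      by_cases h : q = p
      · subst h
        rw [hp]
        rcases hfc with hf | hf | hf
        · rw [hf.2.1]
          intro h1
          exact absurd (p1_tick_zero S) h1
        · rw [hf.2.1]
          intro h1
          exact absurd (p1_tick_last S hf.2.2.2.1) h1
        · rw [hf.2.2.1]
          intro _
          exact hYp
      · rw [hst q h]; exact hC.self_mem q
    · intro q
      by_cases h : q = p
      · subst h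
        rw [hp]
        rcases hfc with hf | hf | hf
        · intro _; exact hf.2.2
        · intro _; exact hf.2.2.1
        · rw [hf.2.1, p1_tick_succ S hf.2.2.2]
          intro h1
          omega
      · rw [hst q h]; exact hC.ext_M q
    · intro w x o ch
      rw [hmp]
      exact (hC.mem_le w x o ch).trans (hmon w)
    · intro w x o
      rw [hmp]
      exact hC.mem_ext w x o
    · intro q idx h1 h2
      rw [hmp]
      by_cases h : q = p
      · subst h
        rw [hp, p1_fin_pos] at h1
        exact absurd h1 (Nat.not_lt_zero _)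
      · rw [hst q h] at h1 h2 ⊢
        exact hC.written q idx h1 h2
  · intro w x
    rw [hmp]
    by_cases h : w = p
    · subst h
      rw [hp]
      rcases hfc with hf | hf | hf
      · rw [hf.1, hf.2.1]
        unfold Geo.chan
        rw [if_pos (p1_tick_zero S), hC.mem_ext]
        exact empty_subset _
      · rw [hf.1, hf.2.1]
        unfold Geo.chan
        rw [if_pos (p1_tick_last S hf.2.2.2.1), hC.mem_ext]
        exact empty_subset _
      · rw [hf.1, hf.2.1, hf.2.2.1]
        have h1 : S.G.chan ((C.st w).i + 1) = S.G.lvl (C.st w).i + 1 := by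
          unfold Geo.chan
          rw [if_neg (by rw [p1_tick_succ S hf.2.2.2]; omega), p1_lvl_succ S hf.2.2.2]
        rw [h1]
        by_cases h0 : S.G.tick (C.st w).i = 0
        · rw [hC.fut w x _ _ (Or.inr ⟨rfl, _, rfl, Or.inr ⟨rfl, h0⟩⟩)]
          exact empty_subset _
        · have h2 := hC.cur w x
          unfold Geo.chan at h2
          rw [if_neg h0] at h2
          exact h2.trans hYM
    · rw [hst w h]
      exact hC.cur w x
  · intro w x o ch hf'
    rw [hmp]
    by_cases h : w = p
    · subst h
      rw [hp] at hf'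
      apply hC.fut
      rcases hfc with hf | hf | hf
      · rw [hf.1, hf.2.1] at hf'
        left
        rcases hf' with h1 | h1
        · omega
        · omega
      · rw [hf.1, hf.2.1] at hf'
        rcases hf' with h1 | ⟨h1, l, h2, h3⟩
        · exact Or.inl h1
        · refine Or.inr ⟨h1, l, h2, Or.inl ?_⟩
          have h4 := p1_lvl_last S hf.2.2.2.1 hf.2.2.2.2
          rcases h3 with h3 | h3
          · omega
          · omega
      · rw [hf.1, hf.2.1] at hf'
        rcases hf' with h1 | ⟨h1, l, h2, h3⟩
        · exact Or.inl h1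
        · refine Or.inr ⟨h1, l, h2, ?_⟩
          rw [p1_lvl_succ S hf.2.2.2, p1_tick_succ S hf.2.2.2] at h3
          rcases h3 with h3 | h3
          · exact Or.inl h3
          · exact absurd h3.2 (by omega)
    · rw [hst w h] at hf'
      exact hC.fut w x o ch hf'

private theorem p1_step {C : Cfg n D} (hC : P1Inv S C) (p : Fin n) :
    P1Inv S (S.step p C) := by
  by_cases ho : S.G.O ≤ (C.st p).o
  · rw [p1_step_idle S p C ho]
    exact hC
  · have ho : (C.st p).o < S.G.O := by omega
    by_cases hw : (C.st p).pos < (C.st p).T.length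
    · exact p1_write S hC p ho hw
    · by_cases hl : (C.st p).pos + 1 < 2 * (C.st p).T.length
      · exact p1_read S hC p ho hw hl
      · exact p1_end S hC p ho hw hl

private theorem p1_run_none {t : ℕ} (h : σ t = none) : S.run σ (t + 1) = S.run σ t := by
  rw [run, h]

private theorem p1_run_some {t : ℕ} {p : Fin n} (h : σ t = some p) :
    S.run σ (t + 1) = S.step p (S.run σ t) := by
  rw [run, h]

private theorem p1_run (t : ℕ) : P1Inv S (S.run σ t) := by
  induction t with
  | zero => exact p1_init S
  | succ t ih =>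
    cases h : σ t with
    | none => rw [p1_run_none S σ h]; exact ih
    | some p => rw [p1_run_some S σ h]; exact p1_step S ih p

theorem run_inv (t : ℕ) : Inv S (S.run σ t) := (p1_run S σ t).toInv

private theorem p1_K_succ (t : ℕ) (q : Fin n) :
    ((S.run σ t).st q).K ⊆ ((S.run σ (t + 1)).st q).K := by
  cases h : σ t with
  | none => rw [p1_run_none S σ h]
  | some p => rw [p1_run_some S σ h]; exact p1_K_step S p q _

theorem run_K_mono {t t' : ℕ} (htt : t ≤ t') (q : Fin n) :
    ((S.run σ t).st q).K ⊆ ((S.run σ t').st q).K := by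
  induction htt with
  | refl => exact Subset.rfl
  | step _ ih => exact ih.trans (p1_K_succ S σ _ q)

private theorem p1_mem_succ (t : ℕ) (w x : Fin n) (o ch : ℕ) :
    ((S.run σ t).mem w x o ch).1 ⊆ ((S.run σ (t + 1)).mem w x o ch).1 ∧
      ((S.run σ t).mem w x o ch).2 ⊆ ((S.run σ (t + 1)).mem w x o ch).2 := by
  have hC := p1_run S σ t
  cases h : σ t with
  | none => rw [p1_run_none S σ h]; exact ⟨Subset.rfl, Subset.rfl⟩
  | some p =>
    rw [p1_run_some S σ h]
    by_cases ho : S.G.O ≤ ((S.run σ t).st p).o
    · rw [p1_step_idle S p _ ho]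
      exact ⟨Subset.rfl, Subset.rfl⟩
    · have ho : ((S.run σ t).st p).o < S.G.O := by omega
      by_cases hw : ((S.run σ t).st p).pos < ((S.run σ t).st p).T.length
      · rw [p1_mem_write S p _ ho hw]
        split_ifs with hx
        · obtain ⟨h1, h2, h3, h4⟩ := hx
          subst h1
          rw [h3, h4]
          exact ⟨hC.cur w x, hC.mem_le w x _ _⟩
        · exact ⟨Subset.rfl, Subset.rfl⟩
      · rw [p1_mem_read S p _ hw]
        exact ⟨Subset.rfl, Subset.rfl⟩

theorem run_mem_mono {t t' : ℕ} (htt : t ≤ t') (w x : Fin n) (o ch : ℕ) :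
    ((S.run σ t).mem w x o ch).1 ⊆ ((S.run σ t').mem w x o ch).1 ∧
      ((S.run σ t).mem w x o ch).2 ⊆ ((S.run σ t').mem w x o ch).2 := by
  induction htt with
  | refl => exact ⟨Subset.rfl, Subset.rfl⟩
  | @step m _ ih =>
    have h := p1_mem_succ S σ m w x o ch
    exact ⟨ih.1.trans h.1, ih.2.trans h.2⟩

theorem run_o_le (hO : 0 < S.G.O) (t : ℕ) (p : Fin n) : ((S.run σ t).st p).o ≤ S.G.O := by
  induction t with
  | zero => exact Nat.zero_le _
  | succ t ih =>
    cases h : σ t with
    | none => rw [p1_run_none S σ h]; exact ih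
    | some q =>
      rw [p1_run_some S σ h]
      by_cases hq : p = q
      · subst hq
        by_cases ho : S.G.O ≤ ((S.run σ t).st p).o
        · rw [p1_step_idle S p _ ho]
          exact ih
        · have ho : ((S.run σ t).st p).o < S.G.O := by omega
          by_cases hw : ((S.run σ t).st p).pos < ((S.run σ t).st p).T.length
          · rw [p1_st_write S p _ ho hw]
            exact ih
          · rw [p1_st_read S p _ ho hw]
            unfold rd
            split_ifs
            · exact ih
            · rcases p1_fin_cases S p ((S.run σ t).st p) (outK p ((S.run σ t).st p)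
                ((S.run σ t).mem (partner p ((S.run σ t).st p)) p ((S.run σ t).st p).o
                  (S.G.chan ((S.run σ t).st p).i)).2) (S.outM p ((S.run σ t).st p)
                ((S.run σ t).mem (partner p ((S.run σ t).st p)) p ((S.run σ t).st p).o
                  (S.G.chan ((S.run σ t).st p).i)).1) with hf | hf | hf
              · rw [hf.1]; omega
              · rw [hf.1]; exact ih
              · rw [hf.1]; exact ih
      · rw [p1_st_ne S q _ hq]
        exact ih

end Sys

end Pool.Agent.Q217
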