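import Pool.Agent.MP217Two.PEnd

set_option autoImplicit false

/-!
# The protocol: the order of the passes
-/

namespace Pool.Agent.Q217

open Finset

attribute [local instance 10] Classical.propDecidable

variable {n : ℕ} {D : Type}

/-- Lexicographic order of the passes. -/
def LexLe (o i o' i' : ℕ) : Prop := o < o' ∨ (o = o' ∧ i ≤ i')

namespace Sys

variable {S : Sys n D} {σ : ℕ → Option (Fin n)}

private theorem PLex_fin_oi (p : Fin n) (s : LSt n D) (X : Finset (Fact n D))
    (Y : Finset (Fin n)) :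
    ((S.fin p s X Y).o = s.o ∧ (S.fin p s X Y).i = s.i + 1) ∨
    ((S.fin p s X Y).o = s.o + 1 ∧ (S.fin p s X Y).i = 0) := by
  unfold Sys.fin
  split_ifs
  · right; exact ⟨rfl, rfl⟩
  · left; exact ⟨rfl, rfl⟩
  · left; exact ⟨rfl, rfl⟩

private theorem PLex_lex_succ (t : ℕ) (p : Fin n) :
    LexLe ((S.run σ t).st p).o ((S.run σ t).st p).i
      ((S.run σ (t + 1)).st p).o ((S.run σ (t + 1)).st p).i := by
  rcases same_or_end S σ t p with h | ⟨X, Y, h⟩
  · right; rw [h.1, h.2.1]; exact ⟨rfl, le_rfl⟩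
  · rw [h.next]
    rcases PLex_fin_oi (S := S) p ((S.run σ t).st p) X Y with h' | h'
    · right; rw [h'.1, h'.2]; exact ⟨rfl, by omega⟩
    · left; rw [h'.1]; omega

theorem lex_mono {t t' : ℕ} (htt : t ≤ t') (p : Fin n) :
    LexLe ((S.run σ t).st p).o ((S.run σ t).st p).i
      ((S.run σ t').st p).o ((S.run σ t').st p).i := by
  induction htt with
  | refl => right; exact ⟨rfl, le_rfl⟩
  | @step m _ ih =>
    have h1 := PLex_lex_succ (S := S) (σ := σ) m p
    unfold LexLe at *
    simp only [Nat.succ_eq_add_one] at *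
    omega

theorem EndAt.lex {e : ℕ} {a : Fin n} {o i : ℕ} {X : Finset (Fact n D)} {Y : Finset (Fin n)}
    (h : S.EndAt σ e a o i X Y) {t : ℕ} (ht : e < t) :
    LexLe o (i + 1) ((S.run σ t).st a).o ((S.run σ t).st a).i := by
  have h1 := lex_mono (S := S) (σ := σ) (show e + 1 ≤ t from ht) a
  have h2 : LexLe o (i + 1) ((S.run σ (e + 1)).st a).o ((S.run σ (e + 1)).st a).i := by
    rw [h.next]
    have := h.ho
    have := h.hi
    rcases PLex_fin_oi (S := S) a ((S.run σ e).st a) X Y with h' | h'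
    · right; rw [h'.1, h'.2]; constructor <;> omega
    · left; rw [h'.1]; omega
  unfold LexLe at *
  omega

theorem EndAt.unique {e e' : ℕ} {a : Fin n} {o i : ℕ} {X X' : Finset (Fact n D)}
    {Y Y' : Finset (Fin n)} (h : S.EndAt σ e a o i X Y) (h' : S.EndAt σ e' a o i X' Y') :
    e = e' ∧ X = X' ∧ Y = Y' := by
  have key : ∀ {e e' : ℕ} {X X' : Finset (Fact n D)} {Y Y' : Finset (Fin n)},
      S.EndAt σ e a o i X Y → S.EndAt σ e' a o i X' Y' → ¬ e < e' := by
    intro e e' X X' Y Y' h h' hlt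
    have := h.lex hlt
    rw [h'.ho, h'.hi] at this
    unfold LexLe at this
    omega
  have he : e = e' := by
    have h1 := key h h'
    have h2 := key h' h
    omega
  subst he
  exact ⟨rfl, h.hX.trans h'.hX.symm, h.hY.trans h'.hY.symm⟩

private theorem PLex_same_pass {t t' : ℕ} (htt : t ≤ t') {p : Fin n}
    (ho : ((S.run σ t').st p).o = ((S.run σ t).st p).o)
    (hi : ((S.run σ t').st p).i = ((S.run σ t).st p).i) :
    ((S.run σ t').st p).d = ((S.run σ t).st p).d ∧
      ((S.run σ t').st p).K = ((S.run σ t).st p).K ∧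
      ((S.run σ t').st p).M = ((S.run σ t).st p).M ∧
      ((S.run σ t').st p).T = ((S.run σ t).st p).T := by
  induction htt with
  | refl => exact ⟨rfl, rfl, rfl, rfl⟩
  | @step m hm ih =>
    have h1 := lex_mono (S := S) (σ := σ) hm p
    simp only [Nat.succ_eq_add_one] at *
    rcases same_or_end S σ m p with h | ⟨X, Y, h⟩
    · obtain ⟨h2, h3, h4, h5⟩ := ih (by rw [← h.1, ho]) (by rw [← h.2.1, hi])
      obtain ⟨-, -, g1, g2, g3, g4⟩ := h
      rw [g1, g2, g3, g4]
      exact ⟨h2, h3, h4, h5⟩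
    · have h2 := h.lex (Nat.lt_succ_self m)
      simp only [Nat.succ_eq_add_one] at h2
      unfold LexLe at *
      omega

private theorem PLex_origin (t : ℕ) (p : Fin n) :
    (((S.run σ t).st p).o = 0 ∧ ((S.run σ t).st p).i = 0 ∧
      ((S.run σ t).st p).d = S.d0 p ∧
      ((S.run σ t).st p).K = {Fact.lab p 0 0 (S.d0 p)}) ∨
    (0 < ((S.run σ t).st p).i ∧ ∃ e < t, ∃ X Y,
      S.EndAt σ e p ((S.run σ t).st p).o (((S.run σ t).st p).i - 1) X Y ∧
      (S.G.tick (((S.run σ t).st p).i - 1) = S.G.tk →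
        ¬ S.cert ((S.run σ t).st p).o (S.G.lvl (((S.run σ t).st p).i - 1)) Y X) ∧
      ((S.run σ t).st p).K = insert (Fact.lab p ((S.run σ t).st p).o
        ((S.run σ t).st p).i ((S.run σ t).st p).d) X ∧
      ((S.run σ t).st p).M = (if S.G.tick (((S.run σ t).st p).i - 1) = S.G.tk then ∅ else Y) ∧
      ((S.run σ t).st p).d = S.nxt p ((S.run σ t).st p).o (((S.run σ t).st p).i - 1)
        false X ((S.run σ e).st p).d) ∨
    (0 < ((S.run σ t).st p).o ∧ ((S.run σ t).st p).i = 0 ∧ ∃ e < t, ∃ i' X Y,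
      S.EndAt σ e p (((S.run σ t).st p).o - 1) i' X Y ∧ S.G.tick i' = S.G.tk ∧
      S.cert (((S.run σ t).st p).o - 1) (S.G.lvl i') Y X ∧
      ((S.run σ t).st p).K = insert (Fact.lab p ((S.run σ t).st p).o
        ((S.run σ t).st p).i ((S.run σ t).st p).d) X ∧
      ((S.run σ t).st p).d = S.nxt p (((S.run σ t).st p).o - 1) i'
        true X ((S.run σ e).st p).d) := by
  induction t with
  | zero =>
    left
    refine ⟨rfl, rfl, rfl, ?_⟩
    simp [run, init, beg]
  | succ t ih =>
    rcases same_or_end S σ t p with h | ⟨X, Y, h⟩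
    · obtain ⟨h1, h2, h3, h4, h5, -⟩ := h
      rw [h1, h2, h3, h4, h5]
      rcases ih with h | ⟨h, e, he, h'⟩ | ⟨h, h'', e, he, h'⟩
      · left; exact h
      · right; left; exact ⟨h, e, by omega, h'⟩
      · right; right; exact ⟨h, h'', e, by omega, h'⟩
    · have hfin := h.next
      by_cases ht : S.G.tick ((S.run σ t).st p).i = S.G.tk
      · by_cases hc : S.cert ((S.run σ t).st p).o (S.G.lvl ((S.run σ t).st p).i) Y X
        · rw [Sys.fin, if_pos ht, if_pos hc] at hfin
          right; right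
          rw [hfin]
          refine ⟨by simp [Sys.beg], rfl, t, by omega, ((S.run σ t).st p).i, X, Y, ?_, ht, ?_,
            rfl, ?_⟩
          · simpa [Sys.beg] using h
          · simpa [Sys.beg] using hc
          · simp [Sys.beg]
        · rw [Sys.fin, if_pos ht, if_neg hc] at hfin
          right; left
          rw [hfin]
          refine ⟨by simp [Sys.beg], t, by omega, X, Y, ?_, ?_, rfl, ?_, ?_⟩
          · simpa [Sys.beg] using h
          · intro _; simpa [Sys.beg] using hc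
          · simp [Sys.beg, ht]
          · simp [Sys.beg]
      · rw [Sys.fin, if_neg ht] at hfin
        right; left
        rw [hfin]
        refine ⟨by simp [Sys.beg], t, by omega, X, Y, ?_, ?_, rfl, ?_, ?_⟩
        · simpa [Sys.beg] using h
        · intro h0
          exact absurd (by simpa [Sys.beg] using h0) ht
        · simp [Sys.beg, ht]
        · simp [Sys.beg]

/-- During a pass the data, the knowledge and the team are constant. -/
theorem at_unique {t t' : ℕ} {p : Fin n} {o i : ℕ} (h : S.At σ t p o i)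
    (h' : S.At σ t' p o i) :
    ((S.run σ t').st p).d = ((S.run σ t).st p).d ∧
      ((S.run σ t').st p).K = ((S.run σ t).st p).K ∧
      ((S.run σ t').st p).M = ((S.run σ t).st p).M ∧
      ((S.run σ t').st p).T = ((S.run σ t).st p).T := by
  rcases le_total t t' with hle | hle
  · exact PLex_same_pass hle (by rw [h.1, h'.1]) (by rw [h.2, h'.2])
  · have := PLex_same_pass hle (p := p) (by rw [h.1, h'.1]) (by rw [h.2, h'.2])
    exact ⟨this.1.symm, this.2.1.symm, this.2.2.1.symm, this.2.2.2.symm⟩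

/-- The first pass. -/
theorem at_zero {t : ℕ} {p : Fin n} (h : S.At σ t p 0 0) :
    ((S.run σ t).st p).d = S.d0 p ∧ ((S.run σ t).st p).K = {Fact.lab p 0 0 (S.d0 p)} := by
  have h1 := h.1
  have h2 := h.2
  rcases PLex_origin (S := S) (σ := σ) t p with h' | ⟨h', _⟩ | ⟨h', _⟩
  · exact ⟨h'.2.2.1, h'.2.2.2⟩
  · omega
  · omega

/-- The pass before. -/
theorem prev_pass {t : ℕ} {p : Fin n} {o i : ℕ} (h : S.At σ t p o (i + 1)) :
    ∃ e < t, ∃ X Y, S.EndAt σ e p o i X Y ∧
      (S.G.tick i = S.G.tk → ¬ S.cert o (S.G.lvl i) Y X) ∧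
      ((S.run σ t).st p).K = insert (Fact.lab p o (i + 1) ((S.run σ t).st p).d) X ∧
      ((S.run σ t).st p).M = (if S.G.tick i = S.G.tk then ∅ else Y) ∧
      ((S.run σ t).st p).d = S.nxt p o i false X ((S.run σ e).st p).d := by
  have h1 := h.1
  have h2 := h.2
  rcases PLex_origin (S := S) (σ := σ) t p with h' | ⟨_, e, he, h'⟩ | ⟨_, h', _⟩
  · omega
  · rw [h1, h2] at h'
    exact ⟨e, he, by simpa using h'⟩
  · omega

/-- The object before. -/
theorem prev_obj {t : ℕ} {p : Fin n} {o : ℕ} (h : S.At σ t p (o + 1) 0) :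
    ∃ e < t, ∃ i' X Y, S.EndAt σ e p o i' X Y ∧ S.G.tick i' = S.G.tk ∧
      S.cert o (S.G.lvl i') Y X ∧
      ((S.run σ t).st p).K = insert (Fact.lab p (o + 1) 0 ((S.run σ t).st p).d) X ∧
      ((S.run σ t).st p).d = S.nxt p o i' true X ((S.run σ e).st p).d := by
  have h1 := h.1
  have h2 := h.2
  rcases PLex_origin (S := S) (σ := σ) t p with h' | ⟨h', _⟩ | ⟨_, _, e, he, h'⟩
  · omega
  · omega
  · rw [h1, h2] at h'
    exact ⟨e, he, by simpa using h'⟩

theorem at_down {t : ℕ} {p : Fin n} {o i j : ℕ} (h : S.At σ t p o i) (hj : j ≤ i) :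
    ∃ t' ≤ t, S.At σ t' p o j := by
  induction i generalizing t with
  | zero =>
    have : j = 0 := by omega
    subst this
    exact ⟨t, le_rfl, h⟩
  | succ i ih =>
    rcases Nat.eq_or_lt_of_le hj with rfl | hj
    · exact ⟨t, le_rfl, h⟩
    · obtain ⟨e, he, X, Y, h1, -⟩ := prev_pass h
      obtain ⟨t', ht', h2⟩ := ih h1.at (by omega)
      exact ⟨t', by omega, h2⟩

theorem reach_down {p : Fin n} {o i j : ℕ} (h : S.Reach σ p o i) (hj : j ≤ i) :
    S.Reach σ p o j := by
  obtain ⟨t, ht⟩ := h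
  obtain ⟨t', _, ht'⟩ := at_down ht hj
  exact ⟨t', ht'⟩

theorem reach_prev {p : Fin n} {o : ℕ} (h : S.Reach σ p (o + 1) 0) : S.Reach σ p o 0 := by
  obtain ⟨t, ht⟩ := h
  obtain ⟨e, he, i', X, Y, h1, -⟩ := prev_obj ht
  exact reach_down ⟨e, h1.at⟩ (Nat.zero_le _)

theorem reach_i_lt {p : Fin n} {o i : ℕ} (h : S.Reach σ p o i) :
    i < (S.G.L + 1) * (S.G.tk + 1) := by
  obtain ⟨t, ht⟩ := h
  have h1 := (run_inv S σ t).ile p
  rw [ht.2] at h1
  exact h1

end Sys

end Pool.Agent.Q217
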