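import Pool.Agent.MP217Two.PRead
import Pool.Agent.MP217Two.PCl

set_option autoImplicit false

/-!
# The views of two processors that complete an object intersect
-/

namespace Pool.Agent.Q217

open Finset

attribute [local instance 10] Classical.propDecidable

variable {n : ℕ} {D : Type}

private theorem pp_lvl_start (G : Geo n) {l : ℕ} (hl : l ≤ G.L) : G.lvl (G.start l) = l := by
  unfold Geo.lvl Geo.start
  rw [Nat.mul_div_cancel _ (Nat.succ_pos _)]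
  omega

private theorem pp_tick_start (G : Geo n) (l : ℕ) : G.tick (G.start l) = 0 := by
  unfold Geo.tick Geo.start
  exact Nat.mul_mod_left _ _

namespace Sys

variable {S : Sys n D} {σ : ℕ → Option (Fin n)}

/-- The neighbours at level `l` are in the list of the ext pass of level `l`. -/
private theorem pp_mem_lst {a x : Fin n} (o : ℕ) {l : ℕ} (hl : l ≤ S.G.L)
    (hx : x ∈ S.G.nest.N l a ∨ l ≤ S.G.ν0) : x ∈ S.lst a o (S.G.start l) := by
  unfold Sys.lst Geo.lst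
  rw [if_pos (pp_tick_start S.G l), pp_lvl_start S.G hl]
  rcases hx with hx | hx
  · exact S.G.N_sub_ext _ hx
  · exact S.G.ext_low hx _ _ _

private theorem pp_key (hb : S.b = true) {e : ℕ} {p : Fin n} {o i : ℕ}
    {X : Finset (Fact n D)} {Y : Finset (Fin n)} (h : S.EndAt σ e p o i X Y)
    (hc : S.cert o (S.G.lvl i) Y X) {ν : ℕ} (hν : ν ≤ S.G.lvl i) {Z : Finset (Fin n)}
    (hZ : S.G.cap ν ≤ Z.card) :
    ∃ b ∈ Z, ∃ a e1 X1 Y1, S.EndAt σ e1 a o (S.G.start (S.G.lvl i)) X1 Y1 ∧ X1 ⊆ X ∧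
      b ∈ S.lst a o (S.G.start (S.G.lvl i)) ∧ b ∈ S.G.nest.N ν a := by
  have hl : S.G.lvl i ≤ S.G.L := Nat.sub_le _ _
  rcases hc with hc | ⟨-, hc⟩
  · have hν0 : ν = 0 := by omega
    subst hν0
    have hZ1 : 0 < Z.card := by
      have h0 : S.G.cap 0 = 1 := by unfold Geo.cap; rw [if_pos rfl]
      omega
    obtain ⟨b, hbZ⟩ := card_pos.mp hZ1
    have h1 := team_done h h.self_mem
    obtain ⟨-, e1, -, X1, Y1, h2, h3⟩ := closed_X h h1
    refine ⟨b, hbZ, p, e1, X1, Y1, h2, h3, ?_, ?_⟩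
    · apply pp_mem_lst o hl
      left
      rw [hc, S.G.nest.zero]
      exact mem_univ _
    · rw [S.G.nest.zero]
      exact mem_univ _
  · have h1 := hc hb ν hν
    obtain ⟨b, hbZ, hbu⟩ : ∃ b ∈ Z, b ∉ S.unc ν o (S.G.lvl i) Y X := by
      by_contra hcon
      push Not at hcon
      have := card_le_card (show Z ⊆ _ from hcon)
      omega
    unfold Sys.unc at hbu
    rw [mem_filter, not_and, not_not] at hbu
    obtain ⟨a, -, T, hT, hbT, hbN⟩ := hbu (mem_univ _)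
    obtain ⟨h4, e1, -, X1, Y1, h2, h3⟩ := closed_X h hT
    exact ⟨b, hbZ, a, e1, X1, Y1, h2, h3, h4 ▸ hbT, hbN⟩

/-- The label of the beginning of the object. -/
private theorem pp_lab {e : ℕ} {a : Fin n} {o i : ℕ} (h : S.At σ e a o i) :
    ∃ d, Fact.lab a o 0 d ∈ ((S.run σ e).st a).K := by
  obtain ⟨t, ht, h1⟩ := at_down h (Nat.zero_le i)
  have h2 := (run_inv S σ t).lab a
  rw [h1.1, h1.2] at h2
  exact ⟨_, run_K_mono S σ ht a h2⟩

private theorem pp_wlog (hb : S.b = true) {e e' : ℕ} {p p' : Fin n} {o i i' : ℕ}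
    {X X' : Finset (Fact n D)} {Y Y' : Finset (Fin n)} (h : S.EndAt σ e p o i X Y)
    (h' : S.EndAt σ e' p' o i' X' Y') (hc : S.cert o (S.G.lvl i) Y X)
    (hc' : S.cert o (S.G.lvl i') Y' X') (hle : S.G.lvl i' ≤ S.G.lvl i) :
    ∃ a d, Fact.lab a o 0 d ∈ X ∧ Fact.lab a o 0 d ∈ X' := by
  have hl' : S.G.lvl i' ≤ S.G.L := Nat.sub_le _ _
  have hpos : 1 ≤ Y'.card := card_pos.mpr ⟨p', h'.self_mem⟩
  obtain ⟨ν, hν1, hν2, hν3⟩ : ∃ ν ≤ S.G.lvl i', S.G.cap ν ≤ Y'.card ∧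
      (ν = S.G.lvl i' ∨ S.G.lvl i' ≤ S.G.ν0) := by
    by_cases hlow : S.G.lvl i' ≤ S.G.ν0
    · refine ⟨0, Nat.zero_le _, ?_, Or.inr hlow⟩
      unfold Geo.cap
      rw [if_pos rfl]
      exact hpos
    · refine ⟨S.G.lvl i', le_rfl, ?_, Or.inl rfl⟩
      have hne : S.G.lvl i' ≠ 0 := by omega
      unfold Geo.cap
      rw [if_neg hne, if_neg hlow]
      rcases hc' with hc' | ⟨hc', -⟩
      · exact absurd hc' hne
      · exact hc'
  obtain ⟨b, hbY, a, e1, X1, Y1, h1, h2, h3, h4⟩ := pp_key hb h hc (hν1.trans hle) hν2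
  have h5 := team_done h' hbY
  obtain ⟨-, e2, -, X2, Y2, h6, h7⟩ := closed_X h' h5
  have h8 : a ∈ S.lst b o (S.G.start (S.G.lvl i')) := by
    apply pp_mem_lst o hl'
    rcases hν3 with hν3 | hν3
    · left
      rw [← hν3]
      exact S.G.nest.symm _ _ _ h4
    · right
      exact hν3
  rcases dekker h1 h6 (pp_tick_start _ _) (pp_tick_start _ _) h3 h8 with h9 | h9
  · obtain ⟨d, hd⟩ := pp_lab h1.at
    exact ⟨a, d, h2 (h1.K_le hd), h7 (h9 hd)⟩
  · obtain ⟨d, hd⟩ := pp_lab h6.at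
    exact ⟨b, d, h2 (h9 hd), h7 (h6.K_le hd)⟩

theorem pair_view (hG : S.G.Good) (hb : S.b = true) {t t' : ℕ} {p p' : Fin n} {o : ℕ}
    (h : S.At σ t p (o + 1) 0) (h' : S.At σ t' p' (o + 1) 0) :
    ∃ a d, Fact.lab a o 0 d ∈ ((S.run σ t).st p).K ∧
      Fact.lab a o 0 d ∈ ((S.run σ t').st p').K := by
  have _ := hG
  obtain ⟨e, -, i, X, Y, h1, -, h2, h3, -⟩ := prev_obj h
  obtain ⟨e', -, i', X', Y', h1', -, h2', h3', -⟩ := prev_obj h'
  rw [h3, h3']
  rcases le_total (S.G.lvl i') (S.G.lvl i) with hle | hle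
  · obtain ⟨a, d, h4, h5⟩ := pp_wlog hb h1 h1' h2 h2' hle
    exact ⟨a, d, mem_insert_of_mem h4, mem_insert_of_mem h5⟩
  · obtain ⟨a, d, h4, h5⟩ := pp_wlog hb h1' h1 h2' h2 hle
    exact ⟨a, d, mem_insert_of_mem h5, mem_insert_of_mem h4⟩

end Sys

end Pool.Agent.Q217
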