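import Pool.Agent.MP217Two.PLex

set_option autoImplicit false

/-!
# The protocol: communication between two processors
-/

namespace Pool.Agent.Q217

open Finset

attribute [local instance 10] Classical.propDecidable

variable {n : ℕ} {D : Type}

namespace Sys

variable {S : Sys n D} {σ : ℕ → Option (Fin n)}

private theorem prd_fin_pos (S : Sys n D) (p : Fin n) (s : LSt n D) (X : Finset (Fact n D))
    (Y : Finset (Fin n)) : (S.fin p s X Y).pos = 0 := by
  unfold fin
  split_ifs <;> rfl

private theorem prd_reads (S : Sys n D) (σ : ℕ → Option (Fin n)) (t : ℕ) (p : Fin n) (idx : ℕ)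
    (hidx : ((S.run σ t).st p).T.length + idx < ((S.run σ t).st p).pos) :
    ∃ r < t, S.At σ r p ((S.run σ t).st p).o ((S.run σ t).st p).i ∧
      ((S.run σ r).st p).T.length ≤ ((S.run σ r).st p).pos ∧
      ((S.run σ r).mem (((S.run σ t).st p).T.getD idx p) p ((S.run σ t).st p).o
        (S.G.chan ((S.run σ t).st p).i)).1 ⊆ ((S.run σ t).st p).accM ∧
      ((S.run σ r).mem (((S.run σ t).st p).T.getD idx p) p ((S.run σ t).st p).o
        (S.G.chan ((S.run σ t).st p).i)).2 ⊆ ((S.run σ t).st p).accK := by
  induction t with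
  | zero =>
    change _ < 0 at hidx
    omega
  | succ t ih =>
    rcases step_cases S σ t p with h | h | h | ⟨X, Y, h⟩
    · rw [h.1] at hidx ⊢
      obtain ⟨r, hr, h'⟩ := ih hidx
      exact ⟨r, by omega, h'⟩
    · rw [h.2.2.2] at hidx
      simp only [wr] at hidx
      have := h.2.2.1
      omega
    · rw [h.2.2.2.2] at hidx ⊢
      simp only at hidx ⊢
      by_cases hlast : ((S.run σ t).st p).T.length + idx < ((S.run σ t).st p).pos
      · obtain ⟨r, hr, h1, h2, h3, h4⟩ := ih hlast
        exact ⟨r, by omega, h1, h2, h3.trans subset_union_left, h4.trans subset_union_left⟩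
      · refine ⟨t, by omega, ⟨rfl, rfl⟩, h.2.2.1, ?_, ?_⟩
        · have : partner p ((S.run σ t).st p) = ((S.run σ t).st p).T.getD idx p := by
            unfold partner
            rw [if_neg (by have := h.2.2.1; omega)]
            congr 1
            have := h.2.2.1
            omega
          rw [this]
          exact subset_union_right
        · have : partner p ((S.run σ t).st p) = ((S.run σ t).st p).T.getD idx p := by
            unfold partner
            rw [if_neg (by have := h.2.2.1; omega)]
            congr 1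
            have := h.2.2.1
            omega
          rw [this]
          exact subset_union_right
    · rw [h.next, prd_fin_pos] at hidx
      omega

/-- For a finished pass: for each target `x` there is a time at which `x` was read and all writes
of the pass had been performed. -/
private theorem prd_read {e : ℕ} {a : Fin n} {o i : ℕ} {X : Finset (Fact n D)}
    {Y : Finset (Fin n)} (h : S.EndAt σ e a o i X Y) {x : Fin n} (hx : x ∈ S.lst a o i) :
    ∃ r ≤ e, S.At σ r a o i ∧
      (∀ y ∈ S.lst a o i, (S.run σ r).mem a y o (S.G.chan i) =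
        (((S.run σ e).st a).M, ((S.run σ e).st a).K)) ∧
      (S.G.tick i ≠ 0 → ((S.run σ r).mem x a o (S.G.chan i)).1 ⊆ Y) ∧
      ((S.run σ r).mem x a o (S.G.chan i)).2 ⊆ X := by
  have hinv := run_inv S σ e
  have ho := h.ho
  have hi := h.hi
  have hT := hinv.tgt a
  rw [ho, hi] at hT
  rw [← hT, List.mem_iff_getElem] at hx
  obtain ⟨idx, hidx, hxe⟩ := hx
  have hpos := h.pos
  have hget : ((S.run σ e).st a).T.getD idx a = x := by
    rw [List.getD_eq_getElem _ _ hidx, hxe]
  have hX := h.hX
  have hY := h.hY
  have key : ∃ r ≤ e, S.At σ r a o i ∧ ((S.run σ r).st a).T.length ≤ ((S.run σ r).st a).pos ∧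
      (S.G.tick i ≠ 0 → ((S.run σ r).mem x a o (S.G.chan i)).1 ⊆ Y) ∧
      ((S.run σ r).mem x a o (S.G.chan i)).2 ⊆ X := by
    by_cases hlast : idx + 1 = ((S.run σ e).st a).T.length
    · have hpar : partner a ((S.run σ e).st a) = x := by
        unfold partner
        rw [if_neg (by omega), ← hget]
        congr 1
        omega
      rw [hpar] at hX hY
      refine ⟨e, le_rfl, h.at, by omega, fun ht => ?_, ?_⟩
      · rw [hY, outM, hi, if_neg ht]
        exact subset_union_right.trans subset_union_right
      · rw [hX, outK]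
        exact (subset_union_right.trans subset_union_right).trans (subset_insert _ _)
    · obtain ⟨r, hr, h1, h2, h3, h4⟩ := prd_reads S σ e a idx (by omega)
      rw [hget, ho, hi] at h3 h4
      rw [ho, hi] at h1
      refine ⟨r, hr.le, h1, h2, fun ht => ?_, ?_⟩
      · rw [hY, outM, hi, if_neg ht]
        exact h3.trans (subset_union_left.trans subset_union_right)
      · rw [hX, outK]
        exact h4.trans ((subset_union_left.trans subset_union_right).trans (subset_insert _ _))
  obtain ⟨r, hr, h1, h2, h3, h4⟩ := key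
  refine ⟨r, hr, h1, ?_, h3, h4⟩
  intro y hy
  obtain ⟨_, hK, hM, hTT⟩ := at_unique h1 h.at
  rw [← hT, hTT, List.mem_iff_getElem] at hy
  obtain ⟨idy, hidy, hye⟩ := hy
  have := (run_inv S σ r).written a idy (by omega) hidy
  rw [List.getD_eq_getElem _ _ hidy, hye, h1.1, h1.2] at this
  rw [hK, hM]
  exact this

/-- Dekker: of two processors that target each other in ext passes, one sees the other. -/
theorem dekker {e e' : ℕ} {a b : Fin n} {o i i' : ℕ} {X X' : Finset (Fact n D)}
    {Y Y' : Finset (Fin n)} (h : S.EndAt σ e a o i X Y) (h' : S.EndAt σ e' b o i' X' Y')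
    (hi : S.G.tick i = 0) (hi' : S.G.tick i' = 0) (hb : b ∈ S.lst a o i)
    (ha : a ∈ S.lst b o i') :
    ((S.run σ e).st a).K ⊆ X' ∨ ((S.run σ e').st b).K ⊆ X := by
  obtain ⟨r, hr, h1, h2, _, h3⟩ := prd_read h hb
  obtain ⟨r', hr', h1', h2', _, h3'⟩ := prd_read h' ha
  have hc : S.G.chan i = 0 := by
    unfold Geo.chan
    rw [if_pos hi]
  have hc' : S.G.chan i' = 0 := by
    unfold Geo.chan
    rw [if_pos hi']
  rw [hc] at h2 h3
  rw [hc'] at h2' h3'
  rcases le_total r r' with hle | hle
  · left
    have h4 := (run_mem_mono S σ hle a b o 0).2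
    rw [h2 b hb] at h4
    exact h4.trans h3'
  · right
    have h4 := (run_mem_mono S σ hle b a o 0).2
    rw [h2' a ha] at h4
    exact h4.trans h3

/-- Flow: if `b` starts its tick after `a` has finished a tick of the same level, and they target
each other, then `b` learns the team of `a`. -/
theorem flow {e e' : ℕ} {a b : Fin n} {o i i' : ℕ} {X X' : Finset (Fact n D)}
    {Y Y' : Finset (Fin n)} (h : S.EndAt σ e a o i X Y) (h' : S.EndAt σ e' b o i' X' Y')
    (hi : S.G.tick i ≠ 0) (hi' : S.G.tick i' ≠ 0) (hl : S.G.lvl i = S.G.lvl i')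
    (hb : b ∈ S.lst a o i) (ha : a ∈ S.lst b o i') (hlate : ∀ r, S.At σ r b o i' → e < r) :
    ((S.run σ e).st a).M ⊆ Y' := by
  obtain ⟨r, hr, h1, h2, _, h3⟩ := prd_read h hb
  obtain ⟨r', hr', h1', h2', h4', h3'⟩ := prd_read h' ha
  have hlt := hlate r' h1'
  have hc : S.G.chan i = S.G.chan i' := by
    unfold Geo.chan
    rw [if_neg hi, if_neg hi', hl]
  have h5 := (run_mem_mono S σ (show r ≤ r' by omega) a b o (S.G.chan i)).1
  rw [h2 b hb, hc] at h5
  exact h5.trans (h4' hi')

/-- Dekker for ticks: of two processors that target each other in ticks of the same level, one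
learns the team of the other. -/
theorem dekker_tick {e e' : ℕ} {a b : Fin n} {o i i' : ℕ} {X X' : Finset (Fact n D)}
    {Y Y' : Finset (Fin n)} (h : S.EndAt σ e a o i X Y) (h' : S.EndAt σ e' b o i' X' Y')
    (hi : S.G.tick i ≠ 0) (hi' : S.G.tick i' ≠ 0) (hl : S.G.lvl i = S.G.lvl i')
    (hb : b ∈ S.lst a o i) (ha : a ∈ S.lst b o i') :
    ((S.run σ e).st a).M ⊆ Y' ∨ ((S.run σ e').st b).M ⊆ Y := by
  obtain ⟨r, hr, h1, h2, h4, h3⟩ := prd_read h hb
  obtain ⟨r', hr', h1', h2', h4', h3'⟩ := prd_read h' ha
  have hc : S.G.chan i = S.G.chan i' := by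
    unfold Geo.chan
    rw [if_neg hi, if_neg hi', hl]
  rcases le_total r r' with hle | hle
  · left
    have h5 := (run_mem_mono S σ hle a b o (S.G.chan i)).1
    rw [h2 b hb, hc] at h5
    exact h5.trans (h4' hi')
  · right
    have h5 := (run_mem_mono S σ hle b a o (S.G.chan i')).1
    rw [h2' a ha, ← hc] at h5
    exact h5.trans (h4 hi)

end Sys

end Pool.Agent.Q217
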