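import Pool.Agent.MP217Two.PCl
import Pool.Agent.MP217Two.Lists

set_option autoImplicit false

/-!
# The skeleton, and erasing the data
-/

namespace Pool.Agent.Q217

open Finset

attribute [local instance 10] Classical.propDecidable

variable {n : ℕ} {D : Type}

/-- The protocol without data. -/
def noData (G : Geo n) (b : Bool) (sd : Fin n → ℕ → ℕ → ℕ → ℕ) : Sys n Unit where
  G := G
  b := b
  sd := sd
  d0 := fun _ => ()
  nxt := fun _ _ _ _ _ _ => ()

/-- The skeleton. -/
def skel (G : Geo n) : Sys n Unit := noData G false fun _ _ _ _ => 0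

/-- All teams of the skeleton are covered by the seeds. -/
def GE1 (G : Geo n) (σ : ℕ → Option (Fin n)) (sd : Fin n → ℕ → ℕ → ℕ → ℕ) : Prop :=
  ∀ e p o l X Y, 1 ≤ l → l ≤ G.L → (skel G).EndAt σ e p o (G.start l + G.tk) X Y →
    G.B l ≤ Y.card → G.Cov sd o l Y

namespace Sys

variable {S : Sys n D} {σ : ℕ → Option (Fin n)}

private theorem sk_run_none (S : Sys n D) {σ : ℕ → Option (Fin n)} {t : ℕ} (h : σ t = none) :
    S.run σ (t + 1) = S.run σ t := by
  rw [Sys.run, h]

private theorem sk_run_some (S : Sys n D) {σ : ℕ → Option (Fin n)} {t : ℕ} {p : Fin n}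
    (h : σ t = some p) : S.run σ (t + 1) = S.step p (S.run σ t) := by
  rw [Sys.run, h]

private theorem sk_stop (S : Sys n D) {p : Fin n} {C : Cfg n D} (h : S.G.O ≤ (C.st p).o) :
    S.step p C = C := by
  unfold Sys.step
  rw [if_pos h]

private theorem sk_st_ne (S : Sys n D) {p q : Fin n} {C : Cfg n D} (h : q ≠ p) :
    (S.step p C).st q = C.st q := by
  unfold Sys.step
  split_ifs <;> simp [Function.update_of_ne h]

private theorem sk_st_write (S : Sys n D) {p : Fin n} {C : Cfg n D}
    (h0 : ¬ S.G.O ≤ (C.st p).o) (h : (C.st p).pos < (C.st p).T.length) :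
    (S.step p C).st p = wr (C.st p) := by
  unfold Sys.step
  rw [if_neg h0, if_pos h]
  simp

private theorem sk_st_read (S : Sys n D) {p : Fin n} {C : Cfg n D}
    (h0 : ¬ S.G.O ≤ (C.st p).o) (h : ¬ (C.st p).pos < (C.st p).T.length) :
    (S.step p C).st p = S.rd p (C.st p)
      (C.mem (partner p (C.st p)) p (C.st p).o (S.G.chan (C.st p).i)) := by
  unfold Sys.step
  rw [if_neg h0, if_neg h]
  simp

private theorem sk_mem_write (S : Sys n D) {p : Fin n} {C : Cfg n D}
    (h0 : ¬ S.G.O ≤ (C.st p).o) (h : (C.st p).pos < (C.st p).T.length) (w x : Fin n)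
    (o ch : ℕ) : (S.step p C).mem w x o ch =
      if w = p ∧ x = partner p (C.st p) ∧ o = (C.st p).o ∧ ch = S.G.chan (C.st p).i then
        ((C.st p).M, (C.st p).K) else C.mem w x o ch := by
  unfold Sys.step
  rw [if_neg h0, if_pos h]

private theorem sk_mem_read (S : Sys n D) {p : Fin n} {C : Cfg n D}
    (h0 : ¬ S.G.O ≤ (C.st p).o) (h : ¬ (C.st p).pos < (C.st p).T.length) :
    (S.step p C).mem = C.mem := by
  unfold Sys.step
  rw [if_neg h0, if_neg h]

private theorem sk_lvl {G : Geo n} {l j : ℕ} (hl : l ≤ G.L) (hj : j ≤ G.tk) :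
    G.lvl (G.start l + j) = l := by
  unfold Geo.lvl Geo.start
  have h1 : ((G.L - l) * (G.tk + 1) + j) / (G.tk + 1) = G.L - l := by
    rw [mul_comm, Nat.mul_add_div (by omega), Nat.div_eq_of_lt (by omega), add_zero]
  rw [h1]
  omega

private theorem sk_tick {G : Geo n} {l j : ℕ} (hj : j ≤ G.tk) :
    G.tick (G.start l + j) = j := by
  unfold Geo.tick Geo.start
  rw [mul_comm, Nat.mul_add_mod, Nat.mod_eq_of_lt (by omega)]

private theorem sk_split {G : Geo n} {i : ℕ} (hi : i < (G.L + 1) * (G.tk + 1)) :
    G.lvl i ≤ G.L ∧ i = G.start (G.lvl i) + G.tick i := by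
  have h1 : i / (G.tk + 1) < G.L + 1 := by
    rw [Nat.div_lt_iff_lt_mul (by omega)]
    exact hi
  unfold Geo.lvl Geo.start Geo.tick
  refine ⟨Nat.sub_le _ _, ?_⟩
  have h2 : G.L - (G.L - i / (G.tk + 1)) = i / (G.tk + 1) :=
    Nat.sub_sub_self (Nat.lt_succ_iff.mp h1)
  rw [h2, mul_comm]
  exact (Nat.div_add_mod i (G.tk + 1)).symm

/-- Local states with the same times and teams. -/
private structure SkEq (s : LSt n D) (s' : LSt n Unit) : Prop where
  o : s.o = s'.o
  i : s.i = s'.i
  M : s.M = s'.M
  pos : s.pos = s'.pos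
  acc : s.accM = s'.accM
  len : s.T.length = s'.T.length

/-- Configurations with the same times and teams. -/
private structure SkSim (C : Cfg n D) (C' : Cfg n Unit) : Prop where
  st : ∀ p, SkEq (C.st p) (C'.st p)
  mem : ∀ w x o ch, (C.mem w x o ch).1 = (C'.mem w x o ch).1

private theorem sk_beg (hG : S.G.Good) (p : Fin n) {o o' i i' : ℕ} {d : D} {d' : Unit}
    {K : Finset (Fact n D)} {K' : Finset (Fact n Unit)} {M M' : Finset (Fin n)} (ho : o = o')
    (hi : i = i') (hM : M = M') :
    SkEq (S.beg p o i d K M) ((skel S.G).beg p o' i' d' K' M') := by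
  subst ho hi hM
  exact ⟨rfl, rfl, rfl, rfl, rfl, S.G.length_lst p i _ _⟩

/-- The partners in ticks are the same. -/
private theorem sk_partner {p : Fin n} {s : LSt n D} {s' : LSt n Unit} (h : SkEq s s')
    (hT : s.T = S.lst p s.o s.i) (hT' : s'.T = (skel S.G).lst p s'.o s'.i)
    (hi : S.G.tick s.i ≠ 0) : partner p s = partner p s' := by
  have h1 : s.T = s'.T := by
    rw [hT, hT', ← h.i]
    unfold Sys.lst Geo.lst
    have hi' : ¬ (skel S.G).G.tick s.i = 0 := hi
    rw [if_neg hi, if_neg hi']
    rfl
  unfold partner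
  rw [h1, h.pos]

private theorem sk_msg {C : Cfg n D} {C' : Cfg n Unit} (hs : SkSim C C') (hC : Inv S C)
    (hC' : Inv (skel S.G) C') (p : Fin n) :
    (C.mem (partner p (C.st p)) p (C.st p).o (S.G.chan (C.st p).i)).1 =
      (C'.mem (partner p (C'.st p)) p (C'.st p).o ((skel S.G).G.chan (C'.st p).i)).1 := by
  by_cases hi : S.G.tick (C.st p).i = 0
  · have h1 : S.G.chan (C.st p).i = 0 := by
      unfold Geo.chan
      rw [if_pos hi]
    have h2 : (skel S.G).G.chan (C'.st p).i = 0 := by
      rw [← (hs.st p).i]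
      exact h1
    rw [h1, h2, hC.mem_ext, hC'.mem_ext]
  · rw [sk_partner (hs.st p) (hC.tgt p) (hC'.tgt p) hi, hs.mem, (hs.st p).o, (hs.st p).i]
    rfl

private theorem sk_outM {s : LSt n D} {s' : LSt n Unit} (h : SkEq s s') (p : Fin n)
    {m m' : Finset (Fin n)} (hm : m = m') : S.outM p s m = (skel S.G).outM p s' m' := by
  unfold Sys.outM
  rw [hm, h.M, h.acc, h.i]
  rfl

private theorem sk_end {t : ℕ} (hs : SkSim (S.run σ t) ((skel S.G).run σ t)) {p : Fin n}
    {o i : ℕ} {X : Finset (Fact n D)} {Y : Finset (Fin n)} (h : S.EndAt σ t p o i X Y) :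
    (skel S.G).EndAt σ t p o i (outK p (((skel S.G).run σ t).st p)
      (((skel S.G).run σ t).mem (partner p (((skel S.G).run σ t).st p)) p o
        ((skel S.G).G.chan i)).2) Y := by
  have h1 := hs.st p
  have hm := sk_msg hs (run_inv S σ t) (run_inv (skel S.G) σ t) p
  have ho : (((skel S.G).run σ t).st p).o = o := h1.o ▸ h.ho
  have hi : (((skel S.G).run σ t).st p).i = i := h1.i ▸ h.hi
  refine ⟨h.sched, h.act, ho, hi, ?_, rfl, ?_⟩
  · rw [← h1.pos, ← h1.len]
    exact h.pos
  · rw [h.hY]
    apply sk_outM h1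
    rw [h.ho, h.hi, ho, hi] at hm
    exact hm

private theorem sk_cov {e : ℕ} {p : Fin n} {o l : ℕ} {X : Finset (Fact n D)}
    {Y : Finset (Fin n)} (hl : l ≤ S.G.L) (h : S.EndAt σ e p o (S.G.start l + S.G.tk) X Y)
    (hY : S.G.B l ≤ Y.card) (hc : S.G.Cov S.sd o l Y) : S.cert o l Y X := by
  refine Or.inr ⟨hY, fun _ ν hν => lt_of_le_of_lt (card_le_card ?_) (hc ν hν)⟩
  intro x hx
  unfold Sys.unc at hx
  rw [mem_filter] at hx ⊢
  refine ⟨mem_univ _, ?_⟩
  rintro ⟨a, ha, hxa, hxN⟩
  apply hx.2
  have h1 := team_done h ha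
  rw [sk_lvl hl le_rfl] at h1
  refine ⟨a, ha, _, h1, ?_, hxN⟩
  have h2 : S.G.lvl (S.G.start l) = l := sk_lvl (j := 0) hl (Nat.zero_le _)
  have h3 : S.G.tick (S.G.start l) = 0 := sk_tick (j := 0) (Nat.zero_le _)
  unfold Sys.lst Geo.lst
  rw [if_pos h3, h2]
  exact hxa

private theorem sk_cert (hG1 : GE1 S.G σ S.sd) {e : ℕ} {p : Fin n} {o i : ℕ}
    {X : Finset (Fact n D)} {X' : Finset (Fact n Unit)} {Y : Finset (Fin n)}
    (h : S.EndAt σ e p o i X Y) (h' : (skel S.G).EndAt σ e p o i X' Y)
    (ht : S.G.tick i = S.G.tk) :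
    S.cert o (S.G.lvl i) Y X ↔ (skel S.G).cert o (S.G.lvl i) Y X' := by
  have hlt : i < (S.G.L + 1) * (S.G.tk + 1) := by
    have := (run_inv S σ e).ile p
    rwa [h.hi] at this
  obtain ⟨hl, hi⟩ := sk_split hlt
  rw [ht] at hi
  constructor
  · rintro (h0 | h0)
    · exact Or.inl h0
    · exact Or.inr ⟨h0.1, fun hb => absurd hb (by simp [skel, noData])⟩
  · rintro (h0 | h0)
    · exact Or.inl h0
    · rcases Nat.eq_zero_or_pos (S.G.lvl i) with h2 | h2
      · exact Or.inl h2
      · have hB : S.G.B (S.G.lvl i) ≤ Y.card := h0.1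
        rw [hi] at h h'
        exact sk_cov hl h hB (hG1 e p o (S.G.lvl i) X' Y h2 hl h' hB)

private theorem sk_fin (hG : S.G.Good) {p : Fin n} {s : LSt n D} {s' : LSt n Unit}
    (h : SkEq s s') {X : Finset (Fact n D)} {X' : Finset (Fact n Unit)} {Y : Finset (Fin n)}
    (hc : S.G.tick s.i = S.G.tk → (S.cert s.o (S.G.lvl s.i) Y X ↔
      (skel S.G).cert s.o (S.G.lvl s.i) Y X')) :
    SkEq (S.fin p s X Y) ((skel S.G).fin p s' X' Y) := by
  unfold Sys.fin
  rw [← h.o, ← h.i]
  by_cases ht : S.G.tick s.i = S.G.tk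
  · have ht' : (skel S.G).G.tick s.i = (skel S.G).G.tk := ht
    rw [if_pos ht, if_pos ht']
    by_cases h1 : S.cert s.o (S.G.lvl s.i) Y X
    · have h2 : (skel S.G).cert s.o ((skel S.G).G.lvl s.i) Y X' := (hc ht).1 h1
      rw [if_pos h1, if_pos h2]
      exact sk_beg hG p rfl rfl rfl
    · have h2 : ¬ (skel S.G).cert s.o ((skel S.G).G.lvl s.i) Y X' := fun h3 => h1 ((hc ht).2 h3)
      rw [if_neg h1, if_neg h2]
      exact sk_beg hG p rfl rfl rfl
  · have ht' : ¬ (skel S.G).G.tick s.i = (skel S.G).G.tk := ht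
    rw [if_neg ht, if_neg ht']
    exact sk_beg hG p rfl rfl rfl

private theorem sk_main (hG : S.G.Good) (hG1 : GE1 S.G σ S.sd) (t : ℕ) :
    SkSim (S.run σ t) ((skel S.G).run σ t) := by
  induction t with
  | zero => exact ⟨fun p => sk_beg hG p rfl rfl rfl, fun _ _ _ _ => rfl⟩
  | succ t ih =>
    cases hs : σ t with
    | none => rw [sk_run_none S hs, sk_run_none (skel S.G) hs]; exact ih
    | some p =>
      have hI := run_inv S σ t
      have hI' := run_inv (skel S.G) σ t
      have hI1 := run_inv S σ (t + 1)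
      have hI1' := run_inv (skel S.G) σ (t + 1)
      have hsp := ih.st p
      rw [sk_run_some S hs] at hI1 ⊢
      rw [sk_run_some (skel S.G) hs] at hI1' ⊢
      by_cases h0 : S.G.O ≤ ((S.run σ t).st p).o
      · have h0' : (skel S.G).G.O ≤ (((skel S.G).run σ t).st p).o := hsp.o ▸ h0
        rw [sk_stop S h0, sk_stop (skel S.G) h0']
        exact ih
      have h0' : ¬ (skel S.G).G.O ≤ (((skel S.G).run σ t).st p).o := hsp.o ▸ h0
      by_cases hw : ((S.run σ t).st p).pos < ((S.run σ t).st p).T.length
      · have hw' : (((skel S.G).run σ t).st p).pos < (((skel S.G).run σ t).st p).T.length := by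
          rw [← hsp.pos, ← hsp.len]
          exact hw
        constructor
        · intro q
          by_cases hq : q = p
          · subst hq
            rw [sk_st_write S h0 hw, sk_st_write (skel S.G) h0' hw']
            exact ⟨hsp.o, hsp.i, hsp.M, congrArg (· + 1) hsp.pos, hsp.acc, hsp.len⟩
          · rw [sk_st_ne S hq, sk_st_ne (skel S.G) hq]
            exact ih.st q
        · intro w x o ch
          rcases Nat.eq_zero_or_pos ch with hch | hch
          · subst hch
            rw [hI1.mem_ext, hI1'.mem_ext]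
          · rw [sk_mem_write S h0 hw, sk_mem_write (skel S.G) h0' hw']
            by_cases hi : S.G.tick ((S.run σ t).st p).i = 0
            · have h1 : S.G.chan ((S.run σ t).st p).i = 0 := by
                unfold Geo.chan
                rw [if_pos hi]
              have h2 : (skel S.G).G.chan (((skel S.G).run σ t).st p).i = 0 := by
                rw [← hsp.i]
                exact h1
              rw [h1, h2, if_neg (by omega), if_neg (by omega)]
              exact ih.mem w x o ch
            · have hpp := sk_partner hsp (hI.tgt p) (hI'.tgt p) hi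
              rw [hpp, hsp.o, hsp.i]
              have hG' : (skel S.G).G.chan (((skel S.G).run σ t).st p).i =
                  S.G.chan (((skel S.G).run σ t).st p).i := rfl
              rw [hG']
              by_cases hc : w = p ∧ x = partner p (((skel S.G).run σ t).st p) ∧
                  o = (((skel S.G).run σ t).st p).o ∧
                  ch = S.G.chan (((skel S.G).run σ t).st p).i
              · rw [if_pos hc, if_pos hc]
                exact hsp.M
              · rw [if_neg hc, if_neg hc]
                exact ih.mem w x o ch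
      · have hw' : ¬ (((skel S.G).run σ t).st p).pos <
            (((skel S.G).run σ t).st p).T.length := by
          rw [← hsp.pos, ← hsp.len]
          exact hw
        constructor
        · intro q
          by_cases hq : q = p
          · subst hq
            rw [sk_st_read S h0 hw, sk_st_read (skel S.G) h0' hw']
            have hm := sk_msg ih hI hI' q
            unfold Sys.rd
            by_cases hlast : ((S.run σ t).st q).pos + 1 < 2 * ((S.run σ t).st q).T.length
            · have hlast' : (((skel S.G).run σ t).st q).pos + 1 <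
                  2 * (((skel S.G).run σ t).st q).T.length := by
                rw [← hsp.pos, ← hsp.len]
                exact hlast
              rw [if_pos hlast, if_pos hlast']
              refine ⟨hsp.o, hsp.i, hsp.M, congrArg (· + 1) hsp.pos, ?_, hsp.len⟩
              change ((S.run σ t).st q).accM ∪ _ = (((skel S.G).run σ t).st q).accM ∪ _
              rw [hm, hsp.acc]
            · have hlast' : ¬ (((skel S.G).run σ t).st q).pos + 1 <
                  2 * (((skel S.G).run σ t).st q).T.length := by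
                rw [← hsp.pos, ← hsp.len]
                exact hlast
              rw [if_neg hlast, if_neg hlast', ← sk_outM hsp q hm]
              have hE : S.EndAt σ t q ((S.run σ t).st q).o ((S.run σ t).st q).i
                  (outK q ((S.run σ t).st q) ((S.run σ t).mem (partner q ((S.run σ t).st q)) q
                    ((S.run σ t).st q).o (S.G.chan ((S.run σ t).st q).i)).2)
                  (S.outM q ((S.run σ t).st q) ((S.run σ t).mem (partner q ((S.run σ t).st q)) q
                    ((S.run σ t).st q).o (S.G.chan ((S.run σ t).st q).i)).1) := by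
                refine ⟨hs, by omega, rfl, rfl, ?_, rfl, rfl⟩
                have := hI.pos q
                omega
              have hE' := sk_end ih hE
              refine sk_fin hG hsp fun htk => ?_
              have h5 := sk_cert hG1 hE hE' htk
              rw [h5, hsp.o, hsp.i]
          · rw [sk_st_ne S hq, sk_st_ne (skel S.G) hq]
            exact ih.st q
        · intro w x o ch
          rw [sk_mem_read S h0 hw, sk_mem_read (skel S.G) h0' hw']
          exact ih.mem w x o ch

/-- On `GE1` the run has the times and the teams of the skeleton. -/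
theorem skel_st (hG : S.G.Good) (h1 : GE1 S.G σ S.sd) (t : ℕ) (p : Fin n) :
    ((S.run σ t).st p).o = (((skel S.G).run σ t).st p).o ∧
      ((S.run σ t).st p).i = (((skel S.G).run σ t).st p).i ∧
      ((S.run σ t).st p).M = (((skel S.G).run σ t).st p).M := by
  have h := (sk_main hG h1 t).st p
  exact ⟨h.o, h.i, h.M⟩

theorem skel_end (hG : S.G.Good) (h1 : GE1 S.G σ S.sd) {e : ℕ} {p : Fin n} {o i : ℕ}
    {X : Finset (Fact n D)} {Y : Finset (Fin n)} (h : S.EndAt σ e p o i X Y) :
    ∃ X', (skel S.G).EndAt σ e p o i X' Y := by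
  exact ⟨_, sk_end (sk_main hG h1 e) h⟩

/-- On `GE1` all certificates with large teams are accepted. -/
theorem cert_of_GE1 (hG : S.G.Good) (h1 : GE1 S.G σ S.sd) {e : ℕ} {p : Fin n} {o l : ℕ}
    {X : Finset (Fact n D)} {Y : Finset (Fin n)} (hl1 : 1 ≤ l) (hl : l ≤ S.G.L)
    (h : S.EndAt σ e p o (S.G.start l + S.G.tk) X Y) (hY : S.G.B l ≤ Y.card) :
    S.cert o l Y X := by
  have h' := sk_end (sk_main hG h1 e) h
  exact sk_cov hl h hY (h1 e p o l _ Y hl1 hl h' hY)

end Sys

end Pool.Agent.Q217
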