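import Pool.Agent.MP217Two.Tabs
import Pool.Agent.MP217Area.NumLaw
import Pool.Agent.MP217Area.CovCnt

set_option autoImplicit false

/-!
# The probability of the first good event
-/

namespace Pool.Agent.Q217

open Finset MeasureTheory
open scoped ENNReal
open Pool.Agent.MP217Upper.Model (coins)
open Pool.Agent.A217 (Nest num unif_table)

attribute [local instance 10] Classical.propDecidable

variable {n : ℕ}

/-- the picks of the two libraries agree -/
private theorem w4_pick {G : Geo n} (hG : G.Good) {l : ℕ} (hl0 : G.ν0 < l) (hl : l ≤ G.L)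
    (a : Fin n) (j s : ℕ) :
    G.pick a (G.sc l j) s = G.nest.pick (A217.sca G.L G.g G.ν0 l j) a s := by
  unfold Geo.pick Geo.sc Nest.pick A217.sca
  by_cases hj : j < G.kap0 l
  · have hj' : j < A217.kap0 G.L G.g l := hj
    rw [if_pos hj, if_pos hj', Nat.zero_max, hG.full 0 (Nat.zero_le _) (Nat.zero_le _) a,
      hG.full G.ν0 le_rfl (by omega) a]
  · have hj' : ¬ j < A217.kap0 G.L G.g l := hj
    rw [if_neg hj, if_neg hj']
    have h1 : G.ν0 + 1 + (j - G.kap0 l) / G.kap l =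
        G.ν0 + 1 + (j - A217.kap0 G.L G.g l) / A217.kap G.L l := rfl
    rw [h1, max_eq_left (le_trans (Nat.le_succ _) (Nat.le_add_right _ _))]

/-- Counting the seeds that do not cover. -/
theorem cover {G : Geo n} (hG : G.Good) {l : ℕ} (hl0 : G.ν0 < l) (hl : l ≤ G.L)
    (M : Finset (Fin n)) (hM : 2 ^ (l + 5) ≤ M.card) :
    2 ^ (16 * (G.L + 1)) * (univ.filter fun v : Fin (G.ns l) → Fin n → Fin (2 ^ (G.L + 3)) =>
      ¬ ∀ ν ≤ l, (univ.filter fun x => ¬ ∃ a ∈ M, x ∈ G.nest.N ν a ∧ (x ∈ G.nest.N l a ∨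
        ∃ j, G.pick a (G.sc l j.val) (v j a).val = x)).card < G.cap ν).card ≤
      (2 ^ (G.L + 3)) ^ (n * G.ns l) := by
  have key : ∀ (Q : ℕ) (N : Nest n G.L G.ν0 Q), Q = 4 * n * 2 ^ G.ν0 →
      (∀ ν ≤ G.ν0, ∀ x, N.N ν x = univ) →
      2 ^ (16 * (G.L + 1)) *
      (univ.filter fun v : Fin (G.ns l) → Fin n → Fin (2 ^ (G.L + 3)) =>
        ¬ ∀ ν ≤ l, (N.uncv G.g l ν M v).card < A217.cap G.ν0 ν).card ≤
      (2 ^ (G.L + 3)) ^ (n * G.ns l) := by
    rintro Q N rfl hf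
    exact N.cover_count hG.hn hG.hg hG.hν0 hf hl0 hl M hM
  refine le_trans (Nat.mul_le_mul_left _ (card_le_card ?_)) (key G.Q G.nest hG.hQ
    (fun ν h x => hG.full ν h (by omega) x))
  intro v hv
  rw [mem_filter] at hv ⊢
  refine ⟨mem_univ _, fun hall => hv.2 ?_⟩
  intro ν hν
  have h1 := hall ν hν
  have h2 : (univ.filter fun x => ¬ ∃ a ∈ M, x ∈ G.nest.N ν a ∧ (x ∈ G.nest.N l a ∨
        ∃ j, G.pick a (G.sc l j.val) (v j a).val = x)).card ≤
      (G.nest.uncv G.g l ν M v).card := by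
    refine card_le_card ?_
    intro x hx
    rw [mem_filter] at hx
    unfold Nest.uncv
    rw [mem_filter]
    refine ⟨mem_univ _, fun hex => hx.2 ?_⟩
    obtain ⟨a, ha, hx1, hx2⟩ := hex
    refine ⟨a, ha, hx1, ?_⟩
    rcases hx2 with hx2 | ⟨j, hj⟩
    · exact Or.inl hx2
    · exact Or.inr ⟨j, by rw [w4_pick hG hl0 hl]; exact hj⟩
  refine lt_of_le_of_lt h2 ?_
  unfold A217.cap at h1
  unfold Geo.cap
  by_cases h0 : ν = 0
  · rw [if_pos h0]
    rw [if_pos (by omega)] at h1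
    exact h1
  · rw [if_neg h0]
    by_cases h3 : ν ≤ G.ν0
    · rw [if_pos h3]
      rw [if_pos h3] at h1
      omega
    · rw [if_neg h3]
      rw [if_neg h3] at h1
      exact h1

/-- the seeds of a level that do not cover -/
private noncomputable def w4_bad (G : Geo n) (l : ℕ) (M : Finset (Fin n)) :
    Finset (Fin (G.ns l) → Fin n → Fin (2 ^ (G.L + 3))) :=
  univ.filter fun v =>
      ¬ ∀ ν ≤ l, (univ.filter fun x => ¬ ∃ a ∈ M, x ∈ G.nest.N ν a ∧ (x ∈ G.nest.N l a ∨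
        ∃ j, G.pick a (G.sc l j.val) (v j a).val = x)).card < G.cap ν

private theorem w4_meas (G : Geo n) (o l : ℕ)
    (B : Finset (Fin (G.ns l) → Fin n → Fin (2 ^ (G.L + 3)))) :
    MeasurableSet {c : Fin n → ℕ → Bool |
      (fun (j : Fin (G.ns l)) (a : Fin n) =>
        num (c a) (Nat.pair 0 (Nat.pair (Nat.pair o l) j.val)) (G.L + 3)) ∈ B} := by
  refine A217.meas_of_fin (univ.image fun i : Fin (G.ns l) × Fin n × Fin (G.L + 3) =>
    (i.2.1, Nat.pair (Nat.pair 0 (Nat.pair (Nat.pair o l) i.1.val)) i.2.2.val)) _ ?_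
  intro c c' h
  have h1 : (fun (j : Fin (G.ns l)) (a : Fin n) =>
        num (c a) (Nat.pair 0 (Nat.pair (Nat.pair o l) j.val)) (G.L + 3)) =
      (fun (j : Fin (G.ns l)) (a : Fin n) =>
        num (c' a) (Nat.pair 0 (Nat.pair (Nat.pair o l) j.val)) (G.L + 3)) := by
    funext j a
    unfold num
    congr 1
    funext i
    rw [h (a, Nat.pair (Nat.pair 0 (Nat.pair (Nat.pair o l) j.val)) i.val)
      (Finset.mem_image_of_mem _ (Finset.mem_univ (j, a, i)))]
  simp only [Set.mem_ofPred_eq]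
  rw [h1]

private theorem w4_law (G : Geo n) (o l : ℕ)
    (B : Finset (Fin (G.ns l) → Fin n → Fin (2 ^ (G.L + 3)))) :
    coins n {c : Fin n → ℕ → Bool |
      (fun (j : Fin (G.ns l)) (a : Fin n) =>
        num (c a) (Nat.pair 0 (Nat.pair (Nat.pair o l) j.val)) (G.L + 3)) ∈ B} =
      ((2 ^ (G.L + 3) : ℝ≥0∞)⁻¹) ^ (n * G.ns l) * (B.card : ℝ≥0∞) := by
  have hinj : Function.Injective fun j : Fin (G.ns l) =>
      Nat.pair 0 (Nat.pair (Nat.pair o l) j.val) := by
    intro j j' h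
    simp only [Nat.pair_eq_pair] at h
    exact Fin.ext h.2.2
  have h1 := unif_table (n := n) (G.ns l) (G.L + 3) _ hinj
    (fun v => if v ∈ B then (1 : ℝ≥0∞) else 0)
  have h2 : ∀ c : Fin n → ℕ → Bool,
      (if (fun (j : Fin (G.ns l)) (a : Fin n) =>
        num (c a) (Nat.pair 0 (Nat.pair (Nat.pair o l) j.val)) (G.L + 3)) ∈ B
        then (1 : ℝ≥0∞) else 0) =
      Set.indicator {c : Fin n → ℕ → Bool |
        (fun (j : Fin (G.ns l)) (a : Fin n) =>
          num (c a) (Nat.pair 0 (Nat.pair (Nat.pair o l) j.val)) (G.L + 3)) ∈ B}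
        (1 : (Fin n → ℕ → Bool) → ℝ≥0∞) c := by
    intro c
    rw [Set.indicator_apply]
    rfl
  rw [lintegral_congr h2, lintegral_indicator_one (w4_meas G o l B)] at h1
  rw [h1, Finset.sum_boole]
  congr 3
  ext v
  simp

theorem cov_prob {G : Geo n} (hG : G.Good) {o l : ℕ} (ho : o ≤ G.O) (hl : l ≤ G.L)
    (M : Finset (Fin n)) (hM : G.B l ≤ M.card) :
    coins n {c | ¬ G.Cov (fun p => sdc G (c p)) o l M} ≤ (2⁻¹ : ℝ≥0∞) ^ (16 * (G.L + 1)) := by
  have hMpos : 0 < M.card := by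
    refine lt_of_lt_of_le ?_ hM
    unfold Geo.B
    positivity
  by_cases hl0 : l ≤ G.ν0
  · have hempty : {c : Fin n → ℕ → Bool | ¬ G.Cov (fun p => sdc G (c p)) o l M} = ∅ := by
      ext c
      simp only [Set.mem_ofPred_eq, Set.mem_empty_iff_false, iff_false, not_not]
      intro ν hν
      have h0 : (univ.filter fun x => ¬ ∃ a ∈ M, x ∈ G.extList a l
          ((fun p => sdc G (c p)) a o l) ∧ x ∈ G.nest.N ν a) = ∅ := by
        refine Finset.filter_eq_empty_iff.mpr ?_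
        intro x _ hx
        obtain ⟨a, ha⟩ := card_pos.mp hMpos
        apply hx
        refine ⟨a, ha, ?_, ?_⟩
        · unfold Geo.extList
          rw [if_pos hl0]
          exact Finset.mem_toList.mpr (mem_univ x)
        · rw [hG.full ν (hν.trans hl0) (hν.trans hl) a]
          exact mem_univ x
      rw [h0, card_empty]
      unfold Geo.cap
      split_ifs
      · exact Nat.zero_lt_one
      · exact Nat.succ_pos _
      · positivity
    rw [hempty, measure_empty]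
    exact bot_le
  · have hl0' : G.ν0 < l := not_le.mp hl0
    have hsub : {c : Fin n → ℕ → Bool | ¬ G.Cov (fun p => sdc G (c p)) o l M} ⊆
        {c : Fin n → ℕ → Bool |
          (fun (j : Fin (G.ns l)) (a : Fin n) =>
            num (c a) (Nat.pair 0 (Nat.pair (Nat.pair o l) j.val)) (G.L + 3)) ∈
              w4_bad G l M} := by
      intro c hc
      simp only [Set.mem_ofPred_eq] at hc ⊢
      unfold w4_bad
      rw [mem_filter]
      refine ⟨mem_univ _, fun hall => hc ?_⟩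
      intro ν hν
      refine lt_of_le_of_lt (card_le_card ?_) (hall ν hν)
      intro x hx
      rw [mem_filter] at hx ⊢
      refine ⟨mem_univ _, fun hex => hx.2 ?_⟩
      obtain ⟨a, ha, hx1, hx2⟩ := hex
      refine ⟨a, ha, ?_, hx1⟩
      unfold Geo.extList
      rw [if_neg hl0, List.mem_append, List.mem_append]
      rcases hx2 with hx2 | ⟨j, hj⟩
      · exact Or.inl (Or.inl (Finset.mem_toList.mpr hx2))
      · refine Or.inr (List.mem_map.mpr ⟨j.val, List.mem_range.mpr j.isLt, ?_⟩)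
        have hs : sdc G (c a) o l j.val =
            (num (c a) (Nat.pair 0 (Nat.pair (Nat.pair o l) j.val)) (G.L + 3)).val := by
          unfold sdc
          rw [if_pos ⟨ho, hl, j.isLt⟩]
        change G.pick a (G.sc l j.val) (sdc G (c a) o l j.val) = x
        rw [hs]
        exact hj
    refine (measure_mono hsub).trans ?_
    rw [w4_law]
    have hc := cover hG hl0' hl M hM
    have hc' : ((2 ^ (16 * (G.L + 1)) : ℕ) : ℝ≥0∞) * ((w4_bad G l M).card : ℝ≥0∞) ≤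
        (((2 ^ (G.L + 3)) ^ (n * G.ns l) : ℕ) : ℝ≥0∞) := by
      rw [← Nat.cast_mul]
      exact_mod_cast hc
    set P : ℝ≥0∞ := (2 : ℝ≥0∞) ^ (16 * (G.L + 1)) with hP
    set R : ℝ≥0∞ := ((2 : ℝ≥0∞) ^ (G.L + 3)) ^ (n * G.ns l) with hR
    have hP0 : P ≠ 0 := by rw [hP]; exact pow_ne_zero _ (by norm_num)
    have hPt : P ≠ ⊤ := by rw [hP]; exact ENNReal.pow_ne_top (by norm_num)
    have hR0 : R ≠ 0 := by rw [hR]; exact pow_ne_zero _ (pow_ne_zero _ (by norm_num))
    have hRt : R ≠ ⊤ := by rw [hR]; exact ENNReal.pow_ne_top (ENNReal.pow_ne_top (by norm_num))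
    have h3 : P * ((w4_bad G l M).card : ℝ≥0∞) ≤ R := by
      simpa [hP, hR] using hc'
    have h4 : ((2 ^ (G.L + 3) : ℝ≥0∞)⁻¹) ^ (n * G.ns l) = R⁻¹ := by
      rw [hR]
      simp only [ENNReal.inv_pow]
    have h5 : (2⁻¹ : ℝ≥0∞) ^ (16 * (G.L + 1)) = P⁻¹ := by
      rw [hP, ENNReal.inv_pow]
    rw [h4, h5]
    have h6 : ((w4_bad G l M).card : ℝ≥0∞) ≤ R * P⁻¹ := by
      calc ((w4_bad G l M).card : ℝ≥0∞) = P * ((w4_bad G l M).card : ℝ≥0∞) * P⁻¹ := by
            rw [mul_comm P, mul_assoc, ENNReal.mul_inv_cancel hP0 hPt, mul_one]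
        _ ≤ R * P⁻¹ := by gcongr
    calc R⁻¹ * ((w4_bad G l M).card : ℝ≥0∞) ≤ R⁻¹ * (R * P⁻¹) := by gcongr
      _ = P⁻¹ := by rw [← mul_assoc, ENNReal.inv_mul_cancel hR0 hRt, one_mul]

theorem ge1_prob {G : Geo n} (hG : G.Good) (σ : ℕ → Option (Fin n)) :
    coins n {c | ¬ GE1 G σ (fun p => sdc G (c p))} ≤
      (n * G.O * (G.L + 1) : ℕ) * (2⁻¹ : ℝ≥0∞) ^ (16 * (G.L + 1)) := by
  set Z : Finset (Fin n × ℕ × ℕ) := univ ×ˢ (range G.O ×ˢ range (G.L + 1)) with hZ
  set E : Fin n × ℕ × ℕ → Set (Fin n → ℕ → Bool) := fun z =>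
    {c | ∃ e X Y, 1 ≤ z.2.2 ∧ (skel G).EndAt σ e z.1 z.2.1 (G.start z.2.2 + G.tk) X Y ∧
      G.B z.2.2 ≤ Y.card ∧ ¬ G.Cov (fun p => sdc G (c p)) z.2.1 z.2.2 Y} with hE
  have hsub : {c : Fin n → ℕ → Bool | ¬ GE1 G σ (fun p => sdc G (c p))} ⊆ ⋃ z ∈ Z, E z := by
    intro c hc
    simp only [Set.mem_ofPred_eq, GE1] at hc
    push Not at hc
    obtain ⟨e, p, o, l, X, Y, hl1, hl, h, hY, hcov⟩ := hc
    rw [Set.mem_iUnion₂]
    refine ⟨(p, o, l), ?_, ?_⟩
    · rw [hZ, mem_product, mem_product, mem_range, mem_range]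
      exact ⟨mem_univ _, h.act, Nat.lt_succ_of_le hl⟩
    · rw [hE]
      exact ⟨e, X, Y, hl1, h, hY, hcov⟩
  have hone : ∀ z ∈ Z, coins n (E z) ≤ (2⁻¹ : ℝ≥0∞) ^ (16 * (G.L + 1)) := by
    rintro ⟨p, o, l⟩ hz
    rw [hZ, mem_product, mem_product, mem_range, mem_range] at hz
    obtain ⟨-, ho, hl⟩ := hz
    by_cases hex : ∃ e X Y, 1 ≤ l ∧ (skel G).EndAt σ e p o (G.start l + G.tk) X Y ∧
        G.B l ≤ Y.card
    · obtain ⟨e, X, Y, hl1, h, hY⟩ := hex
      have h1 : E (p, o, l) ⊆ {c | ¬ G.Cov (fun p => sdc G (c p)) o l Y} := by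
        rintro c ⟨e', X', Y', -, h', hY', hcov⟩
        obtain ⟨-, -, rfl⟩ := h.unique h'
        exact hcov
      exact (measure_mono h1).trans
        (cov_prob hG (le_of_lt ho) (by simpa using Nat.le_of_lt_succ hl) Y hY)
    · have h1 : E (p, o, l) = ∅ := by
        ext c
        simp only [Set.mem_empty_iff_false, iff_false]
        rintro ⟨e', X', Y', hl1, h', hY', hcov⟩
        exact hex ⟨e', X', Y', hl1, h', hY'⟩
      rw [h1, measure_empty]
      exact bot_le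
  calc coins n {c | ¬ GE1 G σ (fun p => sdc G (c p))}
      ≤ coins n (⋃ z ∈ Z, E z) := measure_mono hsub
    _ ≤ ∑ z ∈ Z, coins n (E z) := measure_biUnion_finset_le _ _
    _ ≤ ∑ _z ∈ Z, (2⁻¹ : ℝ≥0∞) ^ (16 * (G.L + 1)) := sum_le_sum hone
    _ = (Z.card : ℝ≥0∞) * (2⁻¹ : ℝ≥0∞) ^ (16 * (G.L + 1)) := by
        rw [sum_const, nsmul_eq_mul]
    _ = _ := by
        have : Z.card = n * G.O * (G.L + 1) := by
          rw [hZ, card_product, card_product, card_range, card_range, card_univ,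
            Fintype.card_fin, mul_assoc]
        rw [this]

end Pool.Agent.Q217
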