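import Pool.Agent.MP217Two.Rule
import Pool.Agent.MP217Two.PErase

set_option autoImplicit false

/-!
# The personas
-/

namespace Pool.Agent.Q217

open Finset

attribute [local instance 10] Classical.propDecidable

variable {n : ℕ} {A : Tab n} {G : Geo n} {k : ℕ} {σ : ℕ → Option (Fin n)}

private theorem best_map {α : Type} (P : α → Prop) (key : α → ℕ) (d : α) (f : α → Fin n)
    (F : Finset (Fin n)) (key' : Fin n → ℕ) (x : Fin n)
    (hkey : ∀ a, P a → key a = key' (f a)) (h1 : ∀ a, P a → f a ∈ F)
    (h2 : ∀ y ∈ F, ∃ a, P a ∧ f a = y) (hd : (¬ ∃ a, P a) → f d = x)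
    (hinj : Function.Injective key') :
    f (best P key d) = best (fun y => y ∈ F) key' x := by
  by_cases h : ∃ a, P a
  · obtain ⟨hb1, hb2⟩ := best_spec (key := key) (d := d) h
    have hF : ∃ y, y ∈ F := by
      obtain ⟨a, ha⟩ := h
      exact ⟨f a, h1 a ha⟩
    obtain ⟨hc1, hc2⟩ := best_spec (P := fun y => y ∈ F) (key := key') (d := x) hF
    obtain ⟨a, ha, hfa⟩ := h2 _ hc1
    have e1 := hb2 a ha
    have e2 := hc2 _ (h1 _ hb1)
    rw [hkey _ ha, hfa, hkey _ hb1] at e1
    exact hinj (le_antisymm e1 e2)
  · rw [best_none h, best_none, hd h]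
    rintro ⟨y, hy⟩
    obtain ⟨a, ha, -⟩ := h2 y hy
    exact h ⟨a, ha⟩

private theorem key_inj (key : Fin n → ℕ) :
    Function.Injective fun y : Fin n => key y * n + y.val := by
  intro y y' h
  have h' : key y * n + y.val = key y' * n + y'.val := h
  have h1 := congrArg (fun m => m % n) h'
  simp only [Nat.mul_add_mod_self_right, Nat.mod_eq_of_lt y.isLt, Nat.mod_eq_of_lt y'.isLt] at h1
  exact Fin.ext h1

/-- Personas are consistent until the decision. -/
theorem persona {t : ℕ} {p : Fin n} {o i : ℕ} (h : (A.sys G k).At σ t p o i) (ho : o ≤ k + 2) :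
    (((A.sys G k).run σ t).st p).d.bit = A.x (((A.sys G k).run σ t).st p).d.pid ∧
      (((A.sys G k).run σ t).st p).d.rk = A.rk (((A.sys G k).run σ t).st p).d.pid := by
  induction t using Nat.strong_induction_on generalizing p o i with
  | _ t ih =>
    rcases i with _ | i
    · rcases o with _ | o
      · have h0 := (Sys.at_zero h).1
        rw [h0]
        exact ⟨rfl, rfl⟩
      · obtain ⟨e, he, i', X, Y, hE, -, -, -, hd⟩ := Sys.prev_obj h
        have ihe := ih e he hE.at (by omega)
        have hgen : ∀ a o' i'' d', Fact.lab a o' i'' d' ∈ X → o' ≤ k + 2 →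
            d'.bit = A.x d'.pid ∧ d'.rk = A.rk d'.pid := by
          intro a o' i'' d' hl ho'
          obtain ⟨t', ht', hat, hd', -⟩ := Sys.genuine_X hE hl
          have := ih t' (by omega) hat ho'
          rw [hd'] at this
          exact this
        rw [hd]
        by_cases h0 : o = 0
        · have hn : (A.sys G k).nxt p o i' true X (((A.sys G k).run σ e).st p).d =
              adopt (best (flagd X) (fun d' => d'.pid.val) (((A.sys G k).run σ e).st p).d)
                (((A.sys G k).run σ e).st p).d := by
            simp [Tab.sys, h0]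
          rw [hn]
          simp only [adopt]
          by_cases hex : ∃ d', flagd X d'
          · obtain ⟨hb, -⟩ := best_spec (key := fun d' : Dt n => d'.pid.val)
              (d := (((A.sys G k).run σ e).st p).d) hex
            obtain ⟨⟨a, i'', hl⟩, -⟩ := hb
            exact hgen a 0 i'' _ hl (by omega)
          · rw [best_none hex]
            exact ihe
        · by_cases hk : o ≤ k
          · have hn : (A.sys G k).nxt p o i' true X (((A.sys G k).run σ e).st p).d =
                adopt (best (labd o X) (fun d' => d'.rk.getD o 0 * n + d'.pid.val)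
                  (((A.sys G k).run σ e).st p).d) (((A.sys G k).run σ e).st p).d := by
              simp [Tab.sys, h0, hk]
            rw [hn]
            simp only [adopt]
            by_cases hex : ∃ d', labd o X d'
            · obtain ⟨hb, -⟩ := best_spec
                (key := fun d' : Dt n => d'.rk.getD o 0 * n + d'.pid.val)
                (d := (((A.sys G k).run σ e).st p).d) hex
              obtain ⟨a, hl⟩ := hb
              exact hgen a o 0 _ hl (by omega)
            · rw [best_none hex]
              exact ihe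
          · have hk1 : o = k + 1 := by omega
            have hn : ∃ b, (A.sys G k).nxt p o i' true X (((A.sys G k).run σ e).st p).d =
                { (((A.sys G k).run σ e).st p).d with flag := b } := by
              refine ⟨decide (∀ a d', Fact.lab a o 0 d' ∈ X →
                d'.bit = (((A.sys G k).run σ e).st p).d.bit), ?_⟩
              simp [Tab.sys, hk1]
            obtain ⟨b, hb⟩ := hn
            rw [hb]
            exact ihe
    · obtain ⟨e, he, X, Y, hE, -, -, -, hd⟩ := Sys.prev_pass h
      have ihe := ih e he hE.at ho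
      rw [hd]
      by_cases h0 : o = 0
      · have hn : (A.sys G k).nxt p o i false X (((A.sys G k).run σ e).st p).d =
            { (((A.sys G k).run σ e).st p).d with flag := A.fl p (G.lvl (i + 1)) } := by
          simp [Tab.sys, h0]
        rw [hn]
        exact ihe
      · have hn : (A.sys G k).nxt p o i false X (((A.sys G k).run σ e).st p).d =
            (((A.sys G k).run σ e).st p).d := by
          simp [Tab.sys, h0]
        rw [hn]
        exact ihe

/-- In object `0`. -/
theorem persona_zero {t : ℕ} {p : Fin n} {i : ℕ} (h : (A.sys G k).At σ t p 0 i) :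
    (((A.sys G k).run σ t).st p).d.pid = p ∧
      (((A.sys G k).run σ t).st p).d.flag = A.fl p (G.lvl i) := by
  induction t using Nat.strong_induction_on generalizing i with
  | _ t ih =>
    rcases i with _ | i
    · have h0 := (Sys.at_zero h).1
      rw [h0]
      refine ⟨rfl, ?_⟩
      change A.fl p G.L = A.fl p (G.lvl 0)
      simp [Geo.lvl]
    · obtain ⟨e, he, X, Y, hE, -, -, -, hd⟩ := Sys.prev_pass h
      have ihe := ih e he hE.at
      have hn : (A.sys G k).nxt p 0 i false X (((A.sys G k).run σ e).st p).d =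
          { (((A.sys G k).run σ e).st p).d with flag := A.fl p (G.lvl (i + 1)) } := by
        simp [Tab.sys]
      rw [hd, hn]
      exact ⟨ihe.1, rfl⟩

/-- The recursion of the personas. -/
theorem pid_eq {t : ℕ} {p : Fin n} {j : ℕ} (hj : j ≤ k) (h : (A.sys G k).At σ t p (j + 1) 0) :
    (((A.sys G k).run σ t).st p).d.pid =
      pidR (kn (noData G true A.sd) σ) (pid1 (noData G true A.sd) σ A.fl)
        (fun j a => (A.rk a).getD j 0) j p := by
  have eat : ∀ t p o i, (A.sys G k).At σ t p o i ↔ (noData G true A.sd).At σ t p o i :=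
    fun t p o i => Sys.erase_at (A.sys G k) σ t p o i
  have elb : ∀ (t : ℕ) (p a : Fin n) (o i : ℕ),
      (∃ d, Fact.lab a o i d ∈ (((A.sys G k).run σ t).st p).K) ↔
      Fact.lab a o i () ∈ (((noData G true A.sd).run σ t).st p).K :=
    fun t p a o i => Sys.erase_lab (A.sys G k) σ t p a o i
  induction j generalizing t p with
  | zero =>
    obtain ⟨e, he, i', X, Y, hE, -, -, hK, hd⟩ := Sys.prev_obj h
    have hn : (A.sys G k).nxt p 0 i' true X (((A.sys G k).run σ e).st p).d =
        adopt (best (flagd X) (fun d' => d'.pid.val) (((A.sys G k).run σ e).st p).d)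
          (((A.sys G k).run σ e).st p).d := by
      simp [Tab.sys]
    rw [hd, hn]
    simp only [adopt, pidR, pid1, amin]
    have hgen : ∀ a i'' d', Fact.lab a 0 i'' d' ∈ X →
        d'.pid = a ∧ d'.flag = A.fl a (G.lvl i'') := by
      intro a i'' d' hl
      obtain ⟨t', ht', hat, hd', -⟩ := Sys.genuine_X hE hl
      have := persona_zero hat
      rw [hd'] at this
      exact this
    have hX : ∀ a i'' d', Fact.lab a 0 i'' d' ∈ (((A.sys G k).run σ t).st p).K ↔
        Fact.lab a 0 i'' d' ∈ X := by
      intro a i'' d'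
      rw [hK, Finset.mem_insert]
      constructor
      · rintro (h1 | h1)
        · simp at h1
        · exact h1
      · exact Or.inr
    refine best_map (flagd X) (fun d' => d'.pid.val) _ (fun d' => d'.pid) _
      (fun y => 0 * n + y.val) p ?_ ?_ ?_ ?_ (key_inj fun _ => 0)
    · intro a _
      simp
    · rintro d' ⟨⟨a, i'', hl⟩, hf⟩
      obtain ⟨h1, h2⟩ := hgen a i'' d' hl
      simp only [fset, Finset.mem_filter, Finset.mem_univ, true_and]
      refine ⟨t, i'', (eat t p 1 0).1 h, ?_, ?_⟩
      · rw [h1]
        exact (elb t p a 0 i'').1 ⟨d', (hX a i'' d').2 hl⟩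
      · rw [h1]
        change A.fl a (G.lvl i'') = true
        rw [← h2]
        exact hf
    · intro y hy
      simp only [fset, Finset.mem_filter, Finset.mem_univ, true_and] at hy
      obtain ⟨t', i'', hat, hl, hf⟩ := hy
      obtain ⟨d', hd'⟩ := (elb t' p y 0 i'').2 hl
      have hat' : (A.sys G k).At σ t' p 1 0 := (eat t' p 1 0).2 hat
      have hKt := (Sys.at_unique h hat').2.1
      rw [hKt] at hd'
      have hlX := (hX y i'' d').1 hd'
      obtain ⟨h1, h2⟩ := hgen y i'' d' hlX
      refine ⟨d', ⟨⟨y, i'', hlX⟩, ?_⟩, h1⟩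
      rw [h2]
      exact hf
    · intro _
      exact (persona_zero hE.at).1
  | succ j ih =>
    obtain ⟨e, he, i', X, Y, hE, -, -, hK, hd⟩ := Sys.prev_obj h
    have hn : (A.sys G k).nxt p (j + 1) i' true X (((A.sys G k).run σ e).st p).d =
        adopt (best (labd (j + 1) X) (fun d' => d'.rk.getD (j + 1) 0 * n + d'.pid.val)
          (((A.sys G k).run σ e).st p).d) (((A.sys G k).run σ e).st p).d := by
      simp [Tab.sys, hj]
    rw [hd, hn]
    simp only [adopt, pidR, amin]
    have hgen : ∀ a d', Fact.lab a (j + 1) 0 d' ∈ X →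
        d'.pid = pidR (kn (noData G true A.sd) σ) (pid1 (noData G true A.sd) σ A.fl)
          (fun j a => (A.rk a).getD j 0) j a ∧ d'.rk = A.rk d'.pid := by
      intro a d' hl
      obtain ⟨t', ht', hat, hd', -⟩ := Sys.genuine_X hE hl
      have h1 := ih (by omega) hat
      have h2 := (persona hat (by omega)).2
      rw [hd'] at h1 h2
      exact ⟨h1, h2⟩
    have hX : ∀ a d', Fact.lab a (j + 1) 0 d' ∈ (((A.sys G k).run σ t).st p).K ↔
        Fact.lab a (j + 1) 0 d' ∈ X := by
      intro a d'
      rw [hK, Finset.mem_insert]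
      constructor
      · rintro (h1 | h1)
        · simp at h1
        · exact h1
      · exact Or.inr
    refine best_map (labd (j + 1) X) (fun d' => d'.rk.getD (j + 1) 0 * n + d'.pid.val) _
      (fun d' => d'.pid) _ (fun y => (A.rk y).getD (j + 1) 0 * n + y.val) p ?_ ?_ ?_ ?_
      (key_inj fun y => (A.rk y).getD (j + 1) 0)
    · rintro d' ⟨a, hl⟩
      simp only [(hgen a d' hl).2]
    · rintro d' ⟨a, hl⟩
      rw [Finset.mem_image]
      refine ⟨a, ?_, (hgen a d' hl).1.symm⟩
      simp only [kn, Finset.mem_filter, Finset.mem_univ, true_and]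
      exact ⟨t, (eat _ _ _ _).1 h, (elb _ _ _ _ _).1 ⟨d', (hX a d').2 hl⟩⟩
    · intro y hy
      rw [Finset.mem_image] at hy
      obtain ⟨a, ha, hay⟩ := hy
      simp only [kn, Finset.mem_filter, Finset.mem_univ, true_and] at ha
      obtain ⟨t', hat, hl⟩ := ha
      obtain ⟨d', hd'⟩ := (elb _ _ _ _ _).2 hl
      have hat' : (A.sys G k).At σ t' p (j + 1 + 1) 0 := (eat _ _ _ _).2 hat
      have hKt := (Sys.at_unique h hat').2.1
      rw [hKt] at hd'
      have hlX := (hX a d').1 hd'
      refine ⟨d', ⟨a, hlX⟩, ?_⟩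
      rw [← hay]
      exact (hgen a d' hlX).1
    · intro hno
      exfalso
      apply hno
      obtain ⟨t', ht', hat⟩ := Sys.at_down hE.at (Nat.zero_le i')
      have hinv := (Sys.run_inv (A.sys G k) σ t').lab p
      rw [hat.1, hat.2] at hinv
      exact ⟨(((A.sys G k).run σ t').st p).d, p,
        hE.K_le (Sys.run_K_mono (A.sys G k) σ ht' p hinv)⟩

/-- The structure of the run is as required by the sifting lemma. -/
theorem kn_subset (G : Geo n) (sd : Fin n → ℕ → ℕ → ℕ → ℕ) (σ : ℕ → Option (Fin n)) (j : ℕ)
    (p : Fin n) : kn (noData G true sd) σ j p ⊆ ent (noData G true sd) σ j := by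
  intro a ha
  simp only [kn, Finset.mem_filter, Finset.mem_univ, true_and] at ha
  obtain ⟨t, -, hl⟩ := ha
  obtain ⟨t', -, hat, -, -⟩ := Sys.genuine_K hl
  simp only [ent, Finset.mem_filter, Finset.mem_univ, true_and]
  exact ⟨t', hat⟩

theorem kn_inter (hG : G.Good) (sd : Fin n → ℕ → ℕ → ℕ → ℕ) (σ : ℕ → Option (Fin n)) {j : ℕ}
    {p p' : Fin n} (h : p ∈ ent (noData G true sd) σ (j + 1))
    (h' : p' ∈ ent (noData G true sd) σ (j + 1)) :
    (kn (noData G true sd) σ j p ∩ kn (noData G true sd) σ j p').Nonempty := by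
  simp only [ent, Finset.mem_filter, Finset.mem_univ, true_and] at h h'
  obtain ⟨t, ht⟩ := h
  obtain ⟨t', ht'⟩ := h'
  obtain ⟨a, d, h1, h2⟩ := Sys.pair_view (S := noData G true sd) hG rfl ht ht'
  refine ⟨a, ?_⟩
  rw [Finset.mem_inter]
  simp only [kn, Finset.mem_filter, Finset.mem_univ, true_and]
  exact ⟨⟨t, ht, h1⟩, ⟨t', ht', h2⟩⟩

end Pool.Agent.Q217
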