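import Pool.Agent.MP217Two.PPair

set_option autoImplicit false

/-!
# The rules of one round: definitions
-/

namespace Pool.Agent.Q217

open Finset

attribute [local instance 10] Classical.propDecidable

/-- Data of a processor: the persona (process, preference, ranks), a flag, the decision. -/
structure Dt (n : ℕ) : Type where
  pid : Fin n
  bit : Bool
  rk : List ℕ
  flag : Bool
  dec : Bool

variable {n : ℕ}

/-- An element with property `P` and smallest key, if there is an element with property `P`. -/
noncomputable def best {α : Type} (P : α → Prop) (key : α → ℕ) (d : α) : α :=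
  if h : ∃ m, ∃ x, P x ∧ key x = m then (Nat.find_spec h).choose else d

theorem best_spec {α : Type} {P : α → Prop} {key : α → ℕ} {d : α} (h : ∃ x, P x) :
    P (best P key d) ∧ ∀ y, P y → key (best P key d) ≤ key y := by
  have h' : ∃ m, ∃ x, P x ∧ key x = m := by
    obtain ⟨x, hx⟩ := h
    exact ⟨_, x, hx, rfl⟩
  have h1 := (Nat.find_spec h').choose_spec
  have h2 : best P key d = (Nat.find_spec h').choose := by
    unfold best
    rw [dif_pos h']
  rw [h2]
  refine ⟨h1.1, fun y hy => ?_⟩
  rw [h1.2]
  exact Nat.find_min' h' ⟨y, hy, rfl⟩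

theorem best_none {α : Type} {P : α → Prop} {key : α → ℕ} {d : α} (h : ¬ ∃ x, P x) :
    best P key d = d := by
  unfold best
  rw [dif_neg]
  rintro ⟨m, x, hx, -⟩
  exact h ⟨x, hx⟩

/-- `true` if `P true`, else `false` if `P false`, else the default. -/
noncomputable def pick (P : Bool → Prop) (x : Bool) : Bool :=
  if P true then true else if P false then false else x

/-- Adopt the persona of `d'`. -/
def adopt (d' d : Dt n) : Dt n := { d with pid := d'.pid, bit := d'.bit, rk := d'.rk }

/-- There is a label of object `o` with data `d`. -/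
def labd (o : ℕ) (K : Finset (Fact n (Dt n))) (d : Dt n) : Prop :=
  ∃ a, Fact.lab a o 0 d ∈ K

/-- There is a flagged label of object `0` with data `d`. -/
def flagd (K : Finset (Fact n (Dt n))) (d : Dt n) : Prop :=
  (∃ a i, Fact.lab a 0 i d ∈ K) ∧ d.flag = true

/-- There is a strong label with preference `v`. -/
def strong (o : ℕ) (K : Finset (Fact n (Dt n))) (v : Bool) : Prop :=
  ∃ a d, Fact.lab a o 0 d ∈ K ∧ d.flag = true ∧ d.bit = v

/-- The tables of a round: the preferences `x`, the flags `fl`, the ranks `rk`, the seeds `sd`. -/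
structure Tab (n : ℕ) where
  x : Fin n → Bool
  fl : Fin n → ℕ → Bool
  rk : Fin n → List ℕ
  sd : Fin n → ℕ → ℕ → ℕ → ℕ

/-- The protocol of a round with `k` sifting objects. -/
noncomputable def Tab.sys (A : Tab n) (G : Geo n) (k : ℕ) : Sys n (Dt n) where
  G := G
  b := true
  sd := A.sd
  d0 p := ⟨p, A.x p, A.rk p, A.fl p G.L, false⟩
  nxt p o i fin K d :=
    if fin = false then (if o = 0 then { d with flag := A.fl p (G.lvl (i + 1)) } else d)
    else if o = 0 then adopt (best (flagd K) (fun d' => d'.pid.val) d) d
    else if o ≤ k then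
      adopt (best (labd o K) (fun d' => d'.rk.getD o 0 * n + d'.pid.val) d) d
    else if o = k + 1 then
      { d with flag := decide (∀ a d', Fact.lab a o 0 d' ∈ K → d'.bit = d.bit) }
    else { d with
      bit := pick (strong o K) d.bit
      dec := decide (∀ a d', Fact.lab a o 0 d' ∈ K → d'.flag = true) }

/-! ### The personas as functions of the structure of the run -/

/-- The element of `F` with the smallest key (ties are broken by the index). -/
noncomputable def amin (key : Fin n → ℕ) (F : Finset (Fin n)) (x : Fin n) : Fin n :=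
  best (fun y => y ∈ F) (fun y => key y * n + y.val) x

/-- The personas: `pidR kn p1 rk j p` is the persona of `p` when it enters object `j + 1`. -/
noncomputable def pidR (kn : ℕ → Fin n → Finset (Fin n)) (p1 : Fin n → Fin n)
    (rk : ℕ → Fin n → ℕ) : ℕ → Fin n → Fin n
  | 0 => p1
  | j + 1 => fun p => amin (rk (j + 1)) ((kn (j + 1) p).image (pidR kn p1 rk j)) p

/-- The processors that enter object `j`. -/
noncomputable def ent (E : Sys n Unit) (σ : ℕ → Option (Fin n)) (j : ℕ) : Finset (Fin n) :=
  univ.filter fun p => E.Reach σ p j 0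

/-- The processors whose label of object `j` is known to `p` when it completes object `j`. -/
noncomputable def kn (E : Sys n Unit) (σ : ℕ → Option (Fin n)) (j : ℕ) (p : Fin n) :
    Finset (Fin n) :=
  univ.filter fun a => ∃ t, E.At σ t p (j + 1) 0 ∧ Fact.lab a j 0 () ∈ ((E.run σ t).st p).K

/-- The processors with a flagged label of object `0` that is known to `p` when it completes
object `0`. -/
noncomputable def fset (E : Sys n Unit) (σ : ℕ → Option (Fin n)) (fl : Fin n → ℕ → Bool)
    (p : Fin n) : Finset (Fin n) :=
  univ.filter fun a => ∃ t i, E.At σ t p 1 0 ∧ Fact.lab a 0 i () ∈ ((E.run σ t).st p).K ∧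
    fl a (E.G.lvl i) = true

/-- The personas after the lottery. -/
noncomputable def pid1 (E : Sys n Unit) (σ : ℕ → Option (Fin n)) (fl : Fin n → ℕ → Bool)
    (p : Fin n) : Fin n :=
  amin (fun _ => 0) (fset E σ fl p) p

end Pool.Agent.Q217
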