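import Pool.Agent.MP217Two.Rule
import Pool.Agent.MP217Area.Sift

set_option autoImplicit false

/-!
# Repeated sifting
-/

namespace Pool.Agent.Q217

open Pool.Agent.A217 (IsMin sift)

open Finset

attribute [local instance 10] Classical.propDecidable

/-- A table of ranks as a function. -/
def rtab {n R k : ℕ} (v : Fin k → Fin n → Fin R) (j : ℕ) (a : Fin n) : ℕ :=
  if h : j < k then (v ⟨j, h⟩ a).val else 0

/-- Averaging over one coordinate. -/
private theorem SiftK_avg {κ α : Type} [Fintype κ] [DecidableEq κ] [Fintype α] (i : κ)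
    (f : (κ → α) → ℕ) :
    ∑ v : κ → α, ∑ w : α, f (Function.update v i w) = Fintype.card α * ∑ v : κ → α, f v := by
  let e : (κ → α) × α ≃ (κ → α) × α :=
    ⟨fun p => (Function.update p.1 i p.2, p.1 i), fun p => (Function.update p.1 i p.2, p.1 i),
      fun p => by simp, fun p => by simp⟩
  have h1 : ∑ p : (κ → α) × α, f (Function.update p.1 i p.2) = ∑ p : (κ → α) × α, f p.1 :=
    Equiv.sum_comp e fun p => f p.1
  rw [Fintype.sum_prod_type, Fintype.sum_prod_type] at h1
  rw [h1, Finset.mul_sum]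
  refine Finset.sum_congr rfl fun v _ => ?_
  simp only [Finset.sum_const, Finset.card_univ, smul_eq_mul]

private theorem SiftK_congr {n : ℕ} (kn : ℕ → Fin n → Finset (Fin n)) (p1 : Fin n → Fin n)
    {rk rk' : ℕ → Fin n → ℕ} : ∀ j : ℕ, (∀ i ≤ j, rk i = rk' i) →
    pidR kn p1 rk j = pidR kn p1 rk' j := by
  intro j
  induction j with
  | zero => intro _; rfl
  | succ j ih =>
    intro h
    funext p
    simp only [pidR]
    rw [ih fun i hi => h i (by omega), h (j + 1) le_rfl]

private theorem SiftK_min {n R : ℕ} (v : Fin n → Fin R) {F : Finset (Fin n)} (hF : F.Nonempty)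
    (x : Fin n) : IsMin v F (amin (fun a => (v a).val) F x) := by
  obtain ⟨y0, hy0⟩ := hF
  obtain ⟨h1, h2⟩ := best_spec (P := fun y => y ∈ F)
    (key := fun y : Fin n => (v y).val * n + y.val) (d := x) ⟨y0, hy0⟩
  refine ⟨h1, fun y hy => ?_⟩
  have h3 := h2 y hy
  set z := best (fun y => y ∈ F) (fun y : Fin n => (v y).val * n + y.val) x with hz
  have h4 : amin (fun a => (v a).val) F x = z := rfl
  rw [h4]
  have hz1 : z.val < n := z.isLt
  have hy1 : y.val < n := y.isLt
  rcases Nat.lt_trichotomy (v z).val (v y).val with h | h | h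
  · exact Or.inl h
  · refine Or.inr ⟨Fin.ext h, ?_⟩
    rw [h] at h3
    exact Fin.le_def.2 (by omega)
  · exfalso
    have h5 : (v y).val * n + n ≤ (v z).val * n := by
      calc (v y).val * n + n = ((v y).val + 1) * n := by ring
        _ ≤ (v z).val * n := Nat.mul_le_mul_right _ h
    omega

/-- One step of the sifting for fixed earlier ranks. -/
private theorem SiftK_step {n R : ℕ} (en : ℕ → Finset (Fin n))
    (kn : ℕ → Fin n → Finset (Fin n)) (p1 : Fin n → Fin n)
    (hkn : ∀ j p, kn j p ⊆ en j)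
    (hint : ∀ j p p', p ∈ en (j + 1) → p' ∈ en (j + 1) → (kn j p ∩ kn j p').Nonempty)
    (rk : ℕ → Fin n → ℕ) (j : ℕ) :
    4 * R * ∑ w : Fin n → Fin R, ((en (j + 2)).image
        (pidR kn p1 (Function.update rk (j + 1) fun a => (w a).val) (j + 1))).card ≤
      R ^ n * (2 * R * (((en (j + 1)).image (pidR kn p1 rk j)).card + 1) +
        ((en (j + 1)).image (pidR kn p1 rk j)).card ^ 2) := by
  set U := (en (j + 1)).image (pidR kn p1 rk j) with hU
  let F : {p // p ∈ en (j + 2)} → Finset (Fin n) :=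
    fun p => (kn (j + 1) p.1).image (pidR kn p1 rk j)
  have hF1 : ∀ i, F i ⊆ U := fun i => Finset.image_subset_image (hkn (j + 1) i.1)
  have hF2 : ∀ i i', (F i ∩ F i').Nonempty := by
    intro i i'
    obtain ⟨a, ha⟩ := hint (j + 1) i.1 i'.1 i.2 i'.2
    rw [Finset.mem_inter] at ha
    exact ⟨pidR kn p1 rk j a, Finset.mem_inter.2
      ⟨Finset.mem_image_of_mem _ ha.1, Finset.mem_image_of_mem _ ha.2⟩⟩
  refine le_trans (Nat.mul_le_mul_left _ (Finset.sum_le_sum fun w _ => ?_))
    (sift (R := R) U F hF1 hF2)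
  refine Finset.card_le_card ?_
  intro x hx
  rw [Finset.mem_image] at hx
  obtain ⟨p, hp, rfl⟩ := hx
  have h1 : pidR kn p1 (Function.update rk (j + 1) fun a => (w a).val) (j + 1) p =
      amin (fun a => (w a).val) (F ⟨p, hp⟩) p := by
    simp only [pidR, Function.update_self]
    rw [SiftK_congr kn p1 (rk' := rk) j fun i hi => Function.update_of_ne (by omega) _ _]
  have h2 : IsMin w (F ⟨p, hp⟩) (amin (fun a => (w a).val) (F ⟨p, hp⟩) p) := by
    refine SiftK_min w ?_ p
    obtain ⟨y, hy⟩ := hF2 ⟨p, hp⟩ ⟨p, hp⟩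
    exact ⟨y, (Finset.mem_inter.1 hy).1⟩
  rw [h1]
  simp only [Finset.mem_filter]
  exact ⟨hF1 _ h2.1, ⟨p, hp⟩, h2⟩

private theorem SiftK_rtab {n R k : ℕ} (v : Fin k → Fin n → Fin R) {j : ℕ} (hj : j < k)
    (w : Fin n → Fin R) : rtab (Function.update v ⟨j, hj⟩ w) =
      Function.update (rtab v) j fun a => (w a).val := by
  funext i a
  by_cases hi : i = j
  · subst hi
    rw [Function.update_self]
    unfold rtab
    rw [dif_pos hj, Function.update_self]
  · rw [Function.update_of_ne hi]
    unfold rtab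
    split_ifs with h
    · rw [Function.update_of_ne]
      intro h'
      exact hi (congrArg Fin.val h')
    · rfl

/-- The sums of the numbers of personas. -/
private theorem SiftK_sum {n R k : ℕ} (hR : 0 < R) (en : ℕ → Finset (Fin n))
    (kn : ℕ → Fin n → Finset (Fin n)) (p1 : Fin n → Fin n)
    (hkn : ∀ j p, kn j p ⊆ en j)
    (hint : ∀ j p p', p ∈ en (j + 1) → p' ∈ en (j + 1) → (kn j p ∩ kn j p').Nonempty) :
    ∀ j ≤ k, 2 ^ (j + 1) * R * ∑ v : Fin (k + 1) → Fin n → Fin R,
      ((en (j + 1)).image (pidR kn p1 (rtab v) j)).card ≤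
      R ^ (n * (k + 1)) * (2 * R * ((en 1).image p1).card + 2 ^ j * n ^ 2 +
        2 ^ (j + 1) * R) := by
  have hN : Fintype.card (Fin (k + 1) → Fin n → Fin R) = R ^ (n * (k + 1)) := by
    rw [Fintype.card_fun, Fintype.card_fun, Fintype.card_fin, Fintype.card_fin,
      Fintype.card_fin, pow_mul]
  have hα : Fintype.card (Fin n → Fin R) = R ^ n := by
    rw [Fintype.card_fun, Fintype.card_fin, Fintype.card_fin]
  intro j
  induction j with
  | zero =>
    intro _
    have h1 : ∑ v : Fin (k + 1) → Fin n → Fin R, ((en (0 + 1)).image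
        (pidR kn p1 (rtab v) 0)).card = R ^ (n * (k + 1)) * ((en 1).image p1).card := by
      have h2 : ∀ v : Fin (k + 1) → Fin n → Fin R, ((en (0 + 1)).image
        (pidR kn p1 (rtab v) 0)).card = ((en 1).image p1).card := fun v => rfl
      rw [Finset.sum_congr rfl fun v _ => h2 v, Finset.sum_const, Finset.card_univ, hN,
        smul_eq_mul]
    rw [h1]
    have h3 : 2 ^ (0 + 1) * R * (R ^ (n * (k + 1)) * ((en 1).image p1).card) =
        R ^ (n * (k + 1)) * (2 * R * ((en 1).image p1).card) := by ring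
    rw [h3]
    exact Nat.mul_le_mul_left _ (by omega)
  | succ j ih =>
    intro hj
    have ih' := ih (by omega)
    set E : ℕ → ℕ := fun i => ∑ v : Fin (k + 1) → Fin n → Fin R,
      ((en (i + 1)).image (pidR kn p1 (rtab v) i)).card with hE
    have hjk : j + 1 < k + 1 := by omega
    have h1 : 4 * R * (R ^ n * E (j + 1)) ≤
        R ^ n * (2 * R * E j + (2 * R + n ^ 2) * R ^ (n * (k + 1))) := by
      have h2 : R ^ n * E (j + 1) = ∑ v : Fin (k + 1) → Fin n → Fin R,
          ∑ w : Fin n → Fin R, ((en (j + 2)).image (pidR kn p1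
            (Function.update (rtab v) (j + 1) fun a => (w a).val) (j + 1))).card := by
        rw [hE, ← hα]
        simp only
        rw [← SiftK_avg (⟨j + 1, hjk⟩ : Fin (k + 1))]
        refine Finset.sum_congr rfl fun v _ => Finset.sum_congr rfl fun w _ => ?_
        rw [SiftK_rtab v hjk w]
      rw [h2, Finset.mul_sum]
      calc _ ≤ ∑ v : Fin (k + 1) → Fin n → Fin R,
            R ^ n * (2 * R * (((en (j + 1)).image (pidR kn p1 (rtab v) j)).card + 1) +
              ((en (j + 1)).image (pidR kn p1 (rtab v) j)).card ^ 2) :=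
            Finset.sum_le_sum fun v _ => SiftK_step en kn p1 hkn hint (rtab v) j
        _ ≤ ∑ v : Fin (k + 1) → Fin n → Fin R,
            R ^ n * (2 * R * ((en (j + 1)).image (pidR kn p1 (rtab v) j)).card +
              (2 * R + n ^ 2)) := by
            refine Finset.sum_le_sum fun v _ => Nat.mul_le_mul_left _ ?_
            have h3 : ((en (j + 1)).image (pidR kn p1 (rtab v) j)).card ≤ n := by
              refine (Finset.card_le_univ _).trans ?_
              rw [Fintype.card_fin]
            have h4 := Nat.pow_le_pow_left h3 2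
            nlinarith
        _ = R ^ n * (2 * R * E j + (2 * R + n ^ 2) * R ^ (n * (k + 1))) := by
            rw [← Finset.mul_sum, Finset.sum_add_distrib, ← Finset.mul_sum, Finset.sum_const,
              Finset.card_univ, hN, smul_eq_mul]
            ring
    have h5 : 4 * R * E (j + 1) ≤ 2 * R * E j + (2 * R + n ^ 2) * R ^ (n * (k + 1)) := by
      have h6 : R ^ n * (4 * R * E (j + 1)) ≤
          R ^ n * (2 * R * E j + (2 * R + n ^ 2) * R ^ (n * (k + 1))) := by
        calc R ^ n * (4 * R * E (j + 1)) = 4 * R * (R ^ n * E (j + 1)) := by ring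
          _ ≤ _ := h1
      exact Nat.le_of_mul_le_mul_left h6 (pow_pos hR n)
    have h7 : 2 ^ (j + 1) * R * E j ≤ R ^ (n * (k + 1)) *
        (2 * R * ((en 1).image p1).card + 2 ^ j * n ^ 2 + 2 ^ (j + 1) * R) := ih'
    calc 2 ^ (j + 1 + 1) * R * E (j + 1) = 2 ^ j * (4 * R * E (j + 1)) := by ring
      _ ≤ 2 ^ j * (2 * R * E j + (2 * R + n ^ 2) * R ^ (n * (k + 1))) :=
          Nat.mul_le_mul_left _ h5
      _ = 2 ^ (j + 1) * R * E j + 2 ^ j * (2 * R + n ^ 2) * R ^ (n * (k + 1)) := by ring
      _ ≤ R ^ (n * (k + 1)) *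
          (2 * R * ((en 1).image p1).card + 2 ^ j * n ^ 2 + 2 ^ (j + 1) * R) +
          2 ^ j * (2 * R + n ^ 2) * R ^ (n * (k + 1)) := Nat.add_le_add_right h7 _
      _ = _ := by ring

/-- After `k` sifting objects it is rare that two personas survive. -/
theorem sift_iter {n R k : ℕ} (hR : 0 < R) (en : ℕ → Finset (Fin n))
    (kn : ℕ → Fin n → Finset (Fin n)) (p1 : Fin n → Fin n)
    (hkn : ∀ j p, kn j p ⊆ en j)
    (hint : ∀ j p p', p ∈ en (j + 1) → p' ∈ en (j + 1) → (kn j p ∩ kn j p').Nonempty) :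
    2 ^ (k + 1) * R * (univ.filter fun v : Fin (k + 1) → Fin n → Fin R =>
      2 ≤ ((en (k + 1)).image (pidR kn p1 (rtab v) k)).card).card ≤
      R ^ (n * (k + 1)) * (2 * R * ((en 1).image p1).card + 2 ^ k * n ^ 2) := by
  have hN : Fintype.card (Fin (k + 1) → Fin n → Fin R) = R ^ (n * (k + 1)) := by
    rw [Fintype.card_fun, Fintype.card_fun, Fintype.card_fin, Fintype.card_fin,
      Fintype.card_fin, pow_mul]
  set cnt := (univ.filter fun v : Fin (k + 1) → Fin n → Fin R =>
      2 ≤ ((en (k + 1)).image (pidR kn p1 (rtab v) k)).card).card with hcnt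
  rcases (en (k + 1)).eq_empty_or_nonempty with he | he
  · have h0 : cnt = 0 := by
      rw [hcnt, Finset.card_eq_zero, Finset.filter_eq_empty_iff]
      intro v _
      rw [he, Finset.image_empty, Finset.card_empty]
      omega
    rw [h0, Nat.mul_zero]
    exact Nat.zero_le _
  · have h1 := SiftK_sum (k := k) hR en kn p1 hkn hint k le_rfl
    have h2 : cnt + R ^ (n * (k + 1)) ≤ ∑ v : Fin (k + 1) → Fin n → Fin R,
        ((en (k + 1)).image (pidR kn p1 (rtab v) k)).card := by
      rw [hcnt, Finset.card_filter, ← hN, ← Finset.card_univ, Finset.card_eq_sum_ones,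
        ← Finset.sum_add_distrib]
      refine Finset.sum_le_sum fun v _ => ?_
      have h3 : 0 < ((en (k + 1)).image (pidR kn p1 (rtab v) k)).card :=
        Finset.card_pos.2 (he.image _)
      split_ifs <;> omega
    have h4 : 2 ^ (k + 1) * R * (cnt + R ^ (n * (k + 1))) ≤
        R ^ (n * (k + 1)) * (2 * R * ((en 1).image p1).card + 2 ^ k * n ^ 2 +
        2 ^ (k + 1) * R) := (Nat.mul_le_mul_left _ h2).trans h1
    have h5 : 2 ^ (k + 1) * R * (cnt + R ^ (n * (k + 1))) =
        2 ^ (k + 1) * R * cnt + R ^ (n * (k + 1)) * (2 ^ (k + 1) * R) := by ring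
    have h6 : R ^ (n * (k + 1)) * (2 * R * ((en 1).image p1).card + 2 ^ k * n ^ 2 +
        2 ^ (k + 1) * R) = R ^ (n * (k + 1)) * (2 * R * ((en 1).image p1).card +
        2 ^ k * n ^ 2) + R ^ (n * (k + 1)) * (2 ^ (k + 1) * R) := by ring
    rw [h5, h6] at h4
    exact Nat.le_of_add_le_add_right h4

end Pool.Agent.Q217
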