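import Pool.Agent.MP217Two.ProbA
import Pool.Agent.MP217Two.ProbB
import Pool.Agent.MP217Two.SiftK
import Pool.Agent.MP217Area.Ind

set_option autoImplicit false

/-!
# The probability of success of a round
-/

namespace Pool.Agent.Q217

open Finset MeasureTheory
open scoped ENNReal
open Pool.Agent.MP217Upper.Model (coins)
open Pool.Agent.A217 (num unif_table meas_of_fin measurable_of_fin coins_mul)

attribute [local instance 10] Classical.propDecidable

variable {n : ℕ}

/-- The number of personas that survive the sifting. -/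
noncomputable def npers (G : Geo n) (k : ℕ) (σ : ℕ → Option (Fin n)) (A : Tab n) : ℕ :=
  ((ent (noData G true A.sd) σ (k + 1)).image
    (pidR (kn (noData G true A.sd) σ) (pid1 (noData G true A.sd) σ A.fl)
      (fun j a => (A.rk a).getD j 0) k)).card

/-- The number of survivors for the tables `sd` and `fl` and the ranks `r`. -/
private noncomputable def sp_nper (G : Geo n) (k : ℕ) (σ : ℕ → Option (Fin n))
    (sd : Fin n → ℕ → ℕ → ℕ → ℕ) (fl : Fin n → ℕ → Bool) (r : ℕ → Fin n → ℕ) : ℕ :=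
  ((ent (noData G true sd) σ (k + 1)).image
    (pidR (kn (noData G true sd) σ) (pid1 (noData G true sd) σ fl) r k)).card

private theorem sp_getD (k ρ : ℕ) (c : ℕ → Bool) (j : ℕ) :
    (rkc k ρ c).getD j 0 = if j < k + 1 then (num c (Nat.pair 2 j) ρ).val else 0 := by
  unfold rkc
  split_ifs with h
  · rw [List.getD_eq_getElem _ _ (by simpa using h)]
    simp
  · rw [List.getD_eq_default _ _ (by simpa using h)]

private theorem sp_rtab (k ρ : ℕ) (c : Fin n → ℕ → Bool) :
    (fun j a => (rkc k ρ (c a)).getD j 0) =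
      rtab (n := n) (R := 2 ^ ρ) (k := k + 1)
        (fun j a => num (c a) (Nat.pair 2 j.val) ρ) := by
  funext j a
  rw [sp_getD]
  unfold rtab
  by_cases h : j < k + 1
  · rw [if_pos h, dif_pos h]
  · rw [if_neg h, dif_neg h]

private theorem sp_fl0 (G : Geo n) (c : ℕ → Bool) : flc G c 0 = true := by
  unfold flc
  have h := (num c (Nat.pair 1 0) (0 - G.g)).isLt
  have h2 : 2 ^ (0 - G.g) = 1 := by rw [Nat.zero_sub, pow_zero]
  rw [decide_eq_true (Nat.zero_le _), decide_eq_true (by omega)]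
  rfl

/-- One value of the seeds and flags. -/
private theorem sp_one {G : Geo n} (hG : G.Good) (k ρ : ℕ) (σ : ℕ → Option (Fin n)) (A : Tab n)
    (h0 : ∀ p, A.fl p 0 = true) (h1 : GE1 G σ A.sd) (h2 : GE2 G σ A.fl) :
    2 ^ (k + 1) * 2 ^ ρ * ∫⁻ c, (if 2 ≤ sp_nper G k σ A.sd A.fl
      (fun j a => (rkc k ρ (c a)).getD j 0) then (1 : ℝ≥0∞) else 0) ∂coins n ≤
      2 * 2 ^ ρ * (nfl G σ A.fl : ℝ≥0∞) + 2 ^ k * n ^ 2 := by
  classical
  have h3 : ∫⁻ c, (if 2 ≤ sp_nper G k σ A.sd A.fl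
      (fun j a => (rkc k ρ (c a)).getD j 0) then (1 : ℝ≥0∞) else 0) ∂coins n =
      ((2 ^ ρ : ℝ≥0∞)⁻¹) ^ (n * (k + 1)) * ∑ v : Fin (k + 1) → Fin n → Fin (2 ^ ρ),
        (if 2 ≤ sp_nper G k σ A.sd A.fl (rtab v) then (1 : ℝ≥0∞) else 0) := by
    rw [← unif_table (n := n) (k + 1) ρ (fun j => Nat.pair 2 j.val)
      (fun i j hij => by
        have := (Nat.pair_eq_pair.mp hij).2
        exact Fin.ext this)
      (fun v => if 2 ≤ sp_nper G k σ A.sd A.fl (rtab v) then (1 : ℝ≥0∞) else 0)]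
    refine lintegral_congr fun c => ?_
    rw [sp_rtab]
  have h4 : ∑ v : Fin (k + 1) → Fin n → Fin (2 ^ ρ),
      (if 2 ≤ sp_nper G k σ A.sd A.fl (rtab v) then (1 : ℝ≥0∞) else 0) =
      ((univ.filter fun v : Fin (k + 1) → Fin n → Fin (2 ^ ρ) =>
        2 ≤ sp_nper G k σ A.sd A.fl (rtab v)).card : ℝ≥0∞) := by
    rw [card_filter, Nat.cast_sum]
    refine sum_congr rfl fun v _ => ?_
    split_ifs <;> simp
  have h5 := sift_iter (n := n) (R := 2 ^ ρ) (k := k) (by positivity)
    (ent (noData G true A.sd) σ) (kn (noData G true A.sd) σ)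
    (pid1 (noData G true A.sd) σ A.fl)
    (fun j p => kn_subset G A.sd σ j p)
    (fun j p p' hp hp' => kn_inter hG A.sd σ hp hp')
  have h6 := card_pid1 hG h0 h1 h2
  have h7 : 2 ^ (k + 1) * 2 ^ ρ * (univ.filter fun v : Fin (k + 1) → Fin n → Fin (2 ^ ρ) =>
      2 ≤ sp_nper G k σ A.sd A.fl (rtab v)).card ≤
      (2 ^ ρ) ^ (n * (k + 1)) * (2 * 2 ^ ρ * nfl G σ A.fl + 2 ^ k * n ^ 2) := by
    refine le_trans h5 ?_
    gcongr
  have h8 : (2 : ℝ≥0∞) ^ (k + 1) * 2 ^ ρ *
      ((univ.filter fun v : Fin (k + 1) → Fin n → Fin (2 ^ ρ) =>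
      2 ≤ sp_nper G k σ A.sd A.fl (rtab v)).card : ℝ≥0∞) ≤
      (2 ^ ρ) ^ (n * (k + 1)) * (2 * 2 ^ ρ * (nfl G σ A.fl : ℝ≥0∞) + 2 ^ k * n ^ 2) := by
    exact_mod_cast h7
  rw [h3, h4]
  have hR0 : ((2 : ℝ≥0∞) ^ ρ) ≠ 0 := by positivity
  have hRt : ((2 : ℝ≥0∞) ^ ρ) ≠ ∞ := ENNReal.pow_ne_top (by norm_num)
  have h9 : (((2 : ℝ≥0∞) ^ ρ)⁻¹) ^ (n * (k + 1)) * (2 ^ ρ) ^ (n * (k + 1)) = 1 := by
    rw [← mul_pow, ENNReal.inv_mul_cancel hR0 hRt, one_pow]
  calc _ = (((2 : ℝ≥0∞) ^ ρ)⁻¹) ^ (n * (k + 1)) * (2 ^ (k + 1) * 2 ^ ρ *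
      ((univ.filter fun v : Fin (k + 1) → Fin n → Fin (2 ^ ρ) =>
      2 ≤ sp_nper G k σ A.sd A.fl (rtab v)).card : ℝ≥0∞)) := by ring
    _ ≤ (((2 : ℝ≥0∞) ^ ρ)⁻¹) ^ (n * (k + 1)) *
      ((2 ^ ρ) ^ (n * (k + 1)) * (2 * 2 ^ ρ * (nfl G σ A.fl : ℝ≥0∞) + 2 ^ k * n ^ 2)) := by
        gcongr
    _ = _ := by rw [← mul_assoc, h9, one_mul]

/-! ### The coordinates of the seeds and flags -/

/-- The coordinates of the seeds and of the flags of one processor. -/
private def sp_co (G : Geo n) : Finset ℕ :=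
  ((range (G.O + 1) ×ˢ range (G.L + 1)) ×ˢ
      (range ((range (G.L + 1)).sup G.ns) ×ˢ range (G.L + 3))).image
      (fun q => Nat.pair (Nat.pair 0 (Nat.pair (Nat.pair q.1.1 q.1.2) q.2.1)) q.2.2) ∪
    (range (G.L + 1) ×ˢ range (G.L + 1)).image (fun q => Nat.pair (Nat.pair 1 q.1) q.2)

private theorem sp_co_not (G : Geo n) {m : ℕ} (hm : m ∈ sp_co G) (i j : ℕ) :
    m ≠ Nat.pair (Nat.pair 2 i) j := by
  unfold sp_co at hm
  rw [mem_union, mem_image, mem_image] at hm
  rcases hm with ⟨q, -, rfl⟩ | ⟨q, -, rfl⟩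
  · intro h
    have := (Nat.pair_eq_pair.mp (Nat.pair_eq_pair.mp h).1).1
    omega
  · intro h
    have := (Nat.pair_eq_pair.mp (Nat.pair_eq_pair.mp h).1).1
    omega

private theorem sp_sd (G : Geo n) {c c' : ℕ → Bool} (h : ∀ m ∈ sp_co G, c m = c' m) :
    sdc G c = sdc G c' := by
  apply sdc_congr
  intro o ho l hl i hi j hj
  apply h
  unfold sp_co
  apply mem_union_left
  rw [mem_image]
  refine ⟨((o, l), (i, j)), ?_, rfl⟩
  have h1 : G.ns l ≤ (range (G.L + 1)).sup G.ns :=
    le_sup (f := G.ns) (mem_range.2 (by omega))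
  simp only [mem_product, mem_range]
  omega

private theorem sp_fl (G : Geo n) {c c' : ℕ → Bool} (h : ∀ m ∈ sp_co G, c m = c' m) :
    flc G c = flc G c' := by
  apply flc_congr
  intro l hl j hj
  apply h
  unfold sp_co
  apply mem_union_right
  rw [mem_image]
  refine ⟨(l, j), ?_, rfl⟩
  simp only [mem_product, mem_range]
  omega

/-- The coins with given values of the coordinates of the seeds and flags. -/
private def sp_E (G : Geo n) (u : Fin n → sp_co G → Bool) : Set (Fin n → ℕ → Bool) :=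
  {c | ∀ a (m : sp_co G), c a m.val = u a m}

/-- Extension by `false`. -/
private noncomputable def sp_ext (G : Geo n) (u : Fin n → sp_co G → Bool) :
    Fin n → ℕ → Bool :=
  fun a m => if h : m ∈ sp_co G then u a ⟨m, h⟩ else false

private theorem sp_E_ext (G : Geo n) {u : Fin n → sp_co G → Bool} {c : Fin n → ℕ → Bool}
    (hc : c ∈ sp_E G u) (a : Fin n) : ∀ m ∈ sp_co G, c a m = sp_ext G u a m := by
  intro m hm
  unfold sp_ext
  rw [dif_pos hm]
  exact hc a ⟨m, hm⟩

private theorem sp_E_meas (G : Geo n) (u : Fin n → sp_co G → Bool) :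
    MeasurableSet (sp_E G u) := by
  apply meas_of_fin (univ ×ˢ sp_co G)
  intro c c' h
  have h1 : ∀ a (m : sp_co G), c a m.val = c' a m.val := fun a m =>
    h (a, m.val) (mem_product.mpr ⟨mem_univ _, m.prop⟩)
  unfold sp_E
  simp only [Set.mem_ofPred_eq, h1]

private theorem sp_E_disj (G : Geo n) : Pairwise (Function.onFun Disjoint (sp_E G)) := by
  intro u u' huu
  rw [Function.onFun, Set.disjoint_left]
  intro c h h'
  apply huu
  funext a m
  rw [← h a m, ← h' a m]

private theorem sp_E_cover (G : Geo n) : (⋃ u, sp_E G u) = Set.univ := by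
  rw [Set.eq_univ_iff_forall]
  intro c
  rw [Set.mem_iUnion]
  exact ⟨fun a m => c a m.val, fun a m => rfl⟩

private theorem sp_sum_one (G : Geo n) : ∑ u, coins n (sp_E G u) = 1 := by
  have hp : IsProbabilityMeasure (coins n) := by
    unfold coins
    infer_instance
  have h := measure_iUnion (μ := coins n) (sp_E_disj G) (sp_E_meas G)
  rw [sp_E_cover, measure_univ, tsum_fintype] at h
  exact h.symm

private theorem sp_nfl (G : Geo n) (σ : ℕ → Option (Fin n)) :
    ∫⁻ c, (nfl G σ (fun p => flc G (c p)) : ℝ≥0∞) ∂coins n =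
      ∑ u, coins n (sp_E G u) * (nfl G σ (fun p => flc G (sp_ext G u p)) : ℝ≥0∞) := by
  classical
  have h1 : ∀ c : Fin n → ℕ → Bool, (nfl G σ (fun p => flc G (c p)) : ℝ≥0∞) =
      ∑ u, (sp_E G u).indicator
        (fun _ => (nfl G σ (fun p => flc G (sp_ext G u p)) : ℝ≥0∞)) c := by
    intro c
    let u0 : Fin n → sp_co G → Bool := fun a m => c a m.val
    have hu0 : c ∈ sp_E G u0 := fun a m => rfl
    rw [Finset.sum_eq_single u0]
    · rw [Set.indicator_of_mem hu0]
      have : (fun p => flc G (c p)) = fun p => flc G (sp_ext G u0 p) := by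
        funext p
        exact sp_fl G (sp_E_ext G hu0 p)
      rw [this]
    · intro u _ hu
      rw [Set.indicator_of_notMem]
      intro hcu
      exact (Set.disjoint_left.mp (sp_E_disj G hu)) hcu hu0
    · intro h
      exact absurd (mem_univ _) h
  rw [lintegral_congr h1, lintegral_finsetSum]
  · refine sum_congr rfl fun u _ => ?_
    rw [lintegral_indicator_const (sp_E_meas G u), mul_comm]
  · intro u _
    exact measurable_const.indicator (sp_E_meas G u)

/-- It is rare that two personas survive in a good round. -/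
theorem sift_prob {G : Geo n} (hG : G.Good) (k ρ : ℕ) (x : Fin n → Bool)
    (σ : ℕ → Option (Fin n)) :
    2 ^ (k + 1) * 2 ^ ρ * coins n {c | GE1 G σ (tab G k ρ x c).sd ∧ GE2 G σ (tab G k ρ x c).fl ∧
      2 ≤ npers G k σ (tab G k ρ x c)} ≤
      2 * 2 ^ ρ * ∫⁻ c, (nfl G σ (tab G k ρ x c).fl : ℝ≥0∞) ∂coins n + 2 ^ k * n ^ 2 := by
  classical
  set Ev : Set (Fin n → ℕ → Bool) := {c | GE1 G σ (tab G k ρ x c).sd ∧
    GE2 G σ (tab G k ρ x c).fl ∧ 2 ≤ npers G k σ (tab G k ρ x c)} with hEv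
  -- one value of the seeds and flags
  have key : ∀ u : Fin n → sp_co G → Bool, 2 ^ (k + 1) * 2 ^ ρ * coins n (Ev ∩ sp_E G u) ≤
      coins n (sp_E G u) * (2 * 2 ^ ρ * (nfl G σ (fun p => flc G (sp_ext G u p)) : ℝ≥0∞) +
        2 ^ k * n ^ 2) := by
    intro u
    set A : Tab n := tab G k ρ x (sp_ext G u) with hA
    have hsd : ∀ c ∈ sp_E G u, (tab G k ρ x c).sd = A.sd := by
      intro c hc
      funext p
      exact sp_sd G (sp_E_ext G hc p)
    have hfl : ∀ c ∈ sp_E G u, (tab G k ρ x c).fl = A.fl := by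
      intro c hc
      funext p
      exact sp_fl G (sp_E_ext G hc p)
    by_cases hgood : GE1 G σ A.sd ∧ GE2 G σ A.fl
    · have h1 := sp_one hG k ρ σ A (fun p => sp_fl0 G (sp_ext G u p)) hgood.1 hgood.2
      set g : (Fin n → ℕ → Bool) → ℝ≥0∞ := fun c => if 2 ≤ sp_nper G k σ A.sd A.fl
        (fun j a => (rkc k ρ (c a)).getD j 0) then (1 : ℝ≥0∞) else 0 with hg
      have hgm : Measurable g := by
        apply measurable_of_fin (univ ×ˢ (range (k + 1) ×ˢ range ρ).image
          (fun q => Nat.pair (Nat.pair 2 q.1) q.2))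
        intro c c' h
        have h2 : ∀ a, rkc k ρ (c a) = rkc k ρ (c' a) := by
          intro a
          apply rkc_congr
          intro i hi j hj
          refine h (a, Nat.pair (Nat.pair 2 i) j) (mem_product.mpr ⟨mem_univ _, ?_⟩)
          refine mem_image.mpr ⟨(i, j), ?_, rfl⟩
          simp only [mem_product, mem_range]
          omega
        simp only [hg, h2]
      have h3 : coins n (Ev ∩ sp_E G u) ≤ ∫⁻ c in sp_E G u, g c ∂coins n := by
        have hms : MeasurableSet {c | g c = 1} := hgm (measurableSet_singleton 1)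
        have h4 : Ev ∩ sp_E G u ⊆ {c | g c = 1} ∩ sp_E G u := by
          rintro c ⟨⟨-, -, h5⟩, h6⟩
          refine ⟨?_, h6⟩
          have h7 : npers G k σ (tab G k ρ x c) = sp_nper G k σ A.sd A.fl
              (fun j a => (rkc k ρ (c a)).getD j 0) := by
            unfold npers sp_nper
            rw [hsd c h6, hfl c h6]
            rfl
          rw [h7] at h5
          simp only [Set.mem_ofPred_eq, hg]
          rw [if_pos h5]
        refine le_trans (measure_mono h4) ?_
        rw [← Measure.restrict_apply hms]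
        have h8 : ∫⁻ c in sp_E G u, ({c | g c = 1} : Set (Fin n → ℕ → Bool)).indicator
            (fun _ => (1 : ℝ≥0∞)) c ∂coins n ≤ ∫⁻ c in sp_E G u, g c ∂coins n := by
          refine lintegral_mono fun c => ?_
          by_cases h9 : g c = 1
          · rw [Set.indicator_of_mem (by exact h9), h9]
          · rw [Set.indicator_of_notMem (by exact h9)]
            exact zero_le
        rw [lintegral_indicator_const hms, one_mul] at h8
        exact h8
      have h10 : ∫⁻ c in sp_E G u, g c ∂coins n =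
          coins n (sp_E G u) * ∫⁻ c, g c ∂coins n := by
        apply coins_mul {q | ∃ i j, q.2 = Nat.pair (Nat.pair 2 i) j} (sp_E G u) g
          (sp_E_meas G u) hgm
        · intro c c' h
          have h11 : ∀ a (m : sp_co G), c a m.val = c' a m.val := by
            intro a m
            apply h
            rintro ⟨i, j, hij⟩
            exact sp_co_not G m.prop i j hij
          unfold sp_E
          simp only [Set.mem_ofPred_eq, h11]
        · intro c c' h
          have h2 : ∀ a, rkc k ρ (c a) = rkc k ρ (c' a) := by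
            intro a
            apply rkc_congr
            intro i hi j hj
            exact h a _ ⟨i, j, rfl⟩
          simp only [hg, h2]
      calc 2 ^ (k + 1) * 2 ^ ρ * coins n (Ev ∩ sp_E G u)
          ≤ 2 ^ (k + 1) * 2 ^ ρ * (coins n (sp_E G u) * ∫⁻ c, g c ∂coins n) := by
            rw [← h10]
            gcongr
        _ = coins n (sp_E G u) * (2 ^ (k + 1) * 2 ^ ρ * ∫⁻ c, g c ∂coins n) := by ring
        _ ≤ coins n (sp_E G u) * (2 * 2 ^ ρ * (nfl G σ A.fl : ℝ≥0∞) + 2 ^ k * n ^ 2) := by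
            gcongr
    · have h1 : Ev ∩ sp_E G u = ∅ := by
        rw [Set.eq_empty_iff_forall_notMem]
        rintro c ⟨⟨h2, h3, -⟩, h4⟩
        rw [hsd c h4] at h2
        rw [hfl c h4] at h3
        exact hgood ⟨h2, h3⟩
      rw [h1, measure_empty, mul_zero]
      exact zero_le
  -- the sum
  have h1 : coins n Ev ≤ ∑ u, coins n (Ev ∩ sp_E G u) := by
    calc coins n Ev ≤ coins n (⋃ u ∈ (univ : Finset (Fin n → sp_co G → Bool)),
          (Ev ∩ sp_E G u)) := by
          refine measure_mono fun c hc => ?_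
          refine Set.mem_biUnion (x := fun a m => c a m.val) (by simp) ⟨hc, fun a m => rfl⟩
      _ ≤ _ := measure_biUnion_finset_le _ _
  have h2 : ∫⁻ c, (nfl G σ (tab G k ρ x c).fl : ℝ≥0∞) ∂coins n =
      ∑ u, coins n (sp_E G u) * (nfl G σ (fun p => flc G (sp_ext G u p)) : ℝ≥0∞) :=
    sp_nfl G σ
  calc 2 ^ (k + 1) * 2 ^ ρ * coins n Ev
      ≤ 2 ^ (k + 1) * 2 ^ ρ * ∑ u, coins n (Ev ∩ sp_E G u) := by gcongr
    _ = ∑ u, 2 ^ (k + 1) * 2 ^ ρ * coins n (Ev ∩ sp_E G u) := by rw [mul_sum]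
    _ ≤ ∑ u, coins n (sp_E G u) * (2 * 2 ^ ρ *
        (nfl G σ (fun p => flc G (sp_ext G u p)) : ℝ≥0∞) + 2 ^ k * n ^ 2) :=
          sum_le_sum fun u _ => key u
    _ = 2 * 2 ^ ρ * (∑ u, coins n (sp_E G u) *
        (nfl G σ (fun p => flc G (sp_ext G u p)) : ℝ≥0∞)) +
          (∑ u, coins n (sp_E G u)) * (2 ^ k * n ^ 2) := by
          rw [mul_sum, sum_mul, ← sum_add_distrib]
          refine sum_congr rfl fun u _ => ?_
          ring
    _ = _ := by rw [sp_sum_one, one_mul, h2]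

end Pool.Agent.Q217
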